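import Mathlib
import Pool.Agent.Lib.MP_950c68_ag.Dim3Defs

/-!
# Tate classes on abelian varieties of dimension at most five

Let `k` be a finite field with `q = p ^ f` elements and `A` an abelian variety over `k`.  The
Frobenius acts semisimply on `H¹(Ā)`; let `T` be the multiset of its eigenvalues (`2 dim A` Weil
`q`-numbers).  Since `H^{2j}(Ā) = ⋀^{2j} H¹(Ā)`, the union of the spaces `E^j` over the finite
extensions of `k` is spanned over an algebraic closure of `ℚ_l` by the products of eigenvectors
whose eigenvalues form a submultiset `s ≤ T` with `2 j` elements with `(∏ s) ^ n = q ^ (n j)` for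
some `n ≥ 1` (`Dim3.IsTate`).  By Honda and Tate, `T` satisfies the conditions `weil`, `conj` and
`hondaTate` of `AV`, and `neat` after a finite extension of `k` (then all endomorphisms of `A` over
the algebraic closure are defined over `k`).
-/

namespace Pool.Agent.Lib.MP_950c68_ag.Five

open Polynomial Pool.Agent.Lib.MP_950c68_ag.Dim3

/-- The condition of Honda and Tate for the multiplicity `e`: for every monic factor `h` of the
minimal polynomial of `x` over `ℚ_p` the absolute value of `h(0) ^ e` is an integral power of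
`q`. -/
def HondaTate (p : ℕ) [Fact p.Prime] (q e : ℕ) (x : ℂ) : Prop :=
  ∀ h : ℚ_[p][X], h.Monic → h ∣ (minpoly ℚ x).map (algebraMap ℚ ℚ_[p]) →
    ∃ m : ℤ, ‖h.eval 0‖ ^ e = (q : ℝ) ^ m

/-- The multisets of the eigenvalues of the Frobenius of abelian varieties over the field with `q`
elements, all of whose endomorphisms over the algebraic closure are defined over the field. -/
structure AV (p : ℕ) [Fact p.Prime] (q : ℕ) (T : Multiset ℂ) : Prop where
  weil : ∀ x ∈ T, IsWeil q x
  conj : ∀ x ∈ T, ∀ y : ℂ, IsConjRoot ℚ x y → T.count y = T.count x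
  hondaTate : ∀ x ∈ T, HondaTate p q (T.count x) x
  neat : ∀ x ∈ T, ∀ y ∈ T, ∀ n : ℕ, n ≠ 0 → x ^ n = y ^ n → x = y

/-- The multisets obtained from Tate multisets with two elements and from Weil classes on abelian
varieties of dimension four and six by forming unions and by removing pairs `{α, q / α}`. -/
inductive Gen (p : ℕ) [Fact p.Prime] (q : ℕ) : Multiset ℂ → Prop
  /-- divisor classes -/
  | one (α β : ℂ) : IsTate q {α, β} → Gen p q {α, β}
  /-- Weil classes on `A × E ^ k` -/
  | weil (x w : ℂ) (Φ : Finset ℂ) (e k : ℕ) : IsWeil q x → Distinct x → HondaTate p q e x →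
      HalfSystem q x Φ → Ordinary p q w ∨ Supersingular q w →
      (e * Φ.card + k = 4 ∨ e * Φ.card + k = 6 ∧ k ≠ 0) →
      IsTate q (e • Φ.val + Multiset.replicate k w) → Gen p q (e • Φ.val + Multiset.replicate k w)
  /-- exterior products -/
  | add (s t : Multiset ℂ) : Gen p q s → Gen p q t → Gen p q (s + t)
  /-- contraction -/
  | cancel (α : ℂ) (s : Multiset ℂ) : IsWeil q α → s ≠ 0 → Gen p q ({α, q / α} + s) → Gen p q s

/-- Empty or generated. -/
def G0 (p : ℕ) [Fact p.Prime] (q : ℕ) (s : Multiset ℂ) : Prop := s = 0 ∨ Gen p q s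

end Pool.Agent.Lib.MP_950c68_ag.Five
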