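import Mathlib
import Pool.Agent.Lib.MP_950c68_ag.Five.Defs
import Pool.Agent.Lib.MP_950c68_ag.Dim3Proof

namespace Pool.Agent.Lib.MP_950c68_ag.Five

open Polynomial MulAction Pool.Agent.Lib.MP_950c68_ag.Orb Pool.Agent.Lib.MP_950c68_ag.Dim3

variable {p : ℕ} [Fact p.Prime] {q f : ℕ}

private theorem norm_int_eq {b c : ℤ} {k : ℕ} (hb : b = (p : ℤ) ^ k * c) (hc : ¬ (p : ℤ) ∣ c) :
    ‖(b : ℚ_[p])‖ = (p : ℝ) ^ (-(k : ℤ)) := by
  have h1 : ‖(c : ℚ_[p])‖ = 1 := by
    apply le_antisymm (Padic.norm_int_le_one c)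
    by_contra hcon
    push Not at hcon
    exact hc ((Padic.norm_intCast_lt_one_iff (p := p)).mp hcon)
  rw [hb]
  push_cast
  rw [norm_mul, h1, mul_one, norm_pow, Padic.norm_p, inv_pow, zpow_neg, zpow_natCast]

/-- The root of small slope. -/
private theorem exists_small_root (b c : ℤ) (k : ℕ) (hb : b = (p : ℤ) ^ k * c)
    (hc : ¬ (p : ℤ) ∣ c) (hk : 2 * k < f) :
    ∃ β : ℚ_[p], β ^ 2 - b * β + ((p ^ f : ℕ) : ℚ_[p]) = 0 ∧ ‖β‖ = (p : ℝ) ^ (-(k : ℤ)) := by
  have hp : p.Prime := Fact.out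
  have hp1 : (1 : ℝ) < p := by exact_mod_cast hp.one_lt
  have hbn := norm_int_eq hb hc
  have hbp : (b : ℚ_[p]) ≠ 0 := by
    rw [← norm_ne_zero_iff, hbn]
    positivity
  have hqn : ‖((p ^ f : ℕ) : ℚ_[p])‖ = (p : ℝ) ^ (-(f : ℤ)) := by
    rw [Nat.cast_pow, norm_pow, Padic.norm_p, inv_pow, zpow_neg, zpow_natCast]
  have hlt : ‖((p ^ f : ℕ) : ℚ_[p])‖ < ‖(b : ℚ_[p]) ^ 2‖ := by
    rw [hqn, norm_pow, hbn, ← zpow_natCast, ← zpow_mul]
    apply zpow_lt_zpow_right₀ hp1
    push_cast
    omega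
  have hu : ‖((p ^ f : ℕ) : ℚ_[p]) / (b : ℚ_[p]) ^ 2‖ < 1 := by
    rw [norm_div, div_lt_one (norm_pos_iff.mpr (pow_ne_zero 2 hbp))]
    exact hlt
  let u : ℤ_[p] := ⟨((p ^ f : ℕ) : ℚ_[p]) / (b : ℚ_[p]) ^ 2, hu.le⟩
  have hu' : ‖u‖ < 1 := hu
  have hF1 : (aeval (1 : ℤ_[p])) (X ^ 2 - X + C u : ℤ_[p][X]) = u := by simp
  have hF2 : (aeval (1 : ℤ_[p])) (derivative (X ^ 2 - X + C u : ℤ_[p][X])) = 1 := by
    simp only [derivative_add, derivative_sub, derivative_X_pow, derivative_X, derivative_C]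
    simp
    norm_num
  obtain ⟨z, hz, hz1, _, _⟩ := hensels_lemma (p := p) (F := (X ^ 2 - X + C u : ℤ_[p][X])) (a := 1)
    (by rw [hF1, hF2, norm_one, one_pow]; exact hu')
  rw [hF2, norm_one] at hz1
  have hz2 : ‖z‖ = 1 := by
    have h1 : ‖(1 : ℤ_[p])‖ = 1 := norm_one
    have h2 : z = (z - 1) + 1 := by ring
    rw [h2]
    rw [PadicInt.norm_add_eq_max_of_ne (by rw [h1]; exact hz1.ne), h1]
    exact max_eq_right hz1.le
  have hz3 : (z : ℚ_[p]) ^ 2 - z + ((p ^ f : ℕ) : ℚ_[p]) / (b : ℚ_[p]) ^ 2 = 0 := by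
    have h1 : z ^ 2 - z + u = 0 := by simpa using hz
    have h2 : (z : ℚ_[p]) ^ 2 - z + (u : ℚ_[p]) = 0 := by
      exact_mod_cast congrArg (fun w : ℤ_[p] => (w : ℚ_[p])) h1
    exact h2
  refine ⟨b * z, ?_, ?_⟩
  · field_simp at hz3
    linear_combination hz3
  · rw [norm_mul, hbn]
    have : ‖(z : ℚ_[p])‖ = 1 := hz2
    rw [this, mul_one]

/-- The minimal polynomial of a Weil number of degree two. -/
private theorem exists_trace (_hq : q ≠ 0) {x : ℂ} (hW : IsWeil q x) (hns : ¬ Supersingular q x)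
    (hdeg : (minpoly ℚ x).natDegree = 2) :
    ∃ b : ℤ, x ^ 2 - b * x + q = 0 ∧ x + (starRingEnd ℂ) x = b ∧ x * (starRingEnd ℂ) x = q ∧
      minpoly ℚ x = X ^ 2 - C (b : ℚ) * X + C (q : ℚ) := by
  obtain ⟨hint, hconj⟩ := hW
  have hnx : ‖x‖ ^ 2 = q := hconj x rfl
  have hxc : x * (starRingEnd ℂ) x = q := by
    rw [Complex.mul_conj', ← Complex.ofReal_pow, hnx]
    simp
  have hmin : minpoly ℚ x = (minpoly ℤ x).map (algebraMap ℤ ℚ) :=
    minpoly.isIntegrallyClosed_eq_field_fractions' ℚ hint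
  have hmonic : (minpoly ℤ x).Monic := minpoly.monic hint
  have hdegZ : (minpoly ℤ x).natDegree = 2 := by
    rw [← hdeg, hmin, hmonic.natDegree_map]
  have hP : minpoly ℤ x = X ^ 2 + C ((minpoly ℤ x).coeff 1) * X + C ((minpoly ℤ x).coeff 0) := by
    have h1 := (minpoly ℤ x).as_sum_range_C_mul_X_pow
    rw [hdegZ, Finset.sum_range_succ, Finset.sum_range_succ, Finset.sum_range_one] at h1
    have h2 : (minpoly ℤ x).coeff 2 = 1 := by
      have := hmonic.coeff_natDegree
      rwa [hdegZ] at this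
    rw [h2] at h1
    conv_lhs => rw [h1]
    simp only [map_one, one_mul, pow_zero, mul_one, pow_one]
    ring
  set a1 := (minpoly ℤ x).coeff 1
  set a0 := (minpoly ℤ x).coeff 0
  have hx1 : x ^ 2 + a1 * x + a0 = 0 := by
    have h1 := minpoly.aeval ℤ x
    rw [hP] at h1
    simpa using h1
  have hx2 : (starRingEnd ℂ) x ^ 2 + a1 * (starRingEnd ℂ) x + a0 = 0 := by
    have h1 := congrArg (starRingEnd ℂ) hx1
    simpa using h1
  have hne : x - (starRingEnd ℂ) x ≠ 0 := by
    intro h1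
    apply hns
    refine ⟨1, one_ne_zero, ?_⟩
    have h2 : (starRingEnd ℂ) x = x := by linear_combination -h1
    rw [h2] at hxc
    rw [mul_one, pow_one, ← hxc]
    ring
  have htr : x + (starRingEnd ℂ) x = -a1 := by
    have h1 : (x - (starRingEnd ℂ) x) * (x + (starRingEnd ℂ) x + a1) = 0 := by
      linear_combination hx1 - hx2
    rcases mul_eq_zero.mp h1 with h2 | h2
    · exact absurd h2 hne
    · linear_combination h2
  have ha0 : (a0 : ℂ) = q := by
    rw [← hxc]
    linear_combination hx1 - x * htr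
  have ha0' : a0 = q := by exact_mod_cast ha0
  refine ⟨-a1, ?_, ?_, hxc, ?_⟩
  · push_cast
    rw [← ha0]
    linear_combination hx1
  · push_cast
    exact htr
  · rw [hmin, hP, ha0']
    simp only [Polynomial.map_add, Polynomial.map_mul, Polynomial.map_pow, map_X, map_C]
    push_cast
    simp

/-- A1: Weil numbers of degree two and multiplicity at most three. -/
theorem ordinary_or_cubic (hqp : q = p ^ f) (hf : f ≠ 0) {x : ℂ} (hW : IsWeil q x) (hns : ¬ Supersingular q x)
    (hdeg : (minpoly ℚ x).natDegree = 2) {e : ℕ} (he : 1 ≤ e) (he' : e ≤ 3)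
    (hHT : HondaTate p q e x) : Ordinary p q x ∨ Cubic p q x := by
  have hp : p.Prime := Fact.out
  have hp1 : (1 : ℝ) < p := by exact_mod_cast hp.one_lt
  have hq : q ≠ 0 := by
    rw [hqp]
    exact pow_ne_zero _ hp.ne_zero
  have hqC : (q : ℂ) ≠ 0 := by exact_mod_cast hq
  obtain ⟨b, hb, htr, hnorm, hmin⟩ := exists_trace hq hW hns hdeg
  have hx0 : x ≠ 0 := by
    rintro rfl
    rw [zero_mul] at hnorm
    exact hqC hnorm.symm
  have hb0 : b ≠ 0 := by
    rintro rfl
    apply hns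
    refine ⟨2, two_ne_zero, ?_⟩
    have h1 : x ^ 2 = -q := by
      push_cast at hb
      linear_combination hb
    calc x ^ (2 * 2) = (x ^ 2) ^ 2 := by ring
      _ = (q : ℂ) ^ 2 := by rw [h1]; ring
  obtain ⟨k, c, hc, hbk⟩ : ∃ (k : ℕ) (c : ℤ), ¬ (p : ℤ) ∣ c ∧ b = (p : ℤ) ^ k * c := by
    have hfin : FiniteMultiplicity (p : ℤ) b := by
      rw [Int.finiteMultiplicity_iff]
      refine ⟨?_, hb0⟩
      simpa using hp.one_lt.ne'
    obtain ⟨c, hc1, hc2⟩ := hfin.exists_eq_pow_mul_and_not_dvd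
    exact ⟨_, c, hc2, hc1⟩
  have hqpZ : (q : ℤ) = (p : ℤ) ^ f := by
    rw [hqp]
    push_cast
    rfl
  by_cases hkf : 2 * k < f
  · -- the root in the field of p-adic numbers
    obtain ⟨β, hβ, hβn⟩ := exists_small_root (p := p) (f := f) b c k hbk hc hkf
    have hdvd : (X - C β) ∣ (minpoly ℚ x).map (algebraMap ℚ ℚ_[p]) := by
      rw [dvd_iff_isRoot, hmin]
      simp only [Polynomial.map_add, Polynomial.map_sub, Polynomial.map_mul, Polynomial.map_pow,
        map_X, map_C, IsRoot.def, eval_add, eval_sub, eval_mul, eval_pow, eval_X, eval_C]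
      rw [hqp]
      simpa using hβ
    obtain ⟨m, hm⟩ := hHT _ (monic_X_sub_C β) hdvd
    rw [eval_sub, eval_X, eval_C, zero_sub, norm_neg, hβn, hqp, ← zpow_natCast, ← zpow_mul] at hm
    have hm' : (p : ℝ) ^ (-(k : ℤ) * (e : ℤ)) = (p : ℝ) ^ ((f : ℤ) * m) := by
      rw [hm]
      push_cast
      rw [← zpow_natCast, ← zpow_mul]
    have hexp : -(k : ℤ) * (e : ℤ) = (f : ℤ) * m :=
      zpow_right_injective₀ (by linarith) hp1.ne' hm'
    have hexp' : (k : ℤ) * e = f * (-m) := by linarith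
    rcases Nat.eq_zero_or_pos k with hk | hk
    · left
      refine ⟨b, ?_, hb⟩
      rw [hbk, hk, pow_zero, one_mul]
      exact hc
    · right
      have hm0 : 0 < -m := by
        have h1 : 0 < (k : ℤ) * e := by positivity
        rw [hexp'] at h1
        have h2 : (0 : ℤ) < f := by exact_mod_cast Nat.pos_of_ne_zero hf
        by_contra hneg
        have h3 : -m ≤ 0 := not_lt.mp hneg
        nlinarith
      have hfm : (f : ℤ) * 1 ≤ f * (-m) := by
        have h2 : (0 : ℤ) ≤ f := by positivity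
        nlinarith
      have he3 : e = 3 := by
        by_contra hcon
        have h1 : e ≤ 2 := by omega
        have h2 : (k : ℤ) * e ≤ k * 2 := by
          have : (e : ℤ) ≤ 2 := by exact_mod_cast h1
          nlinarith
        have h3 : (2 * k : ℤ) < f := by exact_mod_cast hkf
        linarith
      have hm1 : -m = 1 := by
        by_contra hcon
        have h1 : 2 ≤ -m := by omega
        have h2 : (f : ℤ) * 2 ≤ f * (-m) := by
          have h2 : (0 : ℤ) ≤ f := by positivity
          nlinarith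
        rw [← hexp', he3] at h2
        push_cast at h2
        have h3 : (2 * k : ℤ) < f := by exact_mod_cast hkf
        have h4 : (0 : ℤ) < k := by exact_mod_cast hk
        linarith
      have hkf3 : f = 3 * k := by
        rw [hm1, he3] at hexp'
        push_cast at hexp'
        have : (f : ℤ) = 3 * k := by linarith
        exact_mod_cast this
      refine ⟨hdeg, x ^ 3 / q, ⟨c ^ 3 - 3 * b, ?_, ?_⟩, by field_simp⟩
      · intro h1
        have h2 : (p : ℤ) ∣ b := by
          rw [hbk]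
          exact Dvd.dvd.mul_right (dvd_pow_self _ (by omega)) _
        have h3 : (p : ℤ) ∣ c ^ 3 := by
          have := dvd_add h1 (Dvd.dvd.mul_left h2 3)
          simpa using this
        exact hc ((Nat.prime_iff_prime_int.mp hp).dvd_of_dvd_pow h3)
      · have hq3 : (b : ℂ) ^ 3 = q * (c : ℂ) ^ 3 := by
          have : b ^ 3 = (q : ℤ) * c ^ 3 := by
            rw [hqpZ, hkf3, hbk]
            ring
          exact_mod_cast this
        push_cast
        field_simp
        have hx2 : x ^ 2 = b * x - q := by linear_combination hb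
        have hx3 : x ^ 3 = (b ^ 2 - q) * x - b * q := by
          linear_combination (x + b) * hx2
        -- both sides reduce to a polynomial identity
        have key : x ^ 6 - (b ^ 3 - 3 * q * b) * x ^ 3 + (q : ℂ) ^ 3 = 0 := by
          have h6 : x ^ 6 = ((b ^ 2 - q) * x - b * q) ^ 2 := by
            rw [← hx3]
            ring
          rw [h6, hx3]
          linear_combination (b ^ 2 - (q : ℂ)) ^ 2 * hx2
        have key2 : x ^ 6 - (q * (c : ℂ) ^ 3 - 3 * q * b) * x ^ 3 + (q : ℂ) ^ 3 = 0 := by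
          rw [← hq3]
          exact key
        linear_combination key2
  · -- the supersingular case
    exfalso
    apply hns
    push Not at hkf
    have hdvd : (q : ℤ) ∣ b ^ 2 := by
      rw [hqpZ, hbk, mul_pow, ← pow_mul]
      apply Dvd.dvd.mul_right
      apply pow_dvd_pow
      omega
    obtain ⟨d, hd⟩ := hdvd
    have hbd : (b : ℂ) ^ 2 = q * d := by exact_mod_cast hd
    have hnx : ‖x‖ ^ 2 = q := hW.2 x rfl
    have hu : ‖x ^ 2 / q‖ = 1 := by
      rw [norm_div, norm_pow, hnx, Complex.norm_natCast]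
      exact div_self (by exact_mod_cast hq)
    have hsum : x ^ 2 / q + (x ^ 2 / q)⁻¹ = ((d - 2 : ℤ) : ℂ) := by
      have hx2 : x ^ 2 = b * x - q := by linear_combination hb
      have h1 : x ^ 4 + (q : ℂ) ^ 2 = q * (d - 2) * x ^ 2 := by
        have h2 : (x ^ 2 + q) ^ 2 = q * d * x ^ 2 := by
          rw [← hbd]
          rw [show x ^ 2 + q = b * x by linear_combination hb]
          ring
        linear_combination h2
      push_cast
      rw [inv_div]
      field_simp
      linear_combination h1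
    have h12 := pow_twelve hu hsum
    refine ⟨12, by norm_num, ?_⟩
    have h1 : (x ^ 2) ^ 12 = (q : ℂ) ^ 12 := by
      rw [div_pow, div_eq_one_iff_eq (pow_ne_zero _ hqC)] at h12
      exact h12
    rw [pow_mul]
    exact h1

end Pool.Agent.Lib.MP_950c68_ag.Five
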