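import Mathlib
import Pool.Agent.Lib.MP_950c68_ag.Five.Defs
import Pool.Agent.Lib.MP_950c68_ag.Dim3Proof

namespace Pool.Agent.Lib.MP_950c68_ag.Five

open Polynomial MulAction Pool.Agent.Lib.MP_950c68_ag.Orb Pool.Agent.Lib.MP_950c68_ag.Dim3

variable {p : ℕ} [Fact p.Prime] {q f : ℕ}

omit [Fact p.Prime] in
/-- The minimal polynomial of a Weil number of degree two. -/
private theorem minpoly_two (hq : q ≠ 0) {x : ℂ} (hW : IsWeil q x) (hns : ¬ Supersingular q x)
    (hdeg : (minpoly ℚ x).natDegree = 2) :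
    ∃ b : ℤ, x + q / x = b ∧ minpoly ℚ x = X ^ 2 - C (b : ℚ) * X + C (q : ℚ) := by
  have hx0 := hW.ne_zero hq
  have hint : IsIntegral ℚ x := hW.1.tower_top
  have hne : (q : ℂ) / x ≠ x := by
    intro h
    rw [div_eq_iff hx0] at h
    exact hns ⟨1, one_ne_zero, by rw [mul_one, pow_one, sq, h]⟩
  set P := minpoly ℚ x with hP
  have hmon : P.Monic := minpoly.monic hint
  have hP2 : P = X ^ 2 + C (P.coeff 1) * X + C (P.coeff 0) := by
    have h2 : P.coeff 2 = 1 := by rw [← hdeg]; exact hmon.coeff_natDegree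
    have h3 := P.as_sum_range_C_mul_X_pow
    rw [hdeg, Finset.sum_range_succ, Finset.sum_range_succ, Finset.sum_range_one, h2] at h3
    rw [h3]
    simp
    ring
  have hy := hW.isConjRoot hq
  have e1 : x ^ 2 + (P.coeff 1 : ℂ) * x + (P.coeff 0 : ℂ) = 0 := by
    have h1 : aeval x P = 0 := minpoly.aeval ℚ x
    rw [hP2, map_add, map_add, map_mul, map_pow, aeval_X, aeval_C, aeval_C] at h1
    simpa using h1
  have e2 : (q / x : ℂ) ^ 2 + (P.coeff 1 : ℂ) * (q / x) + (P.coeff 0 : ℂ) = 0 := by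
    have h1 : aeval ((q : ℂ) / x) P = 0 := by
      rw [hP, hy]
      exact minpoly.aeval ℚ _
    rw [hP2, map_add, map_add, map_mul, map_pow, aeval_X, aeval_C, aeval_C] at h1
    simpa using h1
  have e3 : x + q / x = - (P.coeff 1 : ℂ) := by
    have h1 : (q / x - x) * (x + q / x + (P.coeff 1 : ℂ)) = 0 := by linear_combination e2 - e1
    rcases mul_eq_zero.mp h1 with h | h
    · exact absurd (sub_eq_zero.mp h) hne
    · linear_combination h
  have e4 : (P.coeff 0 : ℂ) = q := by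
    have h1 : x * (q / x) = q := mul_div_cancel₀ _ hx0
    linear_combination e1 - x * e3 + h1
  have hbint : IsIntegral ℤ (-(P.coeff 1) : ℚ) := by
    have h1 : IsIntegral ℤ (x + q / x) := hW.1.add (hW.div hq).1
    rw [e3] at h1
    have h2 : algebraMap ℚ ℂ (-(P.coeff 1) : ℚ) = - (P.coeff 1 : ℂ) := by simp
    rw [← h2] at h1
    exact (isIntegral_algebraMap_iff (algebraMap ℚ ℂ).injective).mp h1
  obtain ⟨b, hb⟩ := IsIntegrallyClosed.isIntegral_iff.mp hbint
  have hb' : (b : ℚ) = -(P.coeff 1) := by simpa using hb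
  refine ⟨b, ?_, ?_⟩
  · rw [e3]
    have h1 : ((b : ℚ) : ℂ) = ((-(P.coeff 1) : ℚ) : ℂ) := by rw [hb']
    push_cast at h1
    exact h1.symm
  · have h0 : P.coeff 0 = (q : ℚ) := by exact_mod_cast e4
    rw [hb', ← h0, map_neg, neg_mul, sub_neg_eq_add]
    exact hP2

/-- The norm of a root in `ℚ_p`. -/
private theorem norm_cases (hqp : q = p ^ f) (hf : f ≠ 0) {a : ℤ} (ha : ¬ (p : ℤ) ∣ a)
    {γ : ℚ_[p]} (hγ : γ ^ 2 - a * γ + q = 0) : ‖γ‖ = 1 ∨ ‖γ‖ = (q : ℝ)⁻¹ := by
  have hp : p.Prime := Fact.out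
  have hq0 : (q : ℚ_[p]) ≠ 0 := by
    have : q ≠ 0 := by rw [hqp]; exact pow_ne_zero _ hp.ne_zero
    exact_mod_cast this
  have hγ0 : γ ≠ 0 := by
    rintro rfl
    apply hq0
    linear_combination hγ
  have hqn : ‖(q : ℚ_[p])‖ = (q : ℝ)⁻¹ := by
    rw [hqp, Nat.cast_pow, norm_pow, Padic.norm_p]
    push_cast
    rw [inv_pow]
  have hq1 : (q : ℝ)⁻¹ < 1 := by
    apply inv_lt_one_of_one_lt₀
    rw [hqp]
    push_cast
    exact one_lt_pow₀ (by exact_mod_cast hp.one_lt) hf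
  have han : ‖(a : ℚ_[p])‖ = 1 := by
    refine le_antisymm (Padic.norm_int_le_one a) ?_
    by_contra hcon
    push Not at hcon
    exact ha ((PadicInt.norm_int_lt_one_iff_dvd a).mp hcon)
  have hsum : γ + q / γ = a := by
    field_simp
    linear_combination hγ
  have hprod : ‖γ‖ * ‖(q : ℚ_[p]) / γ‖ = (q : ℝ)⁻¹ := by
    rw [← norm_mul, mul_div_cancel₀ _ hγ0, hqn]
  have hnn : 0 < ‖γ‖ := norm_pos_iff.mpr hγ0
  rcases lt_trichotomy ‖γ‖ 1 with h | h | h
  · right
    rcases lt_trichotomy ‖(q : ℚ_[p]) / γ‖ 1 with h' | h' | h'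
    · exfalso
      have h1 := Padic.nonarchimedean γ (q / γ)
      rw [hsum, han] at h1
      have h2 : max ‖γ‖ ‖(q : ℚ_[p]) / γ‖ < 1 := max_lt h h'
      linarith
    · rw [h', mul_one] at hprod
      exact hprod
    · exfalso
      have h1 := Padic.add_eq_max_of_ne (q := γ) (r := (q : ℚ_[p]) / γ) (by linarith [h, h'] : ‖γ‖ ≠ ‖(q : ℚ_[p]) / γ‖)
      rw [hsum, han, max_eq_right (by linarith)] at h1
      linarith
  · left; exact h
  · exfalso
    have h' : ‖(q : ℚ_[p]) / γ‖ < 1 := by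
      by_contra hcon
      push Not at hcon
      nlinarith
    have h1 := Padic.add_eq_max_of_ne (q := γ) (r := (q : ℚ_[p]) / γ) (by linarith : ‖γ‖ ≠ ‖(q : ℚ_[p]) / γ‖)
    rw [hsum, han, max_eq_left (by linarith)] at h1
    linarith

/-- A2 -/
theorem Cubic.hondaTate (hqp : q = p ^ f) (hf : f ≠ 0) {x : ℂ} (hW : IsWeil q x) (hns : ¬ Supersingular q x)
    (hx : Cubic p q x) : HondaTate p q 3 x := by
  have hp : p.Prime := Fact.out
  have hq : q ≠ 0 := by rw [hqp]; exact pow_ne_zero _ hp.ne_zero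
  have hx0 := hW.ne_zero hq
  have hqC : (q : ℂ) ≠ 0 := by exact_mod_cast hq
  have hqQ : (q : ℚ_[p]) ≠ 0 := by exact_mod_cast hq
  have hqn : ‖(q : ℚ_[p])‖ = (q : ℝ)⁻¹ := by
    rw [hqp, Nat.cast_pow, norm_pow, Padic.norm_p]
    push_cast
    rw [inv_pow]
  obtain ⟨hdeg, w, ⟨a, ha, hwa⟩, hxw⟩ := hx
  obtain ⟨b, hb, hmin⟩ := minpoly_two hq hW hns hdeg
  have hw0 : w ≠ 0 := by
    rintro rfl
    rw [mul_zero] at hxw
    exact hx0 (pow_eq_zero_iff (three_ne_zero) |>.mp hxw)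
  have hab : (q : ℤ) * a = b ^ 3 - 3 * q * b := by
    have h1 : w + q / w = a := by
      field_simp
      linear_combination hwa
    have h2 : (q / x : ℂ) ^ 3 = q * (q / w) := by
      rw [div_pow, hxw]
      field_simp
    have h3 : x * (q / x) = q := mul_div_cancel₀ _ hx0
    have h4 : ((q : ℂ)) * a = b ^ 3 - 3 * q * b := by
      rw [← h1, ← hb]
      linear_combination - hxw - h2 - 3 * (x + q / x) * h3
    exact_mod_cast h4
  intro h hmon hdvd
  have hmap : (minpoly ℚ x).map (algebraMap ℚ ℚ_[p]) = X ^ 2 - C (b : ℚ_[p]) * X + C (q : ℚ_[p]) := by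
    rw [hmin]
    simp
  rw [hmap] at hdvd
  have hPdeg : (X ^ 2 - C (b : ℚ_[p]) * X + C (q : ℚ_[p]) : ℚ_[p][X]).natDegree = 2 := by
    compute_degree!
  have hPmon : (X ^ 2 - C (b : ℚ_[p]) * X + C (q : ℚ_[p]) : ℚ_[p][X]).Monic := by monicity!
  have hle := natDegree_le_of_dvd hdvd hPmon.ne_zero
  rw [hPdeg] at hle
  rcases Nat.lt_or_ge h.natDegree 1 with h0 | h1
  · have h2 : h = 1 := (Polynomial.Monic.natDegree_eq_zero hmon).mp (by omega)
    refine ⟨0, ?_⟩
    rw [h2]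
    simp
  rcases Nat.lt_or_ge h.natDegree 2 with h2 | h2
  · have h3 : h.natDegree = 1 := by omega
    have h4 : h = X + C (h.coeff 0) := by
      have h5 : h.coeff 1 = 1 := by rw [← h3]; exact hmon.coeff_natDegree
      have h6 := h.as_sum_range_C_mul_X_pow
      rw [h3, Finset.sum_range_succ, Finset.sum_range_one, h5] at h6
      rw [h6]
      simp
      ring
    set β : ℚ_[p] := - h.coeff 0 with hβ
    have hroot : β ^ 2 - b * β + q = 0 := by
      obtain ⟨S, hS⟩ := hdvd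
      have h7 := congrArg (eval β) hS
      have h8 : eval β h = 0 := by
        rw [h4, eval_add, eval_X, eval_C, hβ]
        ring
      rw [eval_mul, h8, zero_mul] at h7
      simpa using h7
    have hβ0 : β ≠ 0 := by
      intro h9
      rw [h9] at hroot
      apply hqQ
      linear_combination hroot
    have hev : ‖h.eval 0‖ = ‖β‖ := by
      rw [h4, eval_add, eval_X, eval_C, zero_add, hβ, norm_neg]
    have habQ : (q : ℚ_[p]) * a = b ^ 3 - 3 * q * b := by exact_mod_cast congrArg (fun z : ℤ => (z : ℚ_[p])) hab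
    have hγ : (β ^ 3 / q) ^ 2 - a * (β ^ 3 / q) + q = 0 := by
      have h9 : (β ^ 3 / q) ^ 2 - a * (β ^ 3 / q) + (q : ℚ_[p]) =
        (β ^ 6 - (q * a) * β ^ 3 + q ^ 3) / q ^ 2 := by
        field_simp
      rw [h9, habQ]
      have h10 : β ^ 6 - (b ^ 3 - 3 * q * b) * β ^ 3 + (q : ℚ_[p]) ^ 3 =
        (β ^ 2 - b * β + q) * ((β ^ 2 + q) ^ 2 + (β ^ 2 + q) * (b * β) + (b * β) ^ 2 - 3 * q * β ^ 2) := by
        ring
      rw [h10, hroot, zero_mul, zero_div]
    have hn := norm_cases hqp hf ha hγ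
    have hn2 : ‖β ^ 3 / (q : ℚ_[p])‖ = ‖β‖ ^ 3 * q := by
      rw [norm_div, norm_pow, hqn, div_inv_eq_mul]
    have hqR : (q : ℝ) ≠ 0 := by exact_mod_cast hq
    rw [hev]
    rcases hn with hn | hn
    · refine ⟨-1, ?_⟩
      rw [hn2] at hn
      rw [zpow_neg, zpow_one]
      field_simp
      exact hn
    · refine ⟨-2, ?_⟩
      rw [hn2] at hn
      rw [zpow_neg]
      have h11 : (q : ℝ) ^ (2 : ℤ) = q ^ 2 := by norm_cast
      rw [h11]
      field_simp at hn ⊢
      linear_combination hn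
  · have h3 : X ^ 2 - C (b : ℚ_[p]) * X + C (q : ℚ_[p]) = h :=
      (eq_of_monic_of_dvd_of_natDegree_le hmon hPmon hdvd (by rw [hPdeg]; exact h2))
    refine ⟨-3, ?_⟩
    rw [← h3]
    simp only [eval_add, eval_sub, eval_pow, eval_mul, eval_X, eval_C]
    rw [zpow_neg]
    have h11 : (q : ℝ) ^ (3 : ℤ) = q ^ 3 := by norm_cast
    rw [h11, ← inv_pow, ← hqn]
    congr 2
    ring

end Pool.Agent.Lib.MP_950c68_ag.Five
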