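import Mathlib
import Pool.Agent.Lib.MP_950c68_ag.Five.Defs
import Pool.Agent.Lib.MP_950c68_ag.Dim3Proof
import Pool.Agent.Lib.MP_950c68_ag.Five.A2

namespace Pool.Agent.Lib.MP_950c68_ag.Five

open Polynomial MulAction Pool.Agent.Lib.MP_950c68_ag.Orb Pool.Agent.Lib.MP_950c68_ag.Dim3

variable {p : ℕ} [Fact p.Prime] {q f : ℕ}

/-- A half system has half as many elements as there are conjugates. -/
private theorem card_half (hq : q ≠ 0) {x : ℂ} {Φ : Finset ℂ} (hW : IsWeil q x)
    (hΦ : HalfSystem q x Φ) : 2 * Φ.card = (minpoly ℚ x).natDegree := by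
  classical
  have hint : IsIntegral ℚ x := hW.1.tower_top
  have hqC : (q : ℂ) ≠ 0 := by exact_mod_cast hq
  have hsep : (minpoly ℚ x).Separable := (minpoly.irreducible hint).separable
  have hP0 := minpoly.ne_zero hint
  have hcard : Fintype.card ((minpoly ℚ x).rootSet ℂ) = (minpoly ℚ x).natDegree :=
    card_rootSet_eq_natDegree hsep (IsAlgClosed.splits _)
  have hD : ((minpoly ℚ x).rootSet ℂ).toFinset = Φ ∪ Φ.image (fun z => (q : ℂ) / z) := by
    ext z
    rw [Set.mem_toFinset, mem_rootSet, Finset.mem_union, Finset.mem_image]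
    constructor
    · rintro ⟨-, hz⟩
      have hc : IsConjRoot ℚ x z := (isConjRoot_iff_aeval_eq_zero hint).mpr hz
      by_cases h : z ∈ Φ
      · exact Or.inl h
      · right
        refine ⟨(q : ℂ) / z, ?_, div_div_cancel₀ hqC⟩
        by_contra hcon
        exact h ((hΦ.2.1 z hc).mpr hcon)
    · rintro (h | ⟨z', hz', rfl⟩)
      · exact ⟨hP0, (isConjRoot_iff_aeval_eq_zero hint).mp (hΦ.1 z h)⟩
      · refine ⟨hP0, (isConjRoot_iff_aeval_eq_zero hint).mp ?_⟩
        have hc := hΦ.1 z' hz'
        exact hc.trans ((hW.of_isConjRoot hc).isConjRoot hq)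
  have hdisj : Disjoint Φ (Φ.image (fun z => (q : ℂ) / z)) := by
    rw [Finset.disjoint_left]
    intro z hz hz'
    rw [Finset.mem_image] at hz'
    obtain ⟨z', hz', rfl⟩ := hz'
    exact (hΦ.2.1 z' (hΦ.1 z' hz')).mp hz' hz
  rw [← Set.toFinset_card, hD, Finset.card_union_of_disjoint hdisj, Finset.card_image_of_injOn] at hcard
  · omega
  · intro a _ b _ hab
    have h1 : (q : ℂ) / (q / a) = q / (q / b) := by rw [show (q : ℂ) / a = q / b from hab]
    rwa [div_div_cancel₀ hqC, div_div_cancel₀ hqC] at h1

/-- A3: the generated multisets of the theorem on dimension three. -/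
theorem gen_of_dim3 (hqp : q = p ^ f) (hf : f ≠ 0) {s : Multiset ℂ} (hs : Dim3.Gen p q s) : Gen p q s := by
  have hp : p.Prime := Fact.out
  have hq : q ≠ 0 := by rw [hqp]; exact pow_ne_zero _ hp.ne_zero
  have hqC : (q : ℂ) ≠ 0 := by exact_mod_cast hq
  induction hs with
  | one α β h => exact Gen.one α β h
  | weil x w Φ hW hS hΦ hw hprod =>
    have hcard : Φ.card = 3 := by
      have h1 := card_half hq hW hΦ
      rw [hS.1] at h1
      omega
    have hPn : ‖∏ z ∈ Φ, z‖ ^ 2 = (q : ℝ) ^ 3 := by
      rw [norm_prod, ← Finset.prod_pow, Finset.prod_congr rfl fun z hz => hW.2 z (hΦ.1 z hz),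
        Finset.prod_const, hcard]
    have hwn : ‖w‖ ^ 2 = q := by
      have h1 : ‖w‖ ^ 2 * (q : ℝ) ^ 3 = q ^ 4 := by
        rw [← hPn, ← mul_pow, ← norm_mul, hprod, norm_pow, Complex.norm_natCast]
        ring
      have hqR : (q : ℝ) ≠ 0 := by exact_mod_cast hq
      have h2 : ‖w‖ ^ 2 * (q : ℝ) ^ 3 = q * (q : ℝ) ^ 3 := by rw [h1]; ring
      exact mul_right_cancel₀ (pow_ne_zero 3 hqR) h2
    have hwW : IsWeil q w := isWeil_of_small hq hwn hw
    have hΦp : Φ.val.prod = ∏ z ∈ Φ, z := by
      rw [Finset.prod_eq_multiset_prod, Multiset.map_id']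
    have he : w ::ₘ Φ.val = 1 • Φ.val + Multiset.replicate 1 w := by
      rw [one_smul, Multiset.replicate_one, add_comm, Multiset.singleton_add]
    rw [he]
    refine Gen.weil x w Φ 1 1 hW hS.2.1 ?_ hΦ hw (Or.inl (by rw [hcard])) ?_
    · intro h hmon hdvd
      rw [pow_one]
      exact hS.2.2 h hmon hdvd
    · rw [← he]
      refine ⟨?_, 2, 1, ?_, one_pos, ?_⟩
      · intro α hα
        rw [Multiset.mem_cons] at hα
        rcases hα with rfl | hα
        · exact hwW
        · exact hW.of_isConjRoot (hΦ.1 α hα)
      · rw [Multiset.card_cons]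
        change Φ.card + 1 = 2 * 2
        rw [hcard]
      · rw [Multiset.prod_cons, hΦp, hprod]
        ring
  | cubic x w hx hw hC hO hT =>
    by_cases hns : Supersingular q x
    · have hwS : Supersingular q w := by
        obtain ⟨m, hm, hxm⟩ := hns
        obtain ⟨-, j, n, hc, hn, hpr⟩ := hT
        have hj : j = 2 := by
          have : Multiset.card ({x, x, x, w} : Multiset ℂ) = 4 := by simp
          omega
        subst hj
        have h1 : ({x, x, x, w} : Multiset ℂ).prod = x ^ 3 * w := by
          simp
          ring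
        rw [h1] at hpr
        refine ⟨m * n, mul_ne_zero hm hn.ne', ?_⟩
        have h2 : x ^ (6 * m * n) = (q : ℂ) ^ (3 * m * n) := by
          calc x ^ (6 * m * n) = (x ^ (2 * m)) ^ (3 * n) := by rw [← pow_mul]; ring_nf
            _ = _ := by rw [hxm, ← pow_mul]; ring_nf
        have h3 : x ^ (6 * m * n) * w ^ (2 * (m * n)) = (q : ℂ) ^ (4 * m * n) := by
          calc x ^ (6 * m * n) * w ^ (2 * (m * n)) = ((x ^ 3 * w) ^ n) ^ (2 * m) := by
                rw [← pow_mul, mul_pow, ← pow_mul]; ring_nf
            _ = _ := by rw [hpr, ← pow_mul]; ring_nf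
        rw [h2] at h3
        apply mul_left_cancel₀ (pow_ne_zero (3 * m * n) hqC)
        rw [h3, ← pow_add]
        congr 1
        ring
      have he : ({x, x, x, w} : Multiset ℂ) = {x, x} + {x, w} := by
        simp [Multiset.insert_eq_cons]
      rw [he]
      exact (Gen.one x x (isTate_supersingular hx hx hns hns)).add _ _
        (Gen.one x w (isTate_supersingular hx hw hns hwS))
    · have hx0 := hx.ne_zero hq
      have hne : (q : ℂ) / x ≠ x := by
        intro h
        rw [div_eq_iff hx0] at h
        exact hns ⟨1, one_ne_zero, by rw [mul_one, pow_one, sq, h]⟩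
      have hint : IsIntegral ℚ x := hx.1.tower_top
      have hcj : ∀ y : ℂ, IsConjRoot ℚ x y → y = x ∨ y = q / x := by
        intro y hy
        obtain ⟨hdeg, -⟩ := hC
        have hsep : (minpoly ℚ x).Separable := (minpoly.irreducible hint).separable
        have hP0 := minpoly.ne_zero hint
        have hcard : Fintype.card ((minpoly ℚ x).rootSet ℂ) = 2 := by
          rw [← hdeg]
          exact card_rootSet_eq_natDegree hsep (IsAlgClosed.splits _)
        by_contra hcon
        push Not at hcon
        have hsub : ({x, (q : ℂ) / x, y} : Finset ℂ) ⊆ ((minpoly ℚ x).rootSet ℂ).toFinset := by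
          intro z hz
          rw [Set.mem_toFinset, mem_rootSet]
          refine ⟨hP0, (isConjRoot_iff_aeval_eq_zero hint).mp ?_⟩
          simp only [Finset.mem_insert, Finset.mem_singleton] at hz
          rcases hz with rfl | rfl | rfl
          · exact rfl
          · exact hx.isConjRoot hq
          · exact hy
        have h1 := Finset.card_le_card hsub
        rw [Set.toFinset_card, hcard, Finset.card_insert_of_notMem, Finset.card_insert_of_notMem,
          Finset.card_singleton] at h1
        · omega
        · rw [Finset.mem_singleton]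
          exact fun h => hcon.2 h.symm
        · rw [Finset.mem_insert, Finset.mem_singleton]
          rintro (h | h)
          · exact hne h.symm
          · exact hcon.1 h.symm
      have he : ({x, x, x, w} : Multiset ℂ) = 3 • ({x} : Finset ℂ).val + Multiset.replicate 1 w := by
        rw [Finset.singleton_val, Multiset.nsmul_singleton, Multiset.replicate_one]
        rfl
      have hT' := hT
      rw [he] at hT ⊢
      refine Gen.weil x w {x} 3 1 hx ?_ (Cubic.hondaTate hqp hf hx hns hC) ⟨?_, ?_, ?_⟩ (Or.inl hO)
        (Or.inl (by simp)) hT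
      · intro y hy hyx n hn hpow
        have h1 : y = q / x := (hcj y hy).resolve_left hyx
        apply hns
        refine ⟨n, hn, ?_⟩
        rw [h1, div_pow, div_eq_iff (pow_ne_zero _ hx0)] at hpow
        rw [two_mul, pow_add, hpow]
      · intro z hz
        rw [Finset.mem_singleton] at hz
        rw [hz]
      · intro z hz
        rw [Finset.mem_singleton, Finset.mem_singleton]
        rcases hcj z hz with h | h
        · rw [h]
          exact ⟨fun _ => hne, fun _ => rfl⟩
        · rw [h, div_div_cancel₀ hqC]
          exact ⟨fun h => absurd h hne, fun h => absurd rfl h⟩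
      · intro σ
        by_cases h : σ x = x
        · left
          intro z hz
          rw [Finset.mem_singleton] at hz ⊢
          rw [hz, h]
        · right
          intro z hz
          rw [Finset.mem_singleton] at hz ⊢
          rw [hz]
          exact h
  | add s t _ _ ihs iht => exact ihs.add _ _ iht
  | cancel α s hα hs0 _ ih => exact Gen.cancel α s hα hs0 ih

end Pool.Agent.Lib.MP_950c68_ag.Five
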