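import Mathlib
import Pool.Agent.Lib.MP_950c68_ag.Five.Defs
import Pool.Agent.Lib.MP_950c68_ag.Dim3Proof

namespace Pool.Agent.Lib.MP_950c68_ag.Five

open Polynomial MulAction Pool.Agent.Lib.MP_950c68_ag.Orb Pool.Agent.Lib.MP_950c68_ag.Dim3

variable {p : ℕ} [Fact p.Prime] {q f : ℕ}

theorem G0.add {s t : Multiset ℂ} (hs : G0 p q s) (ht : G0 p q t) : G0 p q (s + t) := by
  rcases hs with rfl | hs
  · rwa [zero_add]
  · rcases ht with rfl | ht
    · rw [add_zero]; exact Or.inr hs
    · exact Or.inr (hs.add _ _ ht)

theorem G0.cancel {α : ℂ} {s : Multiset ℂ} (hα : IsWeil q α)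
    (h : G0 p q ({α, (q : ℂ) / α} + s)) : G0 p q s := by
  by_cases hs : s = 0
  · exact Or.inl hs
  · rcases h with h | h
    · exfalso
      have := congrArg Multiset.card h
      simp at this
    · exact Or.inr (Gen.cancel α s hα hs h)

omit [Fact p.Prime] in
private theorem exists_split {z w : ℂ} (hzw : z ≠ w) {s : Multiset ℂ} (hz : z ∈ s) (hw : w ∈ s) :
    ∃ t, s = {z, w} + t := by
  obtain ⟨u, rfl⟩ := Multiset.exists_cons_of_mem hz
  rw [Multiset.mem_cons] at hw
  rcases hw with h | h
  · exact absurd h.symm hzw
  · obtain ⟨t, rfl⟩ := Multiset.exists_cons_of_mem h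
    exact ⟨t, by simp [Multiset.insert_eq_cons, ← Multiset.singleton_add, add_assoc]⟩

omit [Fact p.Prime] in
private theorem pair_ne (hq : q ≠ 0) {z : ℂ} (hW : IsWeil q z) (hns : ¬ Supersingular q z) :
    z ≠ (q : ℂ) / z := by
  intro h
  apply hns
  refine ⟨1, one_ne_zero, ?_⟩
  have h0 := hW.ne_zero hq
  rw [mul_one, pow_one]
  have h1 : z * z = q := by
    nth_rewrite 1 [h]
    exact div_mul_cancel₀ _ h0
  rw [pow_two, h1]

omit [Fact p.Prime] in
/-- the pair decomposition of a symmetric multiset -/
private theorem symm_of_pair (hq : q ≠ 0) {z : ℂ} (hW : IsWeil q z)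
    {t : Multiset ℂ} (hWt : ∀ y ∈ t, IsWeil q y)
    (hsymm : ∀ y ∈ ({z, (q : ℂ) / z} + t : Multiset ℂ), ¬ Supersingular q y →
      ({z, (q : ℂ) / z} + t : Multiset ℂ).count (q / y) =
        ({z, (q : ℂ) / z} + t : Multiset ℂ).count y) :
    ∀ y ∈ t, ¬ Supersingular q y → t.count (q / y) = t.count y := by
  intro y hy hns
  have hq' : (q : ℂ) ≠ 0 := by exact_mod_cast hq
  have h1 := hsymm y (Multiset.mem_add.2 (Or.inr hy)) hns
  rw [Multiset.count_add, Multiset.count_add] at h1
  have hy0 := (hWt y hy).ne_zero hq
  have hz0 := hW.ne_zero hq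
  have hinv : ∀ a : ℂ, a ≠ 0 → (q : ℂ) / (q / a) = a := by
    intro a ha
    field_simp
  have h2 : ({z, (q : ℂ) / z} : Multiset ℂ).count (q / y) =
      ({z, (q : ℂ) / z} : Multiset ℂ).count y := by
    simp only [Multiset.insert_eq_cons, Multiset.count_cons, Multiset.count_singleton]
    have e1 : ((q : ℂ) / y = q / z) ↔ y = z := by
      constructor
      · intro h
        rw [← hinv y hy0, h, hinv z hz0]
      · intro h
        rw [h]
    have e2 : ((q : ℂ) / y = z) ↔ y = q / z := by
      constructor
      · intro h
        rw [← h, hinv y hy0]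
      · intro h
        rw [h, hinv z hz0]
    simp only [e1, e2]
    exact add_comm _ _
  omega

/-- A4: symmetric Tate multisets. -/
theorem G0.of_symm (hq : q ≠ 0) {s : Multiset ℂ} (hT : IsTate q s)
    (hsymm : ∀ z ∈ s, ¬ Supersingular q z → s.count (q / z) = s.count z) : G0 p q s := by
  classical
  induction hn : Multiset.card s using Nat.strong_induction_on generalizing s with
  | _ n ih =>
    by_cases hex : ∃ z ∈ s, ¬ Supersingular q z
    · obtain ⟨z, hz, hns⟩ := hex
      have hW := hT.1 z hz
      have hzq := pair_ne hq hW hns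
      have hz' : (q : ℂ) / z ∈ s := by
        rw [← Multiset.count_pos, hsymm z hz hns, Multiset.count_pos]
        exact hz
      obtain ⟨t, rfl⟩ := exists_split hzq hz hz'
      have hpair := isTate_pair hq hW
      have hTt : IsTate q t := IsTate.of_add hq (by rw [add_comm]; exact hT) hpair
      have hst := symm_of_pair hq hW hTt.1 hsymm
      refine G0.add (Or.inr (Gen.one _ _ hpair)) (ih _ ?_ hTt hst rfl)
      rw [← hn, Multiset.card_add]
      simp
    · push Not at hex
      by_cases h0 : s = 0
      · exact Or.inl h0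
      · obtain ⟨a, ha⟩ := Multiset.exists_mem_of_ne_zero h0
        obtain ⟨u, rfl⟩ := Multiset.exists_cons_of_mem ha
        obtain ⟨j, m, hj, -, -⟩ := hT.2
        rw [Multiset.card_cons] at hj
        have hu : u ≠ 0 := by
          rintro rfl
          rw [Multiset.card_zero] at hj
          omega
        obtain ⟨b, hb⟩ := Multiset.exists_mem_of_ne_zero hu
        obtain ⟨t, rfl⟩ := Multiset.exists_cons_of_mem hb
        have e : a ::ₘ b ::ₘ t = {a, b} + t := by
          simp [Multiset.insert_eq_cons, ← Multiset.singleton_add, add_assoc]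
        have ha' : a ∈ a ::ₘ b ::ₘ t := Multiset.mem_cons_self _ _
        have hb' : b ∈ a ::ₘ b ::ₘ t := Multiset.mem_cons_of_mem (Multiset.mem_cons_self _ _)
        have hpair : IsTate q {a, b} := isTate_supersingular (hT.1 a ha') (hT.1 b hb')
          (hex a ha') (hex b hb')
        have hTt : IsTate q t := by
          apply IsTate.of_add hq _ hpair
          rw [add_comm, ← e]
          exact hT
        have hst : ∀ y ∈ t, ¬ Supersingular q y → t.count (q / y) = t.count y := by
          intro y hy hns
          exact absurd (hex y (Multiset.mem_cons_of_mem (Multiset.mem_cons_of_mem hy))) hns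
        rw [e]
        refine G0.add (Or.inr (Gen.one _ _ hpair)) (ih _ ?_ hTt hst rfl)
        rw [← hn]
        simp

omit [Fact p.Prime] in
/-- Symmetric multisets of even cardinality are Tate multisets. -/
theorem isTate_of_symm (hq : q ≠ 0) {s : Multiset ℂ} (hW : ∀ z ∈ s, IsWeil q z)
    (heven : Even (Multiset.card s))
    (hsymm : ∀ z ∈ s, ¬ Supersingular q z → s.count (q / z) = s.count z) : IsTate q s := by
  classical
  induction hn : Multiset.card s using Nat.strong_induction_on generalizing s with
  | _ n ih =>
    by_cases hex : ∃ z ∈ s, ¬ Supersingular q z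
    · obtain ⟨z, hz, hns⟩ := hex
      have hWz := hW z hz
      have hzq := pair_ne hq hWz hns
      have hz' : (q : ℂ) / z ∈ s := by
        rw [← Multiset.count_pos, hsymm z hz hns, Multiset.count_pos]
        exact hz
      obtain ⟨t, rfl⟩ := exists_split hzq hz hz'
      have hpair := isTate_pair hq hWz
      have hWt : ∀ y ∈ t, IsWeil q y := fun y hy => hW y (Multiset.mem_add.2 (Or.inr hy))
      have hst := symm_of_pair hq hWz hWt hsymm
      have hc : Multiset.card ({z, (q : ℂ) / z} + t : Multiset ℂ) = 2 + Multiset.card t := by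
        rw [Multiset.card_add]
        rfl
      refine IsTate.add hpair (ih _ ?_ hWt ?_ hst rfl)
      · rw [← hn, hc]
        omega
      · rw [hc] at heven
        exact (Nat.even_add.1 heven).1 even_two
    · push Not at hex
      by_cases h0 : s = 0
      · subst h0
        refine ⟨fun α hα => absurd hα (Multiset.notMem_zero α), 0, 1, rfl, one_pos, ?_⟩
        simp
      · obtain ⟨a, ha⟩ := Multiset.exists_mem_of_ne_zero h0
        obtain ⟨u, rfl⟩ := Multiset.exists_cons_of_mem ha
        have hu : u ≠ 0 := by
          rintro rfl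
          rw [Multiset.card_cons, Multiset.card_zero] at heven
          exact absurd heven (by decide)
        obtain ⟨b, hb⟩ := Multiset.exists_mem_of_ne_zero hu
        obtain ⟨t, rfl⟩ := Multiset.exists_cons_of_mem hb
        have e : a ::ₘ b ::ₘ t = {a, b} + t := by
          simp [Multiset.insert_eq_cons, ← Multiset.singleton_add, add_assoc]
        have ha' : a ∈ a ::ₘ b ::ₘ t := Multiset.mem_cons_self _ _
        have hb' : b ∈ a ::ₘ b ::ₘ t := Multiset.mem_cons_of_mem (Multiset.mem_cons_self _ _)
        have hpair : IsTate q {a, b} := isTate_supersingular (hW a ha') (hW b hb')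
          (hex a ha') (hex b hb')
        have hWt : ∀ y ∈ t, IsWeil q y := fun y hy =>
          hW y (Multiset.mem_cons_of_mem (Multiset.mem_cons_of_mem hy))
        have hst : ∀ y ∈ t, ¬ Supersingular q y → t.count (q / y) = t.count y := by
          intro y hy hns
          exact absurd (hex y (Multiset.mem_cons_of_mem (Multiset.mem_cons_of_mem hy))) hns
        have hc : Multiset.card (a ::ₘ b ::ₘ t) = 2 + Multiset.card t := by
          rw [Multiset.card_cons, Multiset.card_cons]
          omega
        rw [e]
        refine IsTate.add hpair (ih _ ?_ hWt ?_ hst rfl)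
        · rw [← hn, hc]
          omega
        · rw [hc] at heven
          exact (Nat.even_add.1 heven).1 even_two

end Pool.Agent.Lib.MP_950c68_ag.Five
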