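import Mathlib
import Pool.Agent.Lib.MP_950c68_ag.Five.Defs
import Pool.Agent.Lib.MP_950c68_ag.Dim3Proof

namespace Pool.Agent.Lib.MP_950c68_ag.Five

open Polynomial MulAction Pool.Agent.Lib.MP_950c68_ag.Orb Pool.Agent.Lib.MP_950c68_ag.Dim3

variable {p : ℕ} [Fact p.Prime] {q f : ℕ}

/-- A5: the degree of a Weil number which is not supersingular is even. -/
theorem exists_natDegree (hq : q ≠ 0) {x : ℂ} (hW : IsWeil q x) (hns : ¬ Supersingular q x) :
    ∃ d : ℕ, 0 < d ∧ (minpoly ℚ x).natDegree = 2 * d := by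
  classical
  have hint : IsIntegral ℚ x := hW.1.tower_top
  have hmem : ∀ z : ℂ, z ∈ (minpoly ℚ x).rootSet ℂ ↔ IsConjRoot ℚ x z := by
    intro z
    rw [mem_rootSet, isConjRoot_iff_aeval_eq_zero hint]
    exact ⟨fun h => h.2, fun h => ⟨minpoly.ne_zero hint, h⟩⟩
  have hcard : Fintype.card ((minpoly ℚ x).rootSet ℂ) = (minpoly ℚ x).natDegree :=
    card_rootSet_eq_natDegree (minpoly.irreducible hint).separable (IsAlgClosed.splits _)
  set S : Finset ℂ := ((minpoly ℚ x).rootSet ℂ).toFinset with hS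
  have hS' : ∀ z : ℂ, z ∈ S ↔ IsConjRoot ℚ x z := by
    intro z
    rw [hS, Set.mem_toFinset, hmem]
  have hcardS : S.card = (minpoly ℚ x).natDegree := by
    rw [hS, Set.toFinset_card, hcard]
  have heven : ((S.card : ℕ) : ZMod 2) = 0 := by
    have h1 : ∑ z ∈ S, (1 : ZMod 2) = 0 := by
      refine Finset.sum_involution (fun z _ => (q : ℂ) / z) ?_ ?_ ?_ ?_
      · intro z _
        decide
      · intro z hz _ heq
        have hz' := (hS' z).mp hz
        have hWz := hW.of_isConjRoot hz'
        have hz0 := hWz.ne_zero hq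
        have h2 : z ^ 2 = (q : ℂ) := by
          rw [div_eq_iff hz0] at heq
          rw [sq, ← heq]
        have h3 : aeval z (X ^ 2 - C (q : ℚ)) = 0 := by
          simp only [map_sub, map_pow, aeval_X, aeval_C, map_natCast, h2, sub_self]
        have h4 : minpoly ℚ x ∣ X ^ 2 - C (q : ℚ) := by
          rw [show minpoly ℚ x = minpoly ℚ z from hz']
          exact minpoly.dvd ℚ z h3
        have h5 : aeval x (X ^ 2 - C (q : ℚ)) = 0 := by
          obtain ⟨r, hr⟩ := h4
          rw [hr, map_mul, minpoly.aeval, zero_mul]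
        simp only [map_sub, map_pow, aeval_X, aeval_C, map_natCast] at h5
        exact hns ⟨1, one_ne_zero, by rw [mul_one, pow_one]; linear_combination h5⟩
      · intro z hz
        have hz' := (hS' z).mp hz
        exact (hS' _).mpr (hz'.trans ((hW.of_isConjRoot hz').isConjRoot hq))
      · intro z hz
        have hz' := (hS' z).mp hz
        have hz0 := (hW.of_isConjRoot hz').ne_zero hq
        have hq0 : (q : ℂ) ≠ 0 := Nat.cast_ne_zero.mpr hq
        change (q : ℂ) / ((q : ℂ) / z) = z
        field_simp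
    rw [← h1, Finset.sum_const, nsmul_eq_mul, mul_one]
  rw [ZMod.natCast_eq_zero_iff, hcardS] at heven
  obtain ⟨d, hd⟩ := heven
  refine ⟨d, ?_, hd⟩
  have h6 := minpoly.natDegree_pos hint
  omega

end Pool.Agent.Lib.MP_950c68_ag.Five
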