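import Mathlib
import Pool.Agent.Lib.MP_950c68_ag.Five.Defs
import Pool.Agent.Lib.MP_950c68_ag.Dim3Proof

namespace Pool.Agent.Lib.MP_950c68_ag.Five

open Polynomial MulAction Pool.Agent.Lib.MP_950c68_ag.Orb Pool.Agent.Lib.MP_950c68_ag.Dim3

variable {p : ℕ} [Fact p.Prime] {q f : ℕ}

/-- The set of the conjugates. -/
noncomputable def cj (x : ℂ) : Finset ℂ := ((minpoly ℚ x).rootSet_finite ℂ).toFinset

theorem mem_cj {x z : ℂ} (hx : IsIntegral ℚ x) : z ∈ cj x ↔ IsConjRoot ℚ x z := by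
  rw [cj, Set.Finite.mem_toFinset, mem_rootSet, isConjRoot_iff_aeval_eq_zero hx]
  exact ⟨fun h => h.2, fun h => ⟨minpoly.ne_zero hx, h⟩⟩

theorem card_cj {x : ℂ} (hx : IsIntegral ℚ x) : (cj x).card = (minpoly ℚ x).natDegree := by
  classical
  have hsep : (minpoly ℚ x).Separable := (minpoly.irreducible hx).separable
  rw [← card_rootSet_eq_natDegree (K := ℂ) hsep (IsAlgClosed.splits _), cj, ← Set.toFinset_card]
  congr 1
  ext z
  simp

theorem sum_cj {T : Multiset ℂ} (hT : AV p q T) {x : ℂ} (hx : x ∈ T) :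
    ∑ z ∈ cj x, T.count z = (minpoly ℚ x).natDegree * T.count x := by
  have hint : IsIntegral ℚ x := (hT.weil x hx).1.tower_top
  rw [Finset.sum_congr rfl fun z hz => hT.conj x hx z ((mem_cj hint).mp hz), Finset.sum_const,
    card_cj hint, smul_eq_mul]

theorem sum_le {T : Multiset ℂ} (S : Finset ℂ) : ∑ z ∈ S, T.count z ≤ Multiset.card T := by
  classical
  rw [← Multiset.sum_count_eq_card (s := S ∪ T.toFinset) (m := T)]
  · exact Finset.sum_le_sum_of_subset Finset.subset_union_left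
  · intro a ha
    exact Finset.mem_union_right _ (Multiset.mem_toFinset.mpr ha)

theorem disj_cj {T : Multiset ℂ} (hT : AV p q T) {x y : ℂ} (hx : x ∈ T)
    (hy : y ∈ T) (hxy : ¬ IsConjRoot ℚ x y) : Disjoint (cj x) (cj y) := by
  rw [Finset.disjoint_left]
  intro z hz hz'
  exact hxy (((mem_cj (hT.weil x hx).1.tower_top).mp hz).trans
    ((mem_cj (hT.weil y hy).1.tower_top).mp hz').symm)

/-- A6: the number of conjugates in a multiset. -/
theorem natDegree_mul_count_le {T : Multiset ℂ} (hT : AV p q T) {x : ℂ} (hx : x ∈ T) :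
    (minpoly ℚ x).natDegree * T.count x ≤ Multiset.card T := by
  rw [← sum_cj hT hx]
  exact sum_le _

/-- A6': two different conjugacy classes. -/
theorem natDegree_mul_count_add_le {T : Multiset ℂ} (hT : AV p q T) {x y : ℂ} (hx : x ∈ T)
    (hy : y ∈ T) (hxy : ¬ IsConjRoot ℚ x y) :
    (minpoly ℚ x).natDegree * T.count x + (minpoly ℚ y).natDegree * T.count y ≤
      Multiset.card T := by
  classical
  rw [← sum_cj hT hx, ← sum_cj hT hy, ← Finset.sum_union (disj_cj hT hx hy hxy)]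
  exact sum_le _

/-- A6'': three different conjugacy classes. -/
theorem natDegree_mul_count_add_add_le {T : Multiset ℂ} (hT : AV p q T) {x y z : ℂ} (hx : x ∈ T)
    (hy : y ∈ T) (hz : z ∈ T) (hxy : ¬ IsConjRoot ℚ x y) (hxz : ¬ IsConjRoot ℚ x z)
    (hyz : ¬ IsConjRoot ℚ y z) :
    (minpoly ℚ x).natDegree * T.count x + (minpoly ℚ y).natDegree * T.count y +
      (minpoly ℚ z).natDegree * T.count z ≤ Multiset.card T := by
  classical
  rw [← sum_cj hT hx, ← sum_cj hT hy, ← sum_cj hT hz, ← Finset.sum_union (disj_cj hT hx hy hxy),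
    ← Finset.sum_union]
  · exact sum_le _
  · rw [Finset.disjoint_union_left]
    exact ⟨disj_cj hT hx hz hxz, disj_cj hT hy hz hyz⟩

/-- Four different conjugacy classes. -/
theorem natDegree_mul_count_four_le {T : Multiset ℂ} (hT : AV p q T) {x y z w : ℂ} (hx : x ∈ T)
    (hy : y ∈ T) (hz : z ∈ T) (hw : w ∈ T) (hxy : ¬ IsConjRoot ℚ x y) (hxz : ¬ IsConjRoot ℚ x z)
    (hyz : ¬ IsConjRoot ℚ y z) (hxw : ¬ IsConjRoot ℚ x w) (hyw : ¬ IsConjRoot ℚ y w)
    (hzw : ¬ IsConjRoot ℚ z w) :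
    (minpoly ℚ x).natDegree * T.count x + (minpoly ℚ y).natDegree * T.count y +
      (minpoly ℚ z).natDegree * T.count z + (minpoly ℚ w).natDegree * T.count w ≤
      Multiset.card T := by
  classical
  rw [← sum_cj hT hx, ← sum_cj hT hy, ← sum_cj hT hz, ← sum_cj hT hw,
    ← Finset.sum_union (disj_cj hT hx hy hxy), ← Finset.sum_union, ← Finset.sum_union]
  · exact sum_le _
  · rw [Finset.disjoint_union_left, Finset.disjoint_union_left]
    exact ⟨⟨disj_cj hT hx hw hxw, disj_cj hT hy hw hyw⟩, disj_cj hT hz hw hzw⟩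
  · rw [Finset.disjoint_union_left]
    exact ⟨disj_cj hT hx hz hxz, disj_cj hT hy hz hyz⟩

end Pool.Agent.Lib.MP_950c68_ag.Five
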