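import Mathlib
import Pool.Agent.Lib.MP_950c68_ag.Five.Defs
import Pool.Agent.Lib.MP_950c68_ag.Dim3Proof

namespace Pool.Agent.Lib.MP_950c68_ag.Five

open Polynomial MulAction Pool.Agent.Lib.MP_950c68_ag.Orb Pool.Agent.Lib.MP_950c68_ag.Dim3

variable {p : ℕ} [Fact p.Prime] {q f : ℕ}

/-- A7: the converse of `adjoin_eq_of_kernel`. -/
theorem kernel_of_adjoin_eq {R : ℚ[X]} (hR0 : R ≠ 0) (x y : R.rootSet (LF R))
    (h : IntermediateField.adjoin ℚ {z : ℂ | IsConjRoot ℚ ((x : LF R) : ℂ) z} =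
      IntermediateField.adjoin ℚ {z : ℂ | IsConjRoot ℚ ((y : LF R) : ℂ) z}) :
    ∀ σ : LF R ≃ₐ[ℚ] LF R, (∀ z ∈ orbit (LF R ≃ₐ[ℚ] LF R) x, σ • z = z) →
      ∀ z ∈ orbit (LF R ≃ₐ[ℚ] LF R) y, σ • z = z := by
  intro σ hσ z hz
  have key : ∀ u ∈ IntermediateField.adjoin ℚ {z : ℂ | IsConjRoot ℚ ((x : LF R) : ℂ) z},
      ∃ v : LF R, (v : ℂ) = u ∧ σ v = v := by
    intro u hu
    induction hu using IntermediateField.adjoin_induction with
    | mem u hu =>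
      obtain ⟨w, rfl⟩ := exists_root hR0 (aeval_of_isConjRoot hu (aeval_root x))
      refine ⟨(w : LF R), rfl, ?_⟩
      exact congrArg Subtype.val (hσ w ((mem_orbit_iff_isConjRoot x w).mpr hu))
    | algebraMap r =>
      exact ⟨algebraMap ℚ (LF R) r, by simp, by simp⟩
    | add a b _ _ ha hb =>
      obtain ⟨v, hv, hv'⟩ := ha
      obtain ⟨w, hw, hw'⟩ := hb
      exact ⟨v + w, by simp [hv, hw], by rw [map_add, hv', hw']⟩
    | inv a _ ha =>
      obtain ⟨v, hv, hv'⟩ := ha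
      exact ⟨v⁻¹, by simp [hv], by rw [map_inv₀, hv']⟩
    | mul a b _ _ ha hb =>
      obtain ⟨v, hv, hv'⟩ := ha
      obtain ⟨w, hw, hw'⟩ := hb
      exact ⟨v * w, by simp [hv, hw], by rw [map_mul, hv', hw']⟩
  have hzy : ((z : LF R) : ℂ) ∈
      IntermediateField.adjoin ℚ {z : ℂ | IsConjRoot ℚ ((x : LF R) : ℂ) z} := by
    rw [h]
    exact IntermediateField.subset_adjoin ℚ _ ((mem_orbit_iff_isConjRoot y z).mp hz)
  obtain ⟨v, hv, hv'⟩ := key _ hzy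
  have hvz : v = (z : LF R) := Subtype.ext hv
  rw [hvz] at hv'
  exact Subtype.ext hv'

end Pool.Agent.Lib.MP_950c68_ag.Five
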