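import Mathlib
import Pool.Agent.Lib.MP_950c68_ag.Five.Defs
import Pool.Agent.Lib.MP_950c68_ag.Dim3Proof
import Pool.Agent.Lib.MP_950c68_ag.Five.A4

namespace Pool.Agent.Lib.MP_950c68_ag.Five

open Polynomial MulAction Pool.Agent.Lib.MP_950c68_ag.Orb Pool.Agent.Lib.MP_950c68_ag.Dim3

variable {p : ℕ} [Fact p.Prime] {q f : ℕ}

/-- A8: a half system with Tate product. -/
theorem G0.of_half (hq : q ≠ 0) {x : ℂ} (hW : IsWeil q x) (hD : Distinct x) {e : ℕ}
    (hHT : HondaTate p q e x) {Φ : Finset ℂ} (hΦ : HalfSystem q x Φ) (hcard : e * Φ.card = 4)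
    {t : Multiset ℂ} (hT : IsTate q (e • Φ.val + t))
    (hsymm : ∀ z ∈ t, ¬ Supersingular q z → t.count (q / z) = t.count z)
    (heven : Even (Multiset.card t)) : G0 p q (e • Φ.val + t) := by
  have hWt : ∀ z ∈ t, IsWeil q z := fun z hz => hT.1 z (Multiset.mem_add.2 (Or.inr hz))
  have ht : IsTate q t := isTate_of_symm hq hWt heven hsymm
  have hΦT : IsTate q (e • Φ.val) := IsTate.of_add hq hT ht
  have hw : Supersingular q ((Real.sqrt q : ℝ) : ℂ) := by
    refine ⟨1, one_ne_zero, ?_⟩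
    rw [mul_one, pow_one, ← Complex.ofReal_pow, Real.sq_sqrt (Nat.cast_nonneg q)]
    simp
  have h0 : (e • Φ.val + Multiset.replicate 0 ((Real.sqrt q : ℝ) : ℂ)) = e • Φ.val := by
    rw [Multiset.replicate_zero, add_zero]
  have hgen := Gen.weil (p := p) (q := q) x ((Real.sqrt q : ℝ) : ℂ) Φ e 0 hW hD hHT hΦ
    (Or.inr hw) (Or.inl (by rw [add_zero]; exact hcard)) (by rw [h0]; exact hΦT)
  rw [h0] at hgen
  exact G0.add (Or.inr hgen) (G0.of_symm hq ht hsymm)

end Pool.Agent.Lib.MP_950c68_ag.Five
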