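import Mathlib
import Pool.Agent.Lib.MP_950c68_ag.OrbTypes

/-!
# p-adic places of Weil numbers
-/

namespace Pool.Agent.Lib.MP_950c68_ag.Five

open Polynomial MulAction Pool.Agent.Lib.MP_950c68_ag.Orb

/-- An embedding of the field of the roots into an algebraic closure of `ℚ_p`. -/
theorem exists_place (R : ℚ[X]) (p : ℕ) [Fact p.Prime] : Nonempty (LF R →ₐ[ℚ] PadicAlgCl p) :=
  ⟨IsAlgClosed.lift⟩

variable {R : ℚ[X]} {q f p : ℕ} [Fact p.Prime]

theorem norm_intCast_le_one (n : ℤ) : ‖(n : PadicAlgCl p)‖ ≤ 1 := by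
  have h1 : ((n : ℚ_[p]) : PadicAlgCl p) = (n : PadicAlgCl p) := by
    simp
  rw [← h1, PadicAlgCl.norm_extends]
  exact Padic.norm_int_le_one n

/-- Algebraic integers have absolute value at most one. -/
theorem norm_le_one_of_isIntegral {z : PadicAlgCl p} (hz : IsIntegral ℤ z) : ‖z‖ ≤ 1 := by
  obtain ⟨P, hP, hPz⟩ := hz
  by_contra hcon
  push Not at hcon
  rw [← aeval_def, aeval_eq_sum_range, Finset.sum_range_succ, hP.coeff_natDegree, one_smul] at hPz
  have h1 : z ^ P.natDegree = -∑ i ∈ Finset.range P.natDegree, P.coeff i • z ^ i := by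
    linear_combination hPz
  have hdeg : P.natDegree ≠ 0 := by
    intro h0
    rw [h0] at h1
    simp at h1
  have h2 : ‖∑ i ∈ Finset.range P.natDegree, P.coeff i • z ^ i‖ ≤ ‖z‖ ^ (P.natDegree - 1) := by
    apply IsUltrametricDist.norm_sum_le_of_forall_le_of_nonneg (by positivity)
    intro i hi
    rw [Finset.mem_range] at hi
    rw [zsmul_eq_mul, norm_mul, norm_pow]
    calc ‖((P.coeff i : ℤ) : PadicAlgCl p)‖ * ‖z‖ ^ i ≤ 1 * ‖z‖ ^ i := by
          gcongr
          exact norm_intCast_le_one _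
      _ ≤ ‖z‖ ^ (P.natDegree - 1) := by
          rw [one_mul]
          exact pow_le_pow_right₀ hcon.le (by omega)
  have h3 : ‖z‖ ^ P.natDegree ≤ ‖z‖ ^ (P.natDegree - 1) := by
    calc ‖z‖ ^ P.natDegree = ‖z ^ P.natDegree‖ := (norm_pow _ _).symm
      _ = ‖∑ i ∈ Finset.range P.natDegree, P.coeff i • z ^ i‖ := by rw [h1, norm_neg]
      _ ≤ _ := h2
  have h4 : ‖z‖ ^ (P.natDegree - 1) < ‖z‖ ^ P.natDegree :=
    pow_lt_pow_right₀ hcon (by omega)
  linarith

/-- The centered logarithmic absolute value of a root. -/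
noncomputable def nu (q : ℕ) (φ : LF R →ₐ[ℚ] PadicAlgCl p) (y : R.rootSet (LF R)) : ℝ :=
  Real.logb q ‖φ (y : LF R)‖ + 1 / 2

end Pool.Agent.Lib.MP_950c68_ag.Five
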