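import Mathlib
import Pool.Agent.Lib.MP_950c68_ag.Five.PL0

namespace Pool.Agent.Lib.MP_950c68_ag.Five

open Polynomial MulAction Pool.Agent.Lib.MP_950c68_ag.Orb

variable {R : ℚ[X]} {q f p : ℕ} [Fact p.Prime]

/-- PL5: if there are roots which are not supersingular, then `q ≠ 1`. -/
theorem exponent_ne_zero (hqp : q = p ^ f) (hW : ∀ z : ℂ, aeval z R = 0 → ‖z‖ ^ 2 = q)
    (hint : ∀ z : ℂ, aeval z R = 0 → IsIntegral ℤ z)
    (hns : ∀ z : ℂ, aeval z R = 0 → ∀ n : ℕ, n ≠ 0 → z ^ (2 * n) ≠ (q : ℂ) ^ n)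
    (y : R.rootSet (LF R)) : f ≠ 0 := by
  intro hf
  rw [hf, pow_zero] at hqp
  subst hqp
  have hy : IsIntegral ℤ (y : LF R) := isIntegral_root hint y
  have hRy : aeval (y : LF R) R = 0 := (Polynomial.mem_rootSet.1 y.2).2
  have hnorm : ∀ φ : LF R →+* ℂ, ‖φ (y : LF R)‖ = 1 := by
    intro φ
    have h1 : aeval (φ (y : LF R)) R = 0 := by
      have h2 := congrArg (φ : LF R →+* ℂ) hRy
      rw [map_zero, Polynomial.aeval_def, Polynomial.hom_eval₂] at h2
      rw [Polynomial.aeval_def, ← h2]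
      congr 1
      exact Subsingleton.elim _ _
    have h3 := hW _ h1
    rw [Nat.cast_one] at h3
    exact (pow_eq_one_iff_of_nonneg (norm_nonneg _) two_ne_zero).1 h3
  have hnf : NumberField (LF R) := { to_charZero := inferInstance, to_finiteDimensional := finiteDimensional_LF R }
  obtain ⟨n, hn0, hn⟩ := NumberField.Embeddings.pow_eq_one_of_norm_eq_one (LF R) ℂ hy hnorm
  have h5 := hns ((y : LF R) : ℂ) (aeval_root y) n hn0.ne'
  apply h5
  rw [Nat.cast_one, one_pow, mul_comm, pow_mul]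
  have h6 := congrArg (fun w : LF R => (w : ℂ)) hn
  push_cast at h6
  rw [h6, one_pow]

end Pool.Agent.Lib.MP_950c68_ag.Five
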