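import Mathlib
import Pool.Agent.Lib.MP_950c68_ag.OrbSemiTwo

/-!
# Lattices of relations
-/

namespace Pool.Agent.Lib.MP_950c68_ag.Five

open MulAction Pool.Agent.Lib.MP_950c68_ag.Orb

/-- The properties of the lattice of relations between the eigenvalues of an abelian variety all
of whose endomorphisms are defined over the base field. -/
structure Rel {G Ω : Type*} [Group G] [MulAction G Ω] (ι : G) (Λ : AddSubgroup (Ω → ℤ)) :
    Prop where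
  comm : ∀ (g : G) (y : Ω), g • ι • y = ι • g • y
  invol : ∀ y : Ω, ι • ι • y = y
  ne : ∀ y : Ω, ι • y ≠ y
  smul : ∀ d ∈ Λ, ∀ g : G, (fun y => d (g • y)) ∈ Λ
  anti : ∀ d ∈ Λ, ∀ y, d (ι • y) = - d y
  sat : ∀ (d : Ω → ℤ) (m : ℤ), m ≠ 0 → (fun y => m * d y) ∈ Λ → d ∈ Λ
  pair : ∀ x, ∀ d ∈ Λ, (∀ y, y ≠ x → y ≠ ι • x → d y = 0) → d x = 0
  two : ∀ x y, y ≠ x → y ≠ ι • x → ∀ d ∈ Λ,
    (∀ z, z ≠ x → z ≠ ι • x → z ≠ y → z ≠ ι • y → d z = 0) → d y = - d x → d x = 0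

end Pool.Agent.Lib.MP_950c68_ag.Five
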