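import Mathlib
import Pool.Agent.Lib.MP_950c68_ag.Five.PL0

namespace Pool.Agent.Lib.MP_950c68_ag.Five

open Polynomial MulAction Pool.Agent.Lib.MP_950c68_ag.Orb

variable {R : ℚ[X]} {q f p : ℕ} [Fact p.Prime]

private theorem sum_eq_zero_of_anti {d : R.rootSet (LF R) → ℤ}
    (hd : ∀ x, d (iota R • x) = - d x) : ∑ y, d y = 0 := by
  have h1 : ∑ y, d (iota R • y) = ∑ y, d y :=
    Equiv.sum_comp (MulAction.toPerm (iota R)) d
  have h2 : ∑ y, d (iota R • y) = - ∑ y, d y := by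
    rw [← Finset.sum_neg_distrib]
    exact Finset.sum_congr rfl fun y _ => hd y
  omega

private theorem prod_zpow_const {ι' : Type*} (s : Finset ι') (d : ι' → ℤ) {a : ℝ} (ha : a ≠ 0) :
    ∏ x ∈ s, a ^ d x = a ^ (∑ x ∈ s, d x) := by
  classical
  induction s using Finset.induction_on with
  | empty => simp
  | insert i s hi ih => rw [Finset.prod_insert hi, Finset.sum_insert hi, zpow_add₀ ha, ih]

private theorem prod_eq_one (hqp : q = p ^ f) (hf : f ≠ 0)
    (hW : ∀ z : ℂ, aeval z R = 0 → ‖z‖ ^ 2 = q)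
    {hq' : (q : ℂ) ≠ 0} {h0 : ∀ x : R.rootSet (LF R), ((x : LF R) : ℂ) ≠ 0}
    {d : R.rootSet (LF R) → ℤ} (hd : d ∈ Lam R q hq' h0) :
    ∏ x : R.rootSet (LF R), (x : LF R) ^ d x = 1 := by
  obtain ⟨ha, M, hM⟩ := hd
  have hs := sum_eq_zero_of_anti ha
  have hq1 : (1 : ℝ) < q := by
    have h1 : 1 < q := by
      rw [hqp]
      exact Nat.one_lt_pow hf (Fact.out : p.Prime).one_lt
    exact_mod_cast h1
  have h1 : (∏ x : R.rootSet (LF R), ‖((x : LF R) : ℂ)‖ ^ d x) = (q : ℝ) ^ M := by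
    have h2 := congrArg norm hM
    rw [norm_prod, norm_zpow, Complex.norm_natCast] at h2
    rw [← h2]
    exact Finset.prod_congr rfl fun x _ => (norm_zpow _ _).symm
  have h2 : (∏ x : R.rootSet (LF R), ‖((x : LF R) : ℂ)‖ ^ d x) ^ 2 = 1 := by
    rw [← Finset.prod_pow]
    calc ∏ x : R.rootSet (LF R), (‖((x : LF R) : ℂ)‖ ^ d x) ^ 2
        = ∏ x : R.rootSet (LF R), (q : ℝ) ^ d x := by
          refine Finset.prod_congr rfl fun x _ => ?_
          rw [← zpow_natCast, ← zpow_mul, mul_comm, zpow_mul, zpow_natCast,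
            hW _ (aeval_root x)]
      _ = (q : ℝ) ^ (∑ x : R.rootSet (LF R), d x) := by
          exact prod_zpow_const _ _ (by linarith)
      _ = 1 := by rw [hs, zpow_zero]
  have h3 : M = 0 := by
    rw [h1, ← zpow_natCast, ← zpow_mul] at h2
    have h4 : (q : ℝ) ^ (M * (2 : ℕ)) = (q : ℝ) ^ (0 : ℤ) := by rw [h2, zpow_zero]
    have h5 := zpow_right_injective₀ (by linarith) hq1.ne' h4
    simpa using h5
  rw [h3, zpow_zero] at hM
  apply (algebraMap (LF R) ℂ).injective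
  rw [map_prod, map_one, ← hM]
  refine Finset.prod_congr rfl fun x _ => ?_
  rw [map_zpow₀]
  rfl

/-- PL2 -/
theorem sum_nu (hqp : q = p ^ f) (hf : f ≠ 0) (hW : ∀ z : ℂ, aeval z R = 0 → ‖z‖ ^ 2 = q)
    {hq' : (q : ℂ) ≠ 0} {h0 : ∀ x : R.rootSet (LF R), ((x : LF R) : ℂ) ≠ 0}
    (φ : LF R →ₐ[ℚ] PadicAlgCl p) {d : R.rootSet (LF R) → ℤ} (hd : d ∈ Lam R q hq' h0)
    (g : LF R ≃ₐ[ℚ] LF R) : ∑ y : R.rootSet (LF R), (d y : ℝ) * nu q φ (g • y) = 0 := by
  have hq : q ≠ 0 := by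
    rw [hqp]
    exact pow_ne_zero _ (Fact.out : p.Prime).ne_zero
  have h1 := prod_eq_one hqp hf hW hd
  have hs := sum_eq_zero_of_anti hd.1
  have h2 : ∏ x : R.rootSet (LF R), ‖φ (g (x : LF R))‖ ^ d x = 1 := by
    have h3 := congrArg (fun z : LF R => ‖φ (g z)‖) h1
    simp only [map_prod, map_zpow₀, map_one, norm_prod, norm_zpow, norm_one] at h3
    exact h3
  have hne : ∀ x : R.rootSet (LF R), ‖φ (g (x : LF R))‖ ≠ 0 := by
    intro x
    rw [norm_ne_zero_iff]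
    intro h3
    have h4 : g (x : LF R) = 0 := φ.toRingHom.injective (by simpa using h3)
    have h5 : (x : LF R) = 0 := by simpa using h4
    exact root_ne_zero hW hq x h5
  have h3 : ∑ x : R.rootSet (LF R), (d x : ℝ) * Real.log ‖φ (g (x : LF R))‖ = 0 := by
    have h4 := congrArg Real.log h2
    rw [Real.log_prod (fun x _ => zpow_ne_zero _ (hne x)), Real.log_one] at h4
    rw [← h4]
    exact Finset.sum_congr rfl fun x _ => (Real.log_zpow _ _).symm
  have h4 : ∀ y : R.rootSet (LF R), (d y : ℝ) * nu q φ (g • y) =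
      ((d y : ℝ) * Real.log ‖φ (g (y : LF R))‖) * (Real.log q)⁻¹ + (d y : ℝ) * (1 / 2) := by
    intro y
    rw [nu, coe_smul_root, Real.logb, div_eq_mul_inv]
    ring
  rw [Finset.sum_congr rfl fun y _ => h4 y, Finset.sum_add_distrib, ← Finset.sum_mul,
    ← Finset.sum_mul, h3, zero_mul, zero_add, ← Int.cast_sum, hs, Int.cast_zero, zero_mul]

end Pool.Agent.Lib.MP_950c68_ag.Five
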