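import Mathlib
import Pool.Agent.Lib.MP_950c68_ag.Five.Defs
import Pool.Agent.Lib.MP_950c68_ag.Five.RelDef
import Pool.Agent.Lib.MP_950c68_ag.Five.PL2
import Pool.Agent.Lib.MP_950c68_ag.Dim3Proof

/-!
# The saturated lattice of relations
-/

namespace Pool.Agent.Lib.MP_950c68_ag.Five

open Polynomial MulAction Pool.Agent.Lib.MP_950c68_ag.Orb Pool.Agent.Lib.MP_950c68_ag.Dim3

variable {R : ℚ[X]} {p q f : ℕ} [Fact p.Prime]

/-- The relations up to multiples. -/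
noncomputable def Sat (R : ℚ[X]) (q : ℕ) (hq : (q : ℂ) ≠ 0)
    (h0 : ∀ x : R.rootSet (LF R), ((x : LF R) : ℂ) ≠ 0) :
    AddSubgroup (R.rootSet (LF R) → ℤ) where
  carrier := {d | ∃ m : ℤ, m ≠ 0 ∧ (fun y => m * d y) ∈ Lam R q hq h0}
  zero_mem' := by
    refine ⟨1, one_ne_zero, ?_⟩
    have h1 : (fun y => 1 * (0 : R.rootSet (LF R) → ℤ) y) = 0 := by
      ext y
      simp
    rw [h1]
    exact (Lam R q hq h0).zero_mem
  add_mem' := by
    rintro a b ⟨m, hm, ha⟩ ⟨n, hn, hb⟩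
    refine ⟨m * n, mul_ne_zero hm hn, ?_⟩
    have h1 : (fun y => m * n * (a + b) y) =
        n • (fun y => m * a y) + m • (fun y => n * b y) := by
      ext y
      simp only [Pi.add_apply, Pi.smul_apply, smul_eq_mul]
      ring
    rw [h1]
    exact (Lam R q hq h0).add_mem ((Lam R q hq h0).zsmul_mem ha n) ((Lam R q hq h0).zsmul_mem hb m)
  neg_mem' := by
    rintro a ⟨m, hm, ha⟩
    refine ⟨m, hm, ?_⟩
    have h1 : (fun y => m * (-a) y) = -fun y => m * a y := by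
      ext y
      simp
    rw [h1]
    exact (Lam R q hq h0).neg_mem ha

theorem mem_Sat {hq' : (q : ℂ) ≠ 0} {h0 : ∀ x : R.rootSet (LF R), ((x : LF R) : ℂ) ≠ 0}
    {d : R.rootSet (LF R) → ℤ} :
    d ∈ Sat R q hq' h0 ↔ ∃ m : ℤ, m ≠ 0 ∧ (fun y => m * d y) ∈ Lam R q hq' h0 := Iff.rfl

theorem rel_sat {hq' : (q : ℂ) ≠ 0} {h0 : ∀ x : R.rootSet (LF R), ((x : LF R) : ℂ) ≠ 0}
    (hW : ∀ z : ℂ, aeval z R = 0 → ‖z‖ ^ 2 = q) (hq : q ≠ 0)
    (hns : ∀ z : ℂ, aeval z R = 0 → ∀ n : ℕ, n ≠ 0 → z ^ (2 * n) ≠ (q : ℂ) ^ n)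
    (hneat : ∀ x y : R.rootSet (LF R), ∀ n : ℕ, n ≠ 0 →
      ((x : LF R) : ℂ) ^ n = ((y : LF R) : ℂ) ^ n → x = y) :
    Rel (iota R) (Sat R q hq' h0) where
  comm := smul_iota hW hq
  invol := iota_iota hW hq
  ne := iota_ne hW hq hns
  smul := by
    rintro d ⟨m, hm, hd⟩ g
    exact ⟨m, hm, Lam_smul hW hq _ hd g⟩
  anti := by
    rintro d ⟨m, hm, hd⟩ y
    have h1 := hd.1 y
    simp only at h1
    have h2 : m * (d (iota R • y) + d y) = 0 := by linear_combination h1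
    have h3 := (mul_eq_zero.mp h2).resolve_left hm
    omega
  sat := by
    rintro d m hm ⟨n, hn, hd⟩
    refine ⟨n * m, mul_ne_zero hn hm, ?_⟩
    have h1 : (fun y => n * m * d y) = fun y => n * (m * d y) := by
      ext y
      ring
    rw [h1]
    exact hd
  pair := by
    rintro x d ⟨m, hm, hd⟩ hs
    have h1 := Lam_pair hW hq hns x _ hd (fun y hy hy' => by rw [hs y hy hy', mul_zero])
    exact (mul_eq_zero.mp h1).resolve_left hm
  two := by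
    rintro x y hyx hyx' d ⟨m, hm, hd⟩ hs he
    by_contra hcon
    obtain ⟨hanti, M, hM⟩ := hd
    rw [prod_two_pairs hW hq hns x y hyx hyx' _ hanti
      (fun z h1 h2 h3 h4 => by rw [hs z h1 h2 h3 h4, mul_zero])] at hM
    have h1 : m * d y = -(m * d x) := by rw [he]; ring
    rw [h1] at hM
    obtain ⟨n, hn, h⟩ := pow_eq_of_rel (hW _ (aeval_root x)) (hW _ (aeval_root y)) hq' hM
      (mul_ne_zero hm hcon)
    exact hyx (hneat y x n hn h)

theorem sum_nu_sat (hqp : q = p ^ f) (hf : f ≠ 0) (hW : ∀ z : ℂ, aeval z R = 0 → ‖z‖ ^ 2 = q)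
    {hq' : (q : ℂ) ≠ 0} {h0 : ∀ x : R.rootSet (LF R), ((x : LF R) : ℂ) ≠ 0}
    (φ : LF R →ₐ[ℚ] PadicAlgCl p) {d : R.rootSet (LF R) → ℤ} (hd : d ∈ Sat R q hq' h0)
    (g : LF R ≃ₐ[ℚ] LF R) : ∑ y : R.rootSet (LF R), (d y : ℝ) * nu q φ (g • y) = 0 := by
  obtain ⟨m, hm, hd⟩ := hd
  have h1 := sum_nu hqp hf hW φ hd g
  have h2 : ∑ y : R.rootSet (LF R), (((m * d y : ℤ) : ℝ)) * nu q φ (g • y) =
      m * ∑ y : R.rootSet (LF R), (d y : ℝ) * nu q φ (g • y) := by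
    rw [Finset.mul_sum]
    refine Finset.sum_congr rfl fun y _ => ?_
    push_cast
    ring
  rw [h2] at h1
  exact (mul_eq_zero.mp h1).resolve_left (by exact_mod_cast hm)

end Pool.Agent.Lib.MP_950c68_ag.Five
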