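import Mathlib
import Pool.Agent.Lib.MP_950c68_ag.Five.Defs
import Pool.Agent.Lib.MP_950c68_ag.Five.RelDef
import Pool.Agent.Lib.MP_950c68_ag.Five.Sat
import Pool.Agent.Lib.MP_950c68_ag.Five.A4
import Pool.Agent.Lib.MP_950c68_ag.Five.A5
import Pool.Agent.Lib.MP_950c68_ag.Five.A6
import Pool.Agent.Lib.MP_950c68_ag.Five.PL5

/-!
# The relation of a Tate multiset
-/

namespace Pool.Agent.Lib.MP_950c68_ag.Five

open Polynomial MulAction Pool.Agent.Lib.MP_950c68_ag.Orb Pool.Agent.Lib.MP_950c68_ag.Dim3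

variable {p : ℕ} [Fact p.Prime] {q f : ℕ}

/-- The relation of a multiset. -/
noncomputable def rr (s : Multiset ℂ) (R : ℚ[X]) (y : R.rootSet (LF R)) : ℤ :=
  (s.count ((y : LF R) : ℂ) : ℤ) - s.count (((iota R • y : R.rootSet (LF R)) : LF R) : ℂ)

/-- The context of the proof. -/
structure Ctx (p : ℕ) [Fact p.Prime] (q : ℕ) (T s : Multiset ℂ) (R : ℚ[X]) : Prop where
  hq : q ≠ 0
  hR0 : R ≠ 0
  root : ∀ z : ℂ, aeval z R = 0 ↔ ∃ x ∈ s, ¬ Supersingular q x ∧ IsConjRoot ℚ x z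
  W : ∀ z : ℂ, aeval z R = 0 → ‖z‖ ^ 2 = q
  int : ∀ z : ℂ, aeval z R = 0 → IsIntegral ℤ z
  ns : ∀ z : ℂ, aeval z R = 0 → ∀ n : ℕ, n ≠ 0 → z ^ (2 * n) ≠ (q : ℂ) ^ n
  av : AV p q T
  le : s ≤ T
  tate : IsTate q s

theorem exists_ctx (hq : q ≠ 0) {T s : Multiset ℂ} (hT : AV p q T) (hle : s ≤ T)
    (hs : IsTate q s) : ∃ R : ℚ[X], Ctx p q T s R ∧
      ∀ (hq' : (q : ℂ) ≠ 0) (h0 : ∀ x : R.rootSet (LF R), ((x : LF R) : ℂ) ≠ 0),
        rr s R ∈ Sat R q hq' h0 := by
  obtain ⟨R, hR0, hroot, m, hm, hLam⟩ := exists_setup hq hs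
  obtain ⟨hW, hint, hns⟩ := facts_of_root hs.1 hroot
  refine ⟨R, ⟨hq, hR0, hroot, hW, hint, hns, hT, hle, hs⟩, ?_⟩
  intro hq' h0
  refine ⟨m, by exact_mod_cast hm, ?_⟩
  have h1 := hLam hq' h0
  have h2 : (fun y : R.rootSet (LF R) => (m : ℤ) * rr s R y) =
      fun y : R.rootSet (LF R) => ((m * s.count ((y : LF R) : ℂ) : ℕ) : ℤ) -
          ((m * s.count (((iota R • y : R.rootSet (LF R)) : LF R) : ℂ) : ℕ) : ℤ) := by
    ext y
    rw [rr]
    push_cast
    ring
  rw [h2]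
  exact h1

namespace Ctx

variable {T s : Multiset ℂ} {R : ℚ[X]} (h : Ctx p q T s R)

include h

theorem q_ne : (q : ℂ) ≠ 0 := by exact_mod_cast h.hq

theorem ne_zero (x : R.rootSet (LF R)) : ((x : LF R) : ℂ) ≠ 0 := by
  have := root_ne_zero h.W h.hq x
  simpa using this

theorem count_pos (y : R.rootSet (LF R)) : 0 < T.count ((y : LF R) : ℂ) := by
  obtain ⟨x, hx, _, hxy⟩ := (h.root _).mp (aeval_root y)
  have hxT := Multiset.mem_of_le h.le hx
  rw [h.av.conj x hxT _ hxy]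
  exact Multiset.count_pos.mpr hxT

theorem mem_T (y : R.rootSet (LF R)) : ((y : LF R) : ℂ) ∈ T := Multiset.count_pos.mp (h.count_pos y)

theorem weil (y : R.rootSet (LF R)) : IsWeil q ((y : LF R) : ℂ) := h.av.weil _ (h.mem_T y)

theorem not_ss (y : R.rootSet (LF R)) : ¬ Supersingular q ((y : LF R) : ℂ) := by
  rintro ⟨n, hn, he⟩
  exact h.ns _ (aeval_root y) n hn he

theorem count_conj (y : R.rootSet (LF R)) {z : ℂ} (hz : IsConjRoot ℚ ((y : LF R) : ℂ) z) :
    T.count z = T.count ((y : LF R) : ℂ) := h.av.conj _ (h.mem_T y) z hz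

theorem isConjRoot_iota (y : R.rootSet (LF R)) :
    IsConjRoot ℚ ((y : LF R) : ℂ) (((iota R • y : R.rootSet (LF R)) : LF R) : ℂ) :=
  (mem_orbit_iff_isConjRoot y _).mp (mem_orbit y (iota R))

theorem count_iota (y : R.rootSet (LF R)) :
    T.count (((iota R • y : R.rootSet (LF R)) : LF R) : ℂ) = T.count ((y : LF R) : ℂ) :=
  h.count_conj y (h.isConjRoot_iota y)

theorem abs_le (y : R.rootSet (LF R)) : |rr s R y| ≤ T.count ((y : LF R) : ℂ) := by
  have h1 := Multiset.count_le_of_le ((y : LF R) : ℂ) h.le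
  have h2 := Multiset.count_le_of_le (((iota R • y : R.rootSet (LF R)) : LF R) : ℂ) h.le
  rw [h.count_iota y] at h2
  rw [rr, _root_.abs_le]
  constructor <;> omega

theorem distinct (y : R.rootSet (LF R)) : Distinct ((y : LF R) : ℂ) := by
  intro z hz hne n hn he
  have hzT : z ∈ T := by
    rw [← Multiset.count_pos, h.count_conj y hz]
    exact h.count_pos y
  exact hne (h.av.neat z hzT _ (h.mem_T y) n hn he)

theorem rel {hq' : (q : ℂ) ≠ 0} {h0 : ∀ x : R.rootSet (LF R), ((x : LF R) : ℂ) ≠ 0} :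
    Rel (iota R) (Sat R q hq' h0) :=
  rel_sat h.W h.hq h.ns fun x y n hn he =>
    coe_injective (h.av.neat _ (h.mem_T x) _ (h.mem_T y) n hn he)

theorem anti (y : R.rootSet (LF R)) : rr s R (iota R • y) = - rr s R y := by
  rw [rr, rr, iota_iota h.W h.hq]
  ring

theorem exists_degree (y : R.rootSet (LF R)) :
    ∃ d : ℕ, 0 < d ∧ (minpoly ℚ ((y : LF R) : ℂ)).natDegree = 2 * d :=
  exists_natDegree h.hq (h.weil y) (h.not_ss y)

theorem exists_root_of_mem {z : ℂ} (hz : z ∈ s) (hns : ¬ Supersingular q z) :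
    ∃ y : R.rootSet (LF R), ((y : LF R) : ℂ) = z :=
  exists_root h.hR0 ((h.root z).mpr ⟨z, hz, hns, rfl⟩)

theorem count_div {t : Multiset ℂ} (y : R.rootSet (LF R)) :
    t.count ((q : ℂ) / ((y : LF R) : ℂ)) =
      t.count (((iota R • y : R.rootSet (LF R)) : LF R) : ℂ) := by
  rw [coe_iota' h.W h.hq]

/-- If the relation vanishes. -/
theorem zero (h0 : ∀ y, rr s R y = 0) : G0 p q s := by
  apply G0.of_symm h.hq h.tate
  intro z hz hns
  obtain ⟨y, rfl⟩ := h.exists_root_of_mem hz hns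
  rw [h.count_div]
  have := h0 y
  rw [rr] at this
  omega

theorem exponent_ne_zero (hqp : q = p ^ f) (y : R.rootSet (LF R)) : f ≠ 0 :=
  Five.exponent_ne_zero hqp h.W h.int h.ns y

/-- Supersingular members are square roots of `q`. -/
theorem sq_eq {w : ℂ} (hw : w ∈ T) (hss : Supersingular q w) : w ^ 2 = q := by
  obtain ⟨n, hn, he⟩ := hss
  have hW := h.av.weil w hw
  have hw0 := hW.ne_zero h.hq
  have hdiv : (q : ℂ) / w ∈ T := by
    rw [← Multiset.count_pos, h.av.conj w hw _ (hW.isConjRoot h.hq)]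
    exact Multiset.count_pos.mpr hw
  have h1 : ((q : ℂ) / w) ^ (2 * n) = w ^ (2 * n) := by
    rw [div_pow, he, div_eq_iff (pow_ne_zero _ h.q_ne)]
    ring
  have h2 := h.av.neat _ hdiv w hw (2 * n) (by omega) h1
  rw [div_eq_iff hw0] at h2
  rw [h2]
  ring

/-- The sum of the absolute values. -/
theorem parity (hss : ∀ z ∈ s, ¬ Supersingular q z) : (4 : ℤ) ∣ ∑ y, |rr s R y| := by
  classical
  obtain ⟨_, j, n, hcard, _, _⟩ := h.tate
  let c : R.rootSet (LF R) → ℕ := fun y => s.count ((y : LF R) : ℂ)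
  -- the sum of the multiplicities
  have hsum : ∑ y, (c y : ℤ) = 2 * j := by
    let K : ℂ → ℤ := fun z => if ∃ y : R.rootSet (LF R), ((y : LF R) : ℂ) = z then 1 else 0
    have h1 := sum_map_eq (R := R) s K (fun _ => 1) (fun y => if_pos ⟨y, rfl⟩)
      (fun z hz => if_neg (by push Not; exact hz))
    have h2 : (s.map K).sum = Multiset.card s := by
      have h3 : s.map K = s.map fun _ => (1 : ℤ) := by
        apply Multiset.map_congr rfl
        intro z hz
        exact if_pos (h.exists_root_of_mem hz (hss z hz))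
      rw [h3, Multiset.map_const', Multiset.sum_replicate]
      simp
    rw [h2, hcard] at h1
    simp only [one_mul] at h1
    push_cast at h1
    rw [h1]
  have hinv : ∀ y : R.rootSet (LF R), iota R • iota R • y = y := iota_iota h.W h.hq
  have hne : ∀ y : R.rootSet (LF R), iota R • y ≠ y := iota_ne h.W h.hq h.ns
  have hsum' : ∑ y, (c (iota R • y) : ℤ) = 2 * j := by
    rw [← hsum, ← Equiv.sum_comp (MulAction.toPerm (iota R)) (fun y => (c y : ℤ))]
    rfl
  have heven : Even (∑ y, (min (c y) (c (iota R • y)))) := by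
    rw [← ZMod.natCast_eq_zero_iff_even]
    push_cast
    refine Finset.sum_involution (fun y _ => iota R • y) ?_ ?_ (fun y _ => Finset.mem_univ _) ?_
    · intro y _
      simp only [hinv]
      rw [min_comm (c (iota R • y)), ← two_mul]
      have : (2 : ZMod 2) = 0 := rfl
      rw [this, zero_mul]
    · intro y _ _
      exact hne y
    · intro y _
      exact hinv y
  obtain ⟨k, hk⟩ := heven
  have habs : ∀ y, |rr s R y| = (c y : ℤ) + c (iota R • y) -
      2 * ((min (c y) (c (iota R • y)) : ℕ) : ℤ) := by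
    intro y
    change |(c y : ℤ) - c (iota R • y)| = _
    rcases le_total (c y) (c (iota R • y)) with h1 | h1
    · rw [min_eq_left h1, abs_of_nonpos (by omega)]
      omega
    · rw [min_eq_right h1, abs_of_nonneg (by omega)]
      omega
  rw [Finset.sum_congr rfl fun y _ => habs y, Finset.sum_sub_distrib, Finset.sum_add_distrib,
    hsum, hsum', ← Finset.mul_sum, ← Nat.cast_sum, hk]
  push_cast
  exact ⟨j - k, by ring⟩

end Ctx

end Pool.Agent.Lib.MP_950c68_ag.Five
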