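import Mathlib
import Pool.Agent.Lib.MP_950c68_ag.OrbSemiTwo

namespace Pool.Agent.Lib.MP_950c68_ag.Five

open MulAction Matrix Pool.Agent.Lib.MP_950c68_ag.Orb

private lemma e0_aux {Ω : Type*} [DecidableEq Ω] {ι : Ω → Ω} (hιι : ∀ y : Ω, ι (ι y) = y)
    (hιne : ∀ y : Ω, ι y ≠ y) (n : ℕ) : ∀ S : Finset Ω, (∀ y ∈ S, ι y ∈ S) → S.card = 2 * n →
    ∃ z : Fin n → Ω, (∀ i, z i ∈ S) ∧ (∀ i j, i ≠ j → z i ≠ z j ∧ z i ≠ ι (z j)) ∧
      ∀ y ∈ S, ∃ i, y = z i ∨ y = ι (z i) := by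
  induction n with
  | zero =>
    intro S _ hc
    have : S = ∅ := Finset.card_eq_zero.1 (by omega)
    subst this
    exact ⟨fun i => i.elim0, fun i => i.elim0, fun i => i.elim0, fun y hy => by simp at hy⟩
  | succ n ih =>
    intro S hS hc
    obtain ⟨y0, hy0⟩ : S.Nonempty := Finset.card_pos.1 (by omega)
    have hy1 := hS y0 hy0
    have hne : ι y0 ≠ y0 := hιne y0
    obtain ⟨z, hz1, hz2, hz3⟩ := ih ((S.erase y0).erase (ι y0)) (by
      intro y hy
      rw [Finset.mem_erase, Finset.mem_erase] at hy ⊢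
      refine ⟨fun h => hy.2.1 ?_, fun h => hy.1 ?_, hS y hy.2.2⟩
      · have := congrArg ι h
        rwa [hιι, hιι] at this
      · rw [← h, hιι]) (by
      rw [Finset.card_erase_of_mem (Finset.mem_erase.2 ⟨hne, hy1⟩),
        Finset.card_erase_of_mem hy0]
      omega)
    have hz1' : ∀ i, z i ≠ ι y0 ∧ z i ≠ y0 ∧ z i ∈ S := fun i => by
      have := hz1 i
      rwa [Finset.mem_erase, Finset.mem_erase] at this
    refine ⟨Fin.cons y0 z, ?_, ?_, ?_⟩
    · intro i
      refine Fin.cases ?_ (fun i => ?_) i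
      · rw [Fin.cons_zero]; exact hy0
      · rw [Fin.cons_succ]; exact (hz1' i).2.2
    · intro i j
      refine Fin.cases ?_ (fun i => ?_) i
      · refine Fin.cases ?_ (fun j => ?_) j
        · intro h; exact absurd rfl h
        · intro _
          rw [Fin.cons_zero, Fin.cons_succ]
          refine ⟨(hz1' j).2.1.symm, fun h => (hz1' j).1 ?_⟩
          rw [h, hιι]
      · refine Fin.cases ?_ (fun j => ?_) j
        · intro _
          rw [Fin.cons_zero, Fin.cons_succ]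
          exact ⟨(hz1' i).2.1, (hz1' i).1⟩
        · intro h
          rw [Fin.cons_succ, Fin.cons_succ]
          exact hz2 i j (fun h' => h (by rw [h']))
    · intro y hy
      by_cases h1 : y = y0
      · exact ⟨0, Or.inl (by rw [Fin.cons_zero, h1])⟩
      · by_cases h2 : y = ι y0
        · exact ⟨0, Or.inr (by rw [Fin.cons_zero, h2])⟩
        · obtain ⟨i, hi⟩ := hz3 y (Finset.mem_erase.2 ⟨h2, Finset.mem_erase.2 ⟨h1, hy⟩⟩)
          exact ⟨i.succ, by rwa [Fin.cons_succ]⟩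

/-- E0: representatives of the four pairs. -/
theorem exists_reps {G Ω : Type*} [Group G] [MulAction G Ω] [Finite G] {ι : G}
    (hιι : ∀ y : Ω, ι • ι • y = y) (hιne : ∀ y : Ω, ι • y ≠ y) {x : Ω}
    (hcard : Nat.card (orbit G x) = 8) :
    ∃ z : Fin 4 → Ω, (∀ i, z i ∈ orbit G x) ∧ (∀ i j, i ≠ j → z i ≠ z j ∧ z i ≠ ι • z j) ∧
      ∀ y ∈ orbit G x, ∃ i, y = z i ∨ y = ι • z i := by
  classical
  have hfin : (orbit G x).Finite := Set.finite_range _
  have hc : hfin.toFinset.card = 2 * 4 := by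
    rw [← Set.ncard_eq_toFinset_card _ hfin, ← Nat.card_coe_set_eq, hcard]
  obtain ⟨z, h1, h2, h3⟩ := e0_aux (ι := fun y => ι • y) hιι hιne 4 hfin.toFinset (by
    intro y hy
    rw [Set.Finite.mem_toFinset] at hy ⊢
    exact MulAction.mem_orbit_of_mem_orbit ι hy) hc
  refine ⟨z, fun i => (Set.Finite.mem_toFinset hfin).1 (h1 i), h2, fun y hy =>
    h3 y ((Set.Finite.mem_toFinset hfin).2 hy)⟩

end Pool.Agent.Lib.MP_950c68_ag.Five
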