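import Mathlib
import Pool.Agent.Lib.MP_950c68_ag.OrbSemiTwo

namespace Pool.Agent.Lib.MP_950c68_ag.Five

open MulAction Matrix Pool.Agent.Lib.MP_950c68_ag.Orb

private theorem card_eq {G Ω : Type*} [Group G] [MulAction G Ω] {ι : G}
    (hιι : ∀ y : Ω, ι • ι • y = y) {x : Ω}
    {ν : Ω → ℝ} (hν : ∀ y, ν (ι • y) = - ν y)
    {z : Fin 4 → Ω} (hz : ∀ i, z i ∈ orbit G x)
    (hne : ∀ i j, i ≠ j → z i ≠ z j ∧ z i ≠ ι • z j)
    (hall : ∀ y ∈ orbit G x, ∃ i, y = z i ∨ y = ι • z i) {c : ℝ} (hc : 0 < c) :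
    Nat.card {z : orbit G x // ν z = c} =
      (Finset.univ.filter (fun i : Fin 4 => |ν (z i)| = c)).card := by
  classical
  have hmem : ∀ i, ι • z i ∈ orbit G x := fun i => MulAction.mem_orbit_of_mem_orbit ι (hz i)
  have hneg : ∀ i, |ν (z i)| = c → ν (z i) ≠ c → ν (ι • z i) = c := by
    intro i h1 h2
    rw [hν]
    rcases abs_choice (ν (z i)) with h | h
    · exact absurd (by rw [← h, h1]) h2
    · rw [← h, h1]
  let f : {i : Fin 4 // |ν (z i)| = c} → {z : orbit G x // ν z = c} := fun i =>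
    if h : ν (z i.1) = c then ⟨⟨z i.1, hz i.1⟩, h⟩
    else ⟨⟨ι • z i.1, hmem i.1⟩, hneg i.1 i.2 h⟩
  have hf1 : ∀ i : {i : Fin 4 // |ν (z i)| = c}, ν (z i.1) = c →
      ((f i).1 : Ω) = z i.1 := by
    intro i h
    simp only [f, dif_pos h]
  have hf2 : ∀ i : {i : Fin 4 // |ν (z i)| = c}, ν (z i.1) ≠ c →
      ((f i).1 : Ω) = ι • z i.1 := by
    intro i h
    simp only [f, dif_neg h]
  have hf : ∀ i : {i : Fin 4 // |ν (z i)| = c}, ((f i).1 : Ω) = z i.1 ∨
      ((f i).1 : Ω) = ι • z i.1 := by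
    intro i
    by_cases h : ν (z i.1) = c
    · exact Or.inl (hf1 i h)
    · exact Or.inr (hf2 i h)
  have hbij : Function.Bijective f := by
    constructor
    · intro i j hij
      have hij' : ((f i).1 : Ω) = ((f j).1 : Ω) := by rw [hij]
      by_contra hcon
      have hcon' : i.1 ≠ j.1 := fun h => hcon (Subtype.ext h)
      obtain ⟨n1, n2⟩ := hne i.1 j.1 hcon'
      rcases hf i with h1 | h1 <;> rcases hf j with h2 | h2 <;> rw [h1, h2] at hij'
      · exact n1 hij'
      · exact n2 hij'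
      · apply n2
        rw [← hij', hιι]
      · apply n1
        rw [← hιι (z i.1), hij', hιι]
    · rintro ⟨⟨y, hy⟩, hyc⟩
      have hyc' : ν y = c := hyc
      obtain ⟨i, hi | hi⟩ := hall y hy
      · have h1 : |ν (z i)| = c := by rw [← hi, hyc', abs_of_pos hc]
        refine ⟨⟨i, h1⟩, ?_⟩
        apply Subtype.ext
        apply Subtype.ext
        rw [hf1 ⟨i, h1⟩ (by rw [← hi, hyc'])]
        exact hi.symm
      · have h0 : ν (z i) = -c := by
          have h := hν (z i)
          rw [← hi, hyc'] at h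
          linarith
        have h1 : |ν (z i)| = c := by rw [h0, abs_neg, abs_of_pos hc]
        refine ⟨⟨i, h1⟩, ?_⟩
        apply Subtype.ext
        apply Subtype.ext
        rw [hf2 ⟨i, h1⟩ (by rw [h0]; intro h; linarith)]
        exact hi.symm
  rw [← Nat.card_congr (Equiv.ofBijective f hbij), Nat.card_eq_fintype_card,
    Fintype.card_subtype]

/-- E1: the slopes. -/
theorem patterns {G Ω : Type*} [Group G] [MulAction G Ω] [Finite G] {ι : G}
    (hιι : ∀ y : Ω, ι • ι • y = y) (hιne : ∀ y : Ω, ι • y ≠ y) {x : Ω}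
    {ν : Ω → ℝ} (hν : ∀ y, ν (ι • y) = - ν y) (hbd : ∀ y, |ν y| ≤ 1 / 2)
    (hpat : ∀ c : ℝ, ∃ m : ℤ, (Nat.card {z : orbit G x // ν z = c} : ℝ) * (c - 1 / 2) = m)
    {z : Fin 4 → Ω} (hz : ∀ i, z i ∈ orbit G x)
    (hne : ∀ i j, i ≠ j → z i ≠ z j ∧ z i ≠ ι • z j)
    (hall : ∀ y ∈ orbit G x, ∃ i, y = z i ∨ y = ι • z i) :
    (∀ i, |ν (z i)| = 0 ∨ |ν (z i)| = 1 / 2) ∨
    (∃ j, (|ν (z j)| = 0 ∨ |ν (z j)| = 1 / 2) ∧ ∀ i, i ≠ j → |ν (z i)| = 1 / 6) ∨
    (∀ i, |ν (z i)| = 1 / 4) := by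
  classical
  have key : ∀ i, |ν (z i)| = 0 ∨ |ν (z i)| = 1 / 2 ∨
      (|ν (z i)| = 1 / 6 ∧
        (Finset.univ.filter (fun j : Fin 4 => |ν (z j)| = |ν (z i)|)).card = 3) ∨
      (|ν (z i)| = 1 / 4 ∧
        (Finset.univ.filter (fun j : Fin 4 => |ν (z j)| = |ν (z i)|)).card = 4) := by
    intro i
    rcases (abs_nonneg (ν (z i))).eq_or_lt with h0 | h0
    · exact Or.inl h0.symm
    right
    set c := |ν (z i)| with hc
    have hc2 : c ≤ 1 / 2 := hbd _
    obtain ⟨m, hm⟩ := hpat c
    rw [card_eq hιι hν hz hne hall h0] at hm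
    set k := (Finset.univ.filter (fun j : Fin 4 => |ν (z j)| = c)).card with hk
    have hk1 : 1 ≤ k := by
      rw [Nat.one_le_iff_ne_zero, hk, Finset.card_ne_zero]
      exact ⟨i, by simp [hc]⟩
    have hk4 : k ≤ 4 := by
      have h := Finset.card_le_univ (Finset.univ.filter (fun j : Fin 4 => |ν (z j)| = c))
      simpa using h
    have hk1' : (1 : ℝ) ≤ k := by exact_mod_cast hk1
    have hk4' : (k : ℝ) ≤ 4 := by exact_mod_cast hk4
    have hm0 : m ≤ 0 := by
      have : (m : ℝ) ≤ 0 := by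
        rw [← hm]
        nlinarith
      exact_mod_cast this
    have hm1 : -2 < m := by
      have : (-2 : ℝ) < m := by
        rw [← hm]
        nlinarith
      exact_mod_cast this
    have hm' : m = 0 ∨ m = -1 := by omega
    rcases hm' with h | h
    · left
      rw [h, Int.cast_zero] at hm
      rcases mul_eq_zero.mp hm with h1 | h1
      · linarith
      · linarith
    · right
      rw [h] at hm
      push_cast at hm
      have hk' : k = 1 ∨ k = 2 ∨ k = 3 ∨ k = 4 := by omega
      rcases hk' with h1 | h1 | h1 | h1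
      · exfalso
        rw [h1] at hm
        push_cast at hm
        linarith
      · exfalso
        rw [h1] at hm
        push_cast at hm
        linarith
      · left
        refine ⟨?_, h1⟩
        rw [h1] at hm
        push_cast at hm
        linarith
      · right
        refine ⟨?_, h1⟩
        rw [h1] at hm
        push_cast at hm
        linarith
  by_cases h4 : ∃ i, |ν (z i)| = 1 / 4
  · right
    right
    obtain ⟨i, hi⟩ := h4
    rcases key i with h | h | ⟨h, h'⟩ | ⟨h, h'⟩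
    · rw [hi] at h; norm_num at h
    · rw [hi] at h; norm_num at h
    · rw [hi] at h; norm_num at h
    · intro j
      have h1 : (Finset.univ.filter (fun j : Fin 4 => |ν (z j)| = |ν (z i)|)) =
          Finset.univ := by
        rw [← Finset.card_eq_iff_eq_univ, h']
        simp
      have h2 : j ∈ (Finset.univ.filter (fun j : Fin 4 => |ν (z j)| = |ν (z i)|)) := by
        rw [h1]; exact Finset.mem_univ j
      rw [Finset.mem_filter, hi] at h2
      exact h2.2
  by_cases h6 : ∃ i, |ν (z i)| = 1 / 6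
  · right
    left
    obtain ⟨i, hi⟩ := h6
    rcases key i with h | h | ⟨h, h'⟩ | ⟨h, h'⟩
    · rw [hi] at h; norm_num at h
    · rw [hi] at h; norm_num at h
    · rw [hi] at h'
      have h1 : ((Finset.univ.filter (fun j : Fin 4 => |ν (z j)| = 1 / 6))ᶜ).card = 1 := by
        rw [Finset.card_compl, h']
        simp
      obtain ⟨j, hj⟩ := Finset.card_eq_one.mp h1
      have hjm : ∀ l, |ν (z l)| ≠ 1 / 6 ↔ l = j := by
        intro l
        rw [← Finset.mem_singleton, ← hj, Finset.mem_compl, Finset.mem_filter]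
        simp
      refine ⟨j, ?_, ?_⟩
      · rcases key j with h | h | ⟨h, h''⟩ | ⟨h, h''⟩
        · exact Or.inl h
        · exact Or.inr h
        · exact absurd h ((hjm j).mpr rfl)
        · exact absurd ⟨j, h⟩ h4
      · intro l hl
        by_contra hcon
        exact hl ((hjm l).mp hcon)
    · rw [hi] at h; norm_num at h
  · left
    intro i
    rcases key i with h | h | ⟨h, h'⟩ | ⟨h, h'⟩
    · exact Or.inl h
    · exact Or.inr h
    · exact absurd ⟨i, h⟩ h6
    · exact absurd ⟨i, h⟩ h4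

end Pool.Agent.Lib.MP_950c68_ag.Five
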