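import Mathlib
import Pool.Agent.Lib.MP_950c68_ag.OrbSemiTwo

namespace Pool.Agent.Lib.MP_950c68_ag.Five

open MulAction Matrix Pool.Agent.Lib.MP_950c68_ag.Orb

private def Pat (s0 s1 s2 s3 : ℝ) : Prop :=
  ((s0 = 0 ∨ s0 = 1 / 4) ∧ (s1 = 0 ∨ s1 = 1 / 4) ∧ (s2 = 0 ∨ s2 = 1 / 4) ∧
    (s3 = 0 ∨ s3 = 1 / 4)) ∨
  ((s0 = 0 ∨ s0 = 1 / 4) ∧ s1 = 1 / 36 ∧ s2 = 1 / 36 ∧ s3 = 1 / 36) ∨
  ((s1 = 0 ∨ s1 = 1 / 4) ∧ s0 = 1 / 36 ∧ s2 = 1 / 36 ∧ s3 = 1 / 36) ∨
  ((s2 = 0 ∨ s2 = 1 / 4) ∧ s0 = 1 / 36 ∧ s1 = 1 / 36 ∧ s3 = 1 / 36) ∨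
  ((s3 = 0 ∨ s3 = 1 / 4) ∧ s0 = 1 / 36 ∧ s1 = 1 / 36 ∧ s2 = 1 / 36) ∨
  (s0 = 1 / 16 ∧ s1 = 1 / 16 ∧ s2 = 1 / 16 ∧ s3 = 1 / 16)

private theorem core {b c d e v0 v1 v2 v3 : ℝ} (h1 : b ^ 2 + c ^ 2 = 1 / 4)
    (h3 : b ^ 2 + d ^ 2 = 1 / 4) (h4 : c ^ 2 + e ^ 2 = 1 / 4) (h6 : b * c + d * e = 0)
    (hv0 : v0 = 2 * b * v2 + 2 * c * v3) (hv1 : v1 = 2 * d * v2 + 2 * e * v3)
    (hpat : Pat (v0 ^ 2) (v1 ^ 2) (v2 ^ 2) (v3 ^ 2))
    (hne : ¬ (v0 ^ 2 = 0 ∧ v1 ^ 2 = 0 ∧ v2 ^ 2 = 0 ∧ v3 ^ 2 = 0)) :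
    (b = 1 / 2 ∨ b = - 1 / 2) ∨ (c = 1 / 2 ∨ c = - 1 / 2) := by
  have half : ∀ t : ℝ, t ^ 2 = 1 / 4 → t = 1 / 2 ∨ t = - 1 / 2 := by
    intro t ht
    have : (t - 1 / 2) * (t + 1 / 2) = 0 := by linarith [ht, (by ring : (t - 1 / 2) * (t + 1 / 2) = t ^ 2 - 1 / 4)]
    rcases mul_eq_zero.mp this with h | h
    · left; linarith
    · right; linarith
  by_contra hcon
  have hb : b ≠ 0 := by
    rintro rfl
    exact hcon (Or.inr (half c (by linarith)))
  have hc : c ≠ 0 := by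
    rintro rfl
    exact hcon (Or.inl (half b (by linarith)))
  have hsum : v0 ^ 2 + v1 ^ 2 = v2 ^ 2 + v3 ^ 2 := by
    rw [hv0, hv1]
    linear_combination (4 * v2 ^ 2) * h3 + (4 * v3 ^ 2) * h4 + (8 * v2 * v3) * h6
  have hs0 : v0 ^ 2 = 4 * b ^ 2 * v2 ^ 2 + 4 * c ^ 2 * v3 ^ 2 + 8 * (b * c) * (v2 * v3) := by
    rw [hv0]; ring
  have hbc : b * c ≠ 0 := mul_ne_zero hb hc
  have hb2 : 0 < b ^ 2 := by positivity
  have hc2 : 0 < c ^ 2 := by positivity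
  have hvv : (v2 * v3) ^ 2 = v2 ^ 2 * v3 ^ 2 := by ring
  -- all squares equal to `s > 0`
  have hall : ∀ s : ℝ, 0 < s → v0 ^ 2 = s → v2 ^ 2 = s → v3 ^ 2 = s → False := by
    intro s hs e0 e2 e3
    have h : 8 * (b * c) * (v2 * v3) = 0 := by
      rw [e0, e2, e3] at hs0
      linear_combination (-4 * s) * h1 - hs0
    have h' : v2 * v3 = 0 := by
      rcases mul_eq_zero.mp h with h'' | h''
      · exact absurd (by linarith) hbc
      · exact h''
    rw [h', e2, e3] at hvv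
    nlinarith
  -- `v3 = 0` and others
  have h0 : v2 ^ 2 = 0 → v3 ^ 2 = 1 / 4 → (v0 ^ 2 = 0 ∨ v0 ^ 2 = 1 / 4) → False := by
    intro e2 e3 e0
    have h2 : v2 = 0 := by simpa using e2
    rw [h2] at hs0
    rw [e3] at hs0
    rcases e0 with e0 | e0 <;> rw [e0] at hs0 <;> nlinarith
  have h0' : v3 ^ 2 = 0 → v2 ^ 2 = 1 / 4 → (v0 ^ 2 = 0 ∨ v0 ^ 2 = 1 / 4) → False := by
    intro e3 e2 e0
    have h3 : v3 = 0 := by simpa using e3
    rw [h3] at hs0
    rw [e2] at hs0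
    rcases e0 with e0 | e0 <;> rw [e0] at hs0 <;> nlinarith
  rcases hpat with ⟨a0, a1, a2, a3⟩ | ⟨a0, a1, a2, a3⟩ | ⟨a0, a1, a2, a3⟩ | ⟨a0, a1, a2, a3⟩ |
    ⟨a0, a1, a2, a3⟩ | ⟨a0, a1, a2, a3⟩
  · rcases a2 with a2 | a2
    · rcases a3 with a3 | a3
      · apply hne
        refine ⟨?_, ?_, a2, a3⟩
        · rcases a0 with a0 | a0
          · exact a0
          · exfalso
            rw [a2, a3] at hsum
            nlinarith [sq_nonneg v1]
        · rcases a1 with a1 | a1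
          · exact a1
          · exfalso
            rw [a2, a3] at hsum
            nlinarith [sq_nonneg v0]
      · exact h0 a2 a3 a0
    · rcases a3 with a3 | a3
      · exact h0' a3 a2 a0
      · have e0 : v0 ^ 2 = 1 / 4 := by
          rcases a0 with a0 | a0
          · exfalso
            rcases a1 with a1 | a1 <;> linarith
          · exact a0
        exact hall (1 / 4) (by norm_num) e0 a2 a3
  · rcases a0 with a0 | a0 <;> linarith
  · rcases a0 with a0 | a0 <;> linarith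
  · rcases a0 with a0 | a0 <;> linarith
  · rcases a0 with a0 | a0 <;> linarith
  · exact hall (1 / 16) (by norm_num) a0 a2 a3

/-- E2: symmetric idempotent matrices with diagonal `1 / 2`. -/
theorem idempotent_four (P : Matrix (Fin 4) (Fin 4) ℝ) (hT : Pᵀ = P) (hP : P * P = P)
    (hd : ∀ i, P i i = 1 / 2) (v : Fin 4 → ℝ) (hv : P *ᵥ v = v) (hv0 : v ≠ 0)
    (hpat : (∀ i, |v i| = 0 ∨ |v i| = 1 / 2) ∨
      (∃ j, (|v j| = 0 ∨ |v j| = 1 / 2) ∧ ∀ i, i ≠ j → |v i| = 1 / 6) ∨ (∀ i, |v i| = 1 / 4)) :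
    ∃ i j, i ≠ j ∧ (P i j = 1 / 2 ∨ P i j = - 1 / 2) := by
  have hsym : ∀ i j, P j i = P i j := fun i j => congrFun (congrFun hT i) j
  obtain ⟨a, ha⟩ : ∃ a, P 0 1 = a := ⟨_, rfl⟩
  obtain ⟨b, hb⟩ : ∃ a, P 0 2 = a := ⟨_, rfl⟩
  obtain ⟨c, hc⟩ : ∃ a, P 0 3 = a := ⟨_, rfl⟩
  obtain ⟨d, hd'⟩ : ∃ a, P 1 2 = a := ⟨_, rfl⟩
  obtain ⟨e, he⟩ : ∃ a, P 1 3 = a := ⟨_, rfl⟩
  obtain ⟨f, hf⟩ : ∃ a, P 2 3 = a := ⟨_, rfl⟩
  have ha' : P 1 0 = a := by rw [hsym 0 1, ha]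
  have hb' : P 2 0 = b := by rw [hsym 0 2, hb]
  have hc' : P 3 0 = c := by rw [hsym 0 3, hc]
  have hd'' : P 2 1 = d := by rw [hsym 1 2, hd']
  have he' : P 3 1 = e := by rw [hsym 1 3, he]
  have hf' : P 3 2 = f := by rw [hsym 2 3, hf]
  have hPij : ∀ i j, P i 0 * P 0 j + P i 1 * P 1 j + P i 2 * P 2 j + P i 3 * P 3 j = P i j := by
    intro i j
    have h := congrFun (congrFun hP i) j
    rw [Matrix.mul_apply, Fin.sum_univ_four] at h
    exact h
  have hvi : ∀ i, P i 0 * v 0 + P i 1 * v 1 + P i 2 * v 2 + P i 3 * v 3 = v i := by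
    intro i
    have h := congrFun hv i
    rw [Matrix.mulVec, dotProduct, Fin.sum_univ_four] at h
    exact h
  have r00 := hPij 0 0
  have r11 := hPij 1 1
  have r22 := hPij 2 2
  have r33 := hPij 3 3
  have r01 := hPij 0 1
  have r02 := hPij 0 2
  have r03 := hPij 0 3
  have r12 := hPij 1 2
  have r13 := hPij 1 3
  have r23 := hPij 2 3
  have w0 := hvi 0
  have w1 := hvi 1
  have w2 := hvi 2
  have w3 := hvi 3
  simp only [ha, hb, hc, hd', he, hf, ha', hb', hc', hd'', he', hf', hd]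
    at r00 r11 r22 r33 r01 r02 r03 r12 r13 r23 w0 w1 w2 w3
  have hsq : ∀ i (t : ℝ), |v i| = t → v i ^ 2 = t ^ 2 := by
    intro i t ht
    rw [← ht, sq_abs]
  have hQ : Pat (v 0 ^ 2) (v 1 ^ 2) (v 2 ^ 2) (v 3 ^ 2) := by
    have h02 : ∀ i, (|v i| = 0 ∨ |v i| = 1 / 2) → (v i ^ 2 = 0 ∨ v i ^ 2 = 1 / 4) := by
      intro i h
      rcases h with h | h
      · left; rw [hsq i _ h]; norm_num
      · right; rw [hsq i _ h]; norm_num
    have h6 : ∀ i, |v i| = 1 / 6 → v i ^ 2 = 1 / 36 := by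
      intro i h
      rw [hsq i _ h]; norm_num
    have h4 : ∀ i, |v i| = 1 / 4 → v i ^ 2 = 1 / 16 := by
      intro i h
      rw [hsq i _ h]; norm_num
    rcases hpat with h | ⟨j, hj, h⟩ | h
    · exact Or.inl ⟨h02 _ (h 0), h02 _ (h 1), h02 _ (h 2), h02 _ (h 3)⟩
    · fin_cases j
      · exact Or.inr (Or.inl ⟨h02 _ hj, h6 _ (h 1 (by decide)), h6 _ (h 2 (by decide)),
          h6 _ (h 3 (by decide))⟩)
      · exact Or.inr (Or.inr (Or.inl ⟨h02 _ hj, h6 _ (h 0 (by decide)), h6 _ (h 2 (by decide)),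
          h6 _ (h 3 (by decide))⟩))
      · exact Or.inr (Or.inr (Or.inr (Or.inl ⟨h02 _ hj, h6 _ (h 0 (by decide)),
          h6 _ (h 1 (by decide)), h6 _ (h 3 (by decide))⟩)))
      · exact Or.inr (Or.inr (Or.inr (Or.inr (Or.inl ⟨h02 _ hj, h6 _ (h 0 (by decide)),
          h6 _ (h 1 (by decide)), h6 _ (h 2 (by decide))⟩))))
    · exact Or.inr (Or.inr (Or.inr (Or.inr (Or.inr ⟨h4 _ (h 0), h4 _ (h 1), h4 _ (h 2),
        h4 _ (h 3)⟩))))
  have hne : ¬ (v 0 ^ 2 = 0 ∧ v 1 ^ 2 = 0 ∧ v 2 ^ 2 = 0 ∧ v 3 ^ 2 = 0) := by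
    rintro ⟨z0, z1, z2, z3⟩
    apply hv0
    funext i
    fin_cases i
    · simpa using z0
    · simpa using z1
    · simpa using z2
    · simpa using z3
  have hprod : a * b * c = 0 := by
    by_contra habc
    have ha0 : a ≠ 0 := fun h => habc (by rw [h]; ring)
    have hb0 : b ≠ 0 := fun h => habc (by rw [h]; ring)
    have hc0 : c ≠ 0 := fun h => habc (by rw [h]; ring)
    -- b d + c e = 0, a d + c f = 0, a e + b f = 0
    have k1 : b * d + c * e = 0 := by linarith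
    have k2 : a * d + c * f = 0 := by linarith
    have k3 : a * e + b * f = 0 := by linarith
    have k4 : a * (b * d) = b * (a * d) := by ring
    have k5 : a * (c * e) = b * (c * f) := by
      have : a * (b * d) + a * (c * e) = 0 := by rw [← mul_add, k1, mul_zero]
      have h2 : b * (a * d) + b * (c * f) = 0 := by rw [← mul_add, k2, mul_zero]
      linarith
    have k6 : c * (a * e - b * f) = 0 := by linarith
    have k7 : a * e - b * f = 0 := by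
      rcases mul_eq_zero.mp k6 with h | h
      · exact absurd h hc0
      · exact h
    have k8 : a * e = 0 := by linarith
    have he0 : e = 0 := by
      rcases mul_eq_zero.mp k8 with h | h
      · exact absurd h ha0
      · exact h
    have hb2 : b ^ 2 = e ^ 2 := by linear_combination (r00 + r22 - r11 - r33) / 2
    rw [he0] at hb2
    exact hb0 (by simpa using hb2)
  rcases mul_eq_zero.mp hprod with hab | hc0
  · rcases mul_eq_zero.mp hab with ha0 | hb0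
    · have hf0 : f = 0 := by
        have : a ^ 2 = f ^ 2 := by linear_combination (r00 + r11 - r22 - r33) / 2
        rw [ha0] at this
        have h := this.symm
        simpa using h
      subst ha0 hf0
      have h := core (b := b) (c := c) (d := d) (e := e) (v0 := v 0) (v1 := v 1) (v2 := v 2)
        (v3 := v 3) (by linarith) (by linarith) (by linarith) (by linarith) (by linarith)
        (by linarith) hQ hne
      rcases h with h | h
      · exact ⟨0, 2, by decide, by rw [hb]; exact h⟩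
      · exact ⟨0, 3, by decide, by rw [hc]; exact h⟩
    · have he0 : e = 0 := by
        have : b ^ 2 = e ^ 2 := by linear_combination (r00 + r22 - r11 - r33) / 2
        rw [hb0] at this
        have h := this.symm
        simpa using h
      subst hb0 he0
      have hQ' : Pat (v 0 ^ 2) (v 2 ^ 2) (v 1 ^ 2) (v 3 ^ 2) := by
        rcases hQ with ⟨a0, a1, a2, a3⟩ | ⟨a0, a1, a2, a3⟩ | ⟨a0, a1, a2, a3⟩ |
          ⟨a0, a1, a2, a3⟩ | ⟨a0, a1, a2, a3⟩ | ⟨a0, a1, a2, a3⟩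
        · exact Or.inl ⟨a0, a2, a1, a3⟩
        · exact Or.inr (Or.inl ⟨a0, a2, a1, a3⟩)
        · exact Or.inr (Or.inr (Or.inr (Or.inl ⟨a0, a1, a2, a3⟩)))
        · exact Or.inr (Or.inr (Or.inl ⟨a0, a1, a2, a3⟩))
        · exact Or.inr (Or.inr (Or.inr (Or.inr (Or.inl ⟨a0, a1, a3, a2⟩))))
        · exact Or.inr (Or.inr (Or.inr (Or.inr (Or.inr ⟨a0, a2, a1, a3⟩))))
      have h := core (b := a) (c := c) (d := d) (e := f) (v0 := v 0) (v1 := v 2) (v2 := v 1)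
        (v3 := v 3) (by linarith) (by linarith) (by linarith) (by linarith) (by linarith)
        (by linarith) hQ' (fun h => hne ⟨h.1, h.2.2.1, h.2.1, h.2.2.2⟩)
      rcases h with h | h
      · exact ⟨0, 1, by decide, by rw [ha]; exact h⟩
      · exact ⟨0, 3, by decide, by rw [hc]; exact h⟩
  · have hd0 : d = 0 := by
      have : c ^ 2 = d ^ 2 := by linear_combination (r00 + r33 - r11 - r22) / 2
      rw [hc0] at this
      have h := this.symm
      simpa using h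
    subst hc0 hd0
    have hQ' : Pat (v 0 ^ 2) (v 3 ^ 2) (v 1 ^ 2) (v 2 ^ 2) := by
      rcases hQ with ⟨a0, a1, a2, a3⟩ | ⟨a0, a1, a2, a3⟩ | ⟨a0, a1, a2, a3⟩ |
        ⟨a0, a1, a2, a3⟩ | ⟨a0, a1, a2, a3⟩ | ⟨a0, a1, a2, a3⟩
      · exact Or.inl ⟨a0, a3, a1, a2⟩
      · exact Or.inr (Or.inl ⟨a0, a3, a1, a2⟩)
      · exact Or.inr (Or.inr (Or.inr (Or.inl ⟨a0, a1, a3, a2⟩)))
      · exact Or.inr (Or.inr (Or.inr (Or.inr (Or.inl ⟨a0, a1, a3, a2⟩))))
      · exact Or.inr (Or.inr (Or.inl ⟨a0, a1, a2, a3⟩))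
      · exact Or.inr (Or.inr (Or.inr (Or.inr (Or.inr ⟨a0, a3, a1, a2⟩))))
    have h := core (b := a) (c := b) (d := e) (e := f) (v0 := v 0) (v1 := v 3) (v2 := v 1)
      (v3 := v 2) (by linarith) (by linarith) (by linarith) (by linarith) (by linarith)
      (by linarith) hQ' (fun h => hne ⟨h.1, h.2.2.1, h.2.2.2, h.2.1⟩)
    rcases h with h | h
    · exact ⟨0, 1, by decide, by rw [ha]; exact h⟩
    · exact ⟨0, 2, by decide, by rw [hb]; exact h⟩

/-- E2': a large entry. -/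
theorem idempotent_four_entry (P : Matrix (Fin 4) (Fin 4) ℝ) (hT : Pᵀ = P) (hP : P * P = P)
    (hd : ∀ i, P i i = 1 / 2) {i j : Fin 4} (hij : i ≠ j) {ε : ℝ} (hε : ε = 1 ∨ ε = -1)
    (h : P i j = ε / 2) (v : Fin 4 → ℝ) (hv : P *ᵥ v = v) : v i = ε * v j := by
  have hsym : ∀ i j, P j i = P i j := fun i j => congrFun (congrFun hT i) j
  have hrow : ∑ k, P i k ^ 2 = 1 / 2 := by
    have h1 := congrFun (congrFun hP i) i
    rw [Matrix.mul_apply, hd i] at h1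
    rw [← h1]
    refine Finset.sum_congr rfl fun k _ => ?_
    rw [hsym i k, sq]
  have hε2 : ε ^ 2 = 1 := by rcases hε with h | h <;> rw [h] <;> norm_num
  have hzero : ∀ k, k ≠ i → k ≠ j → P i k = 0 := by
    intro k hki hkj
    have hle : ∑ l ∈ ({i, j, k} : Finset (Fin 4)), P i l ^ 2 ≤ ∑ l, P i l ^ 2 :=
      Finset.sum_le_sum_of_subset_of_nonneg (Finset.subset_univ _) fun l _ _ => sq_nonneg _
    rw [hrow, Finset.sum_insert (by simp [hij, hki.symm]), Finset.sum_insert (by simp [hkj.symm]),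
      Finset.sum_singleton, hd i, h] at hle
    have h3 : P i k ^ 2 ≤ 0 := by nlinarith
    have h4 : P i k ^ 2 = 0 := le_antisymm h3 (sq_nonneg _)
    simpa using h4
  have h2 := congrFun hv i
  rw [Matrix.mulVec, dotProduct, Finset.sum_eq_add i j hij
    (fun k _ hk => by rw [hzero k hk.1 hk.2, zero_mul]) (by simp) (by simp), hd i, h] at h2
  linarith

end Pool.Agent.Lib.MP_950c68_ag.Five
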