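import Mathlib
import Pool.Agent.Lib.MP_950c68_ag.OrbSemiTwo

namespace Pool.Agent.Lib.MP_950c68_ag.Five

open MulAction Matrix Pool.Agent.Lib.MP_950c68_ag.Orb

private theorem exists_proj_aux (S : Submodule ℝ (Fin 4 → ℝ)) :
    ∃ P : Matrix (Fin 4) (Fin 4) ℝ, Pᵀ = P ∧ P * P = P ∧
      P.trace = (Module.finrank ℝ S : ℝ) ∧ (∀ v ∈ S, P *ᵥ v = v) ∧ ∀ v, P *ᵥ v ∈ S := by
  let e := WithLp.linearEquiv 2 ℝ (Fin 4 → ℝ)
  let S' : Submodule ℝ (EuclideanSpace ℝ (Fin 4)) := S.comap e.toLinearMap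
  let f : EuclideanSpace ℝ (Fin 4) →ₗ[ℝ] EuclideanSpace ℝ (Fin 4) := S'.starProjection.toLinearMap
  let g : (Fin 4 → ℝ) →ₗ[ℝ] (Fin 4 → ℝ) := e.toLinearMap ∘ₗ f ∘ₗ e.symm.toLinearMap
  have hgmem : ∀ x, g x ∈ S := by
    intro x
    have h : f (e.symm x) ∈ S' := Submodule.starProjection_apply_mem S' _
    exact h
  have hgid : ∀ x ∈ S, g x = x := by
    intro x hx
    have hx' : e.symm x ∈ S' := by
      change e (e.symm x) ∈ S
      rw [LinearEquiv.apply_symm_apply]
      exact hx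
    have h : f (e.symm x) = e.symm x := Submodule.starProjection_eq_self_iff.mpr hx'
    change e (f (e.symm x)) = x
    rw [h, LinearEquiv.apply_symm_apply]
  have hproj : LinearMap.IsProj S g := ⟨hgmem, hgid⟩
  have hsym : ∀ x y : Fin 4 → ℝ, g x ⬝ᵥ y = x ⬝ᵥ g y := by
    intro x y
    have h := Submodule.inner_starProjection_left_eq_right S' (e.symm x) (e.symm y)
    have h1 : inner ℝ (S'.starProjection (e.symm x)) (e.symm y) = g x ⬝ᵥ y := by
      rw [EuclideanSpace.inner_eq_star_dotProduct]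
      simp only [star_trivial]
      rw [dotProduct_comm]
      rfl
    have h2 : inner ℝ (e.symm x) (S'.starProjection (e.symm y)) = x ⬝ᵥ g y := by
      rw [EuclideanSpace.inner_eq_star_dotProduct]
      simp only [star_trivial]
      rw [dotProduct_comm]
      rfl
    rw [← h1, ← h2, h]
  refine ⟨LinearMap.toMatrix' g, ?_, ?_, ?_, ?_, ?_⟩
  · ext i j
    rw [Matrix.transpose_apply, LinearMap.toMatrix'_apply, LinearMap.toMatrix'_apply]
    have h := hsym (Pi.single i 1) (Pi.single j 1)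
    rw [dotProduct_single_one, single_one_dotProduct] at h
    exact h
  · rw [← LinearMap.toMatrix'_comp]
    congr 1
    exact LinearMap.ext fun x => hgid _ (hgmem _)
  · rw [← LinearMap.toMatrix_eq_toMatrix', ← LinearMap.trace_eq_matrix_trace ℝ (Pi.basisFun ℝ (Fin 4))]
    exact hproj.trace
  · intro v hv
    rw [LinearMap.toMatrix'_mulVec]
    exact hgid v hv
  · intro v
    rw [LinearMap.toMatrix'_mulVec]
    exact hgmem v

/-- E3: the orthogonal projection onto a subspace with a transitive group of signed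
permutations. -/
theorem exists_proj (S : Submodule ℝ (Fin 4 → ℝ))
    (hS : ∀ i j : Fin 4, ∃ (π : Equiv.Perm (Fin 4)) (σ : Fin 4 → ℝ), (∀ k, σ k = 1 ∨ σ k = -1) ∧
      π i = j ∧ ∀ v ∈ S, (fun k => σ k * v (π k)) ∈ S) :
    ∃ P : Matrix (Fin 4) (Fin 4) ℝ, Pᵀ = P ∧ P * P = P ∧
      (∀ i, P i i = (Module.finrank ℝ S : ℝ) / 4) ∧ ∀ v ∈ S, P *ᵥ v = v := by
  obtain ⟨P, hT, hP, htr, hv, hmem⟩ := exists_proj_aux S
  refine ⟨P, hT, hP, ?_, hv⟩
  have hsym : ∀ i j, P j i = P i j := fun i j => congrFun (congrFun hT i) j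
  -- columns
  have hcol : ∀ j, (fun k => P k j) ∈ S := by
    intro j
    have h := hmem (Pi.single j 1)
    rw [Matrix.mulVec_single_one] at h
    exact h
  have hnorm : ∀ j, ∑ k, P k j ^ 2 = P j j := by
    intro j
    have h := congrFun (congrFun hP j) j
    rw [Matrix.mul_apply] at h
    rw [← h]
    refine Finset.sum_congr rfl fun k _ => ?_
    rw [sq, hsym k j]
  have hnn : ∀ j, 0 ≤ P j j := fun j => by
    rw [← hnorm j]
    exact Finset.sum_nonneg fun k _ => sq_nonneg _
  have hle : ∀ i j, P j j ≤ P i i := by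
    intro i j
    obtain ⟨π, σ, hσ, hπ, hinv⟩ := hS i j
    have hw := hinv _ (hcol j)
    set w : Fin 4 → ℝ := fun k => σ k * P (π k) j with hwdef
    have hσ2 : ∀ k, σ k ^ 2 = 1 := fun k => by
      rcases hσ k with h | h <;> rw [h] <;> norm_num
    have hwn : ∑ k, w k ^ 2 = P j j := by
      rw [← hnorm j, ← Equiv.sum_comp π (fun k => P k j ^ 2)]
      refine Finset.sum_congr rfl fun k _ => ?_
      rw [hwdef]
      simp only
      rw [mul_pow, hσ2, one_mul]
    have hwi : ∑ k, P k i * w k = w i := by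
      have h := congrFun (hv w hw) i
      rw [Matrix.mulVec, dotProduct] at h
      rw [← h]
      refine Finset.sum_congr rfl fun k _ => ?_
      rw [hsym i k]
    have hcs := Finset.sum_mul_sq_le_sq_mul_sq Finset.univ (fun k => P k i) w
    rw [hwi, hnorm i, hwn] at hcs
    have hwi2 : w i ^ 2 = P j j ^ 2 := by
      rw [hwdef]
      simp only
      rw [mul_pow, hσ2, one_mul, hπ]
    rw [hwi2] at hcs
    rcases (hnn j).eq_or_lt with h0 | h0
    · rw [← h0]; exact hnn i
    · nlinarith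
  have heq : ∀ i j, P i i = P j j := fun i j => le_antisymm (hle j i) (hle i j)
  intro i
  rw [← htr, Matrix.trace, Fin.sum_univ_four]
  simp only [Matrix.diag_apply]
  rw [heq 0 i, heq 1 i, heq 2 i, heq 3 i]
  ring

end Pool.Agent.Lib.MP_950c68_ag.Five
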