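import Mathlib
import Pool.Agent.Lib.MP_950c68_ag.OrbSemiTwo
import Pool.Agent.Lib.MP_950c68_ag.Five.E0
import Pool.Agent.Lib.MP_950c68_ag.Five.E1
import Pool.Agent.Lib.MP_950c68_ag.Five.E2
import Pool.Agent.Lib.MP_950c68_ag.Five.E3

namespace Pool.Agent.Lib.MP_950c68_ag.Five

open MulAction Matrix Pool.Agent.Lib.MP_950c68_ag.Orb

private theorem finrank_le_two (S : Submodule ℝ (Fin 4 → ℝ)) (a b : Fin 4 → ℝ)
    (hli : LinearIndependent ℝ ![a, b]) (ha : ∀ v ∈ S, a ⬝ᵥ v = 0) (hb : ∀ v ∈ S, b ⬝ᵥ v = 0) :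
    Module.finrank ℝ S ≤ 2 := by
  let M : Matrix (Fin 2) (Fin 4) ℝ := Matrix.of ![a, b]
  have h1 : M.rank = 2 := by
    have := LinearIndependent.rank_matrix (M := M) hli
    simpa using this
  have h2 : S ≤ LinearMap.ker M.mulVecLin := by
    intro v hv
    rw [LinearMap.mem_ker]
    ext i
    fin_cases i
    · exact ha v hv
    · exact hb v hv
  have h3 := LinearMap.finrank_range_add_finrank_ker M.mulVecLin
  have h4 : Module.finrank ℝ (LinearMap.range M.mulVecLin) = 2 := h1
  rw [h4, Module.finrank_fin_fun] at h3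
  have h5 := Submodule.finrank_mono h2
  omega

private theorem indep_pair {a b : Fin 4 → ℝ} (hn : ∑ i, a i ^ 2 = ∑ i, b i ^ 2)
    (h1 : b ≠ a) (h2 : b ≠ -a) : LinearIndependent ℝ ![a, b] := by
  rw [LinearIndependent.pair_iff]
  intro s t hst
  have hst' : ∀ i, s * a i + t * b i = 0 := fun i => by
    have := congrFun hst i
    simpa using this
  have hpos : ∑ i, a i ^ 2 ≠ 0 := by
    intro h0
    have ha : a = 0 := by
      ext i
      have h3 := (Finset.sum_eq_zero_iff_of_nonneg (fun i _ => sq_nonneg (a i))).mp h0 i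
        (Finset.mem_univ i)
      simpa using h3
    have hb : b = 0 := by
      ext i
      rw [h0] at hn
      have h3 := (Finset.sum_eq_zero_iff_of_nonneg (fun i _ => sq_nonneg (b i))).mp hn.symm i
        (Finset.mem_univ i)
      simpa using h3
    exact h1 (by rw [ha, hb])
  have h3 : s ^ 2 * ∑ i, a i ^ 2 = t ^ 2 * ∑ i, b i ^ 2 := by
    rw [Finset.mul_sum, Finset.mul_sum]
    refine Finset.sum_congr rfl fun i _ => ?_
    have h4 : s * a i = - (t * b i) := by linarith [hst' i]
    calc s ^ 2 * a i ^ 2 = (s * a i) ^ 2 := by ring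
      _ = t ^ 2 * b i ^ 2 := by rw [h4]; ring
  rw [← hn] at h3
  have h4 : s ^ 2 = t ^ 2 := mul_right_cancel₀ hpos h3
  have h5 : t = 0 := by
    by_contra ht
    rcases sq_eq_sq_iff_eq_or_eq_neg.mp h4 with h | h
    · apply h2
      ext i
      have h6 := hst' i
      rw [h] at h6
      have h7 : t * (b i + a i) = 0 := by linarith
      have h8 := (mul_eq_zero.mp h7).resolve_left ht
      rw [Pi.neg_apply]
      linarith
    · apply h1
      ext i
      have h6 := hst' i
      rw [h] at h6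
      have h7 : t * (b i - a i) = 0 := by linarith
      have h8 := (mul_eq_zero.mp h7).resolve_left ht
      linarith
  refine ⟨?_, h5⟩
  rw [h5] at h4
  simpa using h4

/-- The sum over the orbit. -/
private theorem sum_reps {G Ω : Type*} [Group G] [MulAction G Ω] [Fintype Ω] {ι : G}
    (hιne : ∀ y : Ω, ι • y ≠ y) {x : Ω}
    {z : Fin 4 → Ω} (hne : ∀ i j, i ≠ j → z i ≠ z j ∧ z i ≠ ι • z j)
    (hall : ∀ y ∈ orbit G x, ∃ i, y = z i ∨ y = ι • z i) (f : Ω → ℝ)
    (hf : ∀ y ∉ orbit G x, f y = 0) (hev : ∀ y, f (ι • y) = f y) :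
    ∑ y, f y = 2 * ∑ i, f (z i) := by
  let e : Fin 4 × Bool → Ω := fun p => if p.2 then z p.1 else ι • z p.1
  have he : Function.Injective e := by
    rintro ⟨i, s⟩ ⟨j, t⟩ h
    by_cases hij : i = j
    · subst hij
      cases s <;> cases t
      · rfl
      · exact absurd (by simpa [e] using h) (hιne (z i))
      · exact absurd (by simpa [e] using h.symm) (hιne (z i))
      · rfl
    · exfalso
      cases s <;> cases t
      · have h1 : ι • z i = ι • z j := by simpa [e] using h
        exact (hne i j hij).1 (smul_left_cancel ι h1)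
      · have h1 : ι • z i = z j := by simpa [e] using h
        exact (hne j i (Ne.symm hij)).2 h1.symm
      · have h1 : z i = ι • z j := by simpa [e] using h
        exact (hne i j hij).2 h1
      · have h1 : z i = z j := by simpa [e] using h
        exact (hne i j hij).1 h1
  rw [← Fintype.sum_of_injective e he (fun p => f (z p.1)) f ?_ ?_]
  · rw [Fintype.sum_prod_type]
    simp only [Fintype.sum_bool]
    rw [Finset.mul_sum]
    exact Finset.sum_congr rfl fun i _ => by ring
  · intro y hy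
    apply hf
    intro hy'
    obtain ⟨i, h | h⟩ := hall y hy'
    · exact hy ⟨(i, true), by simp [e, h]⟩
    · exact hy ⟨(i, false), by simp [e, h]⟩
  · rintro ⟨i, s⟩
    cases s
    · simp [e, hev]
    · simp [e]

/-- E4: relations on an orbit with eight elements are constant up to sign. -/
theorem eight_const {G Ω : Type*} [Group G] [MulAction G Ω] [Finite G] [Fintype Ω] {ι : G}
    (hι : ∀ (g : G) (y : Ω), g • ι • y = ι • g • y) (hιι : ∀ y : Ω, ι • ι • y = y)
    (hιne : ∀ y : Ω, ι • y ≠ y) {x : Ω} (hcard : Nat.card (orbit G x) = 8)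
    {ν : Ω → ℝ} (hν : ∀ y, ν (ι • y) = - ν y) (hbd : ∀ y, |ν y| ≤ 1 / 2)
    (hpat : ∀ c : ℝ, ∃ m : ℤ, (Nat.card {z : orbit G x // ν z = c} : ℝ) * (c - 1 / 2) = m)
    (hsep : ∀ y ∈ orbit G x, ∀ z ∈ orbit G x, (∀ g : G, ν (g • y) = ν (g • z)) → y = z)
    {r : Ω → ℤ} (hr : ∀ y, r (ι • y) = - r y) (hsupp : ∀ y ∉ orbit G x, r y = 0)
    (hrel : ∀ g : G, ∑ z, (r z : ℝ) * ν (g • z) = 0) : SemiInv G r x := by
  obtain ⟨z, hz, hne, hall⟩ := exists_reps hιι hιne hcard
  -- the separation property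
  have hcontra : ∀ i j, i ≠ j → ∀ ε : ℝ, (ε = 1 ∨ ε = -1) →
      (∀ h : G, ν (h • z i) = ε * ν (h • z j)) → False := by
    intro i j hij ε hε h
    rcases hε with rfl | rfl
    · exact (hne i j hij).1 (hsep _ (hz i) _ (hz j) fun g => by rw [h g, one_mul])
    · refine (hne i j hij).2 (hsep _ (hz i) _ (mem_orbit_smul ι (hz j)) fun g => ?_)
      rw [h g, hι, hν, neg_one_mul]
  let V : G → Fin 4 → ℝ := fun h i => ν (h • z i)
  let S : Submodule ℝ (Fin 4 → ℝ) := Submodule.span ℝ (Set.range V)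
  have hVS : ∀ h, V h ∈ S := fun h => Submodule.subset_span ⟨h, rfl⟩
  -- orthogonality
  have horth : ∀ g h : G, ∑ i, (r (g • z i) : ℝ) * ν (h • z i) = 0 := by
    intro g h
    have h1 : ∑ y, (r (g • y) : ℝ) * ν (h • y) = 0 := by
      rw [← hrel (h * g⁻¹)]
      refine Fintype.sum_equiv (MulAction.toPerm g) _ _ fun y => ?_
      rw [MulAction.toPerm_apply, smul_smul, inv_mul_cancel_right]
    rw [sum_reps hιne hne hall _ ?_ ?_] at h1
    · linarith
    · intro y hy
      rw [hsupp _ (notMem_orbit_smul g hy)]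
      simp
    · intro y
      rw [hι, hr, hι, hν]
      push_cast
      ring
  by_contra hcon
  unfold SemiInv at hcon
  push Not at hcon
  obtain ⟨g, ⟨y1, hy1, hg1⟩, ⟨y2, hy2, hg2⟩⟩ := hcon
  let a : Fin 4 → ℝ := fun i => r (z i)
  let b : Fin 4 → ℝ := fun i => r (g • z i)
  have hba : b ≠ a := by
    intro h
    have h' : ∀ i, r (g • z i) = r (z i) := fun i => by
      have := congrFun h i
      simpa [a, b] using this
    obtain ⟨i, e | e⟩ := hall y1 hy1
    · exact hg1 (by rw [e, h'])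
    · exact hg1 (by rw [e, hι, hr, hr, h'])
  have hba' : b ≠ -a := by
    intro h
    have h' : ∀ i, r (g • z i) = - r (z i) := fun i => by
      have := congrFun h i
      simp only [a, b, Pi.neg_apply] at this
      exact_mod_cast this
    obtain ⟨i, e | e⟩ := hall y2 hy2
    · exact hg2 (by rw [e, h'])
    · exact hg2 (by rw [e, hι, hr, hr, h'])
  have hnorm : ∑ i, a i ^ 2 = ∑ i, b i ^ 2 := by
    have h1 : ∑ y, (r (g • y) : ℝ) ^ 2 = ∑ y, (r y : ℝ) ^ 2 :=
      Fintype.sum_equiv (MulAction.toPerm g) _ _ fun y => rfl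
    rw [sum_reps hιne hne hall (fun y => (r (g • y) : ℝ) ^ 2) ?_ ?_,
      sum_reps hιne hne hall (fun y => (r y : ℝ) ^ 2) ?_ ?_] at h1
    · simp only [a, b]
      linarith
    · intro y hy
      rw [hsupp y hy]
      simp
    · intro y
      rw [hr]
      push_cast
      ring
    · intro y hy
      rw [hsupp _ (notMem_orbit_smul g hy)]
      simp
    · intro y
      rw [hι, hr]
      push_cast
      ring
  have hle : Module.finrank ℝ S ≤ 2 := by
    refine finrank_le_two S a b (indep_pair hnorm hba hba') (fun v hv => ?_) (fun v hv => ?_)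
    · refine Submodule.span_induction (p := fun v _ => a ⬝ᵥ v = 0) ?_ ?_ ?_ ?_ hv
      · rintro _ ⟨h, rfl⟩
        have := horth 1 h
        simpa [dotProduct, a, V] using this
      · exact dotProduct_zero a
      · intro u w _ _ hu hw
        rw [dotProduct_add, hu, hw, add_zero]
      · intro c u _ hu
        rw [dotProduct_smul, hu, smul_zero]
    · refine Submodule.span_induction (p := fun v _ => b ⬝ᵥ v = 0) ?_ ?_ ?_ ?_ hv
      · rintro _ ⟨h, rfl⟩
        have := horth g h
        simpa [dotProduct, b, V] using this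
      · exact dotProduct_zero b
      · intro u w _ _ hu hw
        rw [dotProduct_add, hu, hw, add_zero]
      · intro c u _ hu
        rw [dotProduct_smul, hu, smul_zero]
  -- signed permutations
  have hS : ∀ i j : Fin 4, ∃ (π : Equiv.Perm (Fin 4)) (σ : Fin 4 → ℝ),
      (∀ k, σ k = 1 ∨ σ k = -1) ∧ π i = j ∧ ∀ v ∈ S, (fun k => σ k * v (π k)) ∈ S := by
    intro i j
    obtain ⟨s, hs⟩ : ∃ s : G, s • z i = z j := by
      obtain ⟨s1, hs1⟩ := hz i
      obtain ⟨s2, hs2⟩ := hz j
      refine ⟨s2 * s1⁻¹, ?_⟩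
      simp only at hs1 hs2
      rw [← hs1, ← hs2, smul_smul, inv_mul_cancel_right]
    have h1 : ∀ k, ∃ l : Fin 4, ∃ ε : ℝ, (ε = 1 ∧ s • z k = z l) ∨ (ε = -1 ∧ s • z k = ι • z l) := by
      intro k
      obtain ⟨l, h | h⟩ := hall _ (mem_orbit_smul s (hz k))
      · exact ⟨l, 1, Or.inl ⟨rfl, h⟩⟩
      · exact ⟨l, -1, Or.inr ⟨rfl, h⟩⟩
    choose π σ hπ using h1
    have hinj : Function.Injective π := by
      intro k l hkl
      by_contra hne'
      have h2 := hπ k
      have h3 := hπ l
      rw [← hkl] at h3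
      rcases h2 with ⟨_, h2⟩ | ⟨_, h2⟩ <;> rcases h3 with ⟨_, h3⟩ | ⟨_, h3⟩
      · exact (hne k l hne').1 (smul_left_cancel s (h2.trans h3.symm))
      · refine (hne k l hne').2 (smul_left_cancel s ?_)
        rw [hι, h3, h2, hιι]
      · refine (hne k l hne').2 (smul_left_cancel s ?_)
        rw [hι, h3, h2]
      · exact (hne k l hne').1 (smul_left_cancel s (h2.trans h3.symm))
    have hbij : Function.Bijective π := Finite.injective_iff_bijective.mp hinj
    have hν' : ∀ (h : G) (k : Fin 4), ν ((h * s) • z k) = σ k * ν (h • z (π k)) := by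
      intro h k
      rw [mul_smul]
      rcases hπ k with ⟨h2, h3⟩ | ⟨h2, h3⟩
      · rw [h2, h3, one_mul]
      · rw [h2, h3, hι, hν, neg_one_mul]
    refine ⟨Equiv.ofBijective π hbij, σ, fun k => ?_, ?_, fun v hv => ?_⟩
    · rcases hπ k with ⟨h2, _⟩ | ⟨h2, _⟩
      · exact Or.inl h2
      · exact Or.inr h2
    · rw [Equiv.ofBijective_apply]
      by_contra hne'
      rcases hπ i with ⟨_, h3⟩ | ⟨_, h3⟩
      · exact (hne j (π i) (Ne.symm hne')).1 (hs.symm.trans h3)
      · exact (hne j (π i) (Ne.symm hne')).2 (hs.symm.trans h3)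
    · refine Submodule.span_induction (p := fun v _ => (fun k => σ k * v (π k)) ∈ S) ?_ ?_ ?_ ?_ hv
      · rintro _ ⟨h, rfl⟩
        have h2 : (fun k => σ k * V h (π k)) = V (h * s) := by
          ext k
          exact (hν' h k).symm
        rw [h2]
        exact hVS _
      · have h2 : (fun k => σ k * (0 : Fin 4 → ℝ) (π k)) = 0 := by
          ext k
          simp
        rw [h2]
        exact S.zero_mem
      · intro u w _ _ hu hw
        have h2 : (fun k => σ k * (u + w) (π k)) =
            (fun k => σ k * u (π k)) + fun k => σ k * w (π k) := by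
          ext k
          simp only [Pi.add_apply]
          ring
        rw [h2]
        exact S.add_mem hu hw
      · intro c u _ hu
        have h2 : (fun k => σ k * (c • u) (π k)) = c • fun k => σ k * u (π k) := by
          ext k
          simp only [Pi.smul_apply, smul_eq_mul]
          ring
        rw [h2]
        exact S.smul_mem c hu
  -- some vector is not zero
  obtain ⟨h0, hh0⟩ : ∃ h, V h ≠ 0 := by
    by_contra hall0
    push Not at hall0
    have h1 : ∀ (h : G) (i : Fin 4), ν (h • z i) = 0 := fun h i => congrFun (hall0 h) i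
    exact hcontra 0 1 (by decide) 1 (Or.inl rfl) fun h => by rw [h1, h1, mul_zero]
  have hpos : 0 < Module.finrank ℝ S := by
    rw [Module.finrank_pos_iff]
    exact ⟨⟨⟨V h0, hVS h0⟩, 0, fun e => hh0 (congrArg Subtype.val e)⟩⟩
  rcases (show Module.finrank ℝ S = 1 ∨ Module.finrank ℝ S = 2 by omega) with hd | hd
  · -- dimension one
    obtain ⟨u, hu0, hu⟩ := finrank_eq_one_iff'.mp hd
    have hu0' : (u : Fin 4 → ℝ) ≠ 0 := fun e => hu0 (Subtype.ext e)
    obtain ⟨π, σ, hσ, hπ, hmem⟩ := hS 0 1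
    obtain ⟨c, hc⟩ := hu ⟨_, hmem u u.2⟩
    have hc' : ∀ k, c * (u : Fin 4 → ℝ) k = σ k * (u : Fin 4 → ℝ) (π k) := by
      intro k
      have := congrFun (congrArg Subtype.val hc) k
      simpa using this
    have hsq : ∀ k, c ^ 2 * (u : Fin 4 → ℝ) k ^ 2 = (u : Fin 4 → ℝ) (π k) ^ 2 := by
      intro k
      calc c ^ 2 * (u : Fin 4 → ℝ) k ^ 2 = (c * (u : Fin 4 → ℝ) k) ^ 2 := by ring
        _ = σ k ^ 2 * (u : Fin 4 → ℝ) (π k) ^ 2 := by rw [hc' k]; ring
        _ = (u : Fin 4 → ℝ) (π k) ^ 2 := by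
          rcases hσ k with e | e <;> rw [e] <;> ring
    have hsum : c ^ 2 * ∑ k, (u : Fin 4 → ℝ) k ^ 2 = ∑ k, (u : Fin 4 → ℝ) k ^ 2 := by
      rw [Finset.mul_sum, Finset.sum_congr rfl fun k _ => hsq k]
      exact Fintype.sum_equiv π _ _ fun k => rfl
    have hne0 : ∑ k, (u : Fin 4 → ℝ) k ^ 2 ≠ 0 := by
      intro h
      apply hu0'
      ext i
      have h3 := (Finset.sum_eq_zero_iff_of_nonneg
        (fun i _ => sq_nonneg ((u : Fin 4 → ℝ) i))).mp h i (Finset.mem_univ i)
      simpa using h3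
    have hc1 : c ^ 2 = 1 := by
      have h2 : (c ^ 2 - 1) * ∑ k, (u : Fin 4 → ℝ) k ^ 2 = 0 := by linarith
      have := (mul_eq_zero.mp h2).resolve_right hne0
      linarith
    have h01 := hsq 0
    rw [hc1, one_mul, hπ] at h01
    rcases sq_eq_sq_iff_eq_or_eq_neg.mp h01 with e | e
    · refine hcontra 0 1 (by decide) 1 (Or.inl rfl) fun h => ?_
      obtain ⟨d, hd'⟩ := hu ⟨V h, hVS h⟩
      have h2 : ∀ k, d * (u : Fin 4 → ℝ) k = ν (h • z k) := by
        intro k
        have := congrFun (congrArg Subtype.val hd') k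
        simpa [V] using this
      rw [← h2, ← h2, e, one_mul]
    · refine hcontra 0 1 (by decide) (-1) (Or.inr rfl) fun h => ?_
      obtain ⟨d, hd'⟩ := hu ⟨V h, hVS h⟩
      have h2 : ∀ k, d * (u : Fin 4 → ℝ) k = ν (h • z k) := by
        intro k
        have := congrFun (congrArg Subtype.val hd') k
        simpa [V] using this
      rw [← h2, ← h2, e]
      ring
  · -- dimension two
    obtain ⟨P, hPT, hPP, hPd, hPS⟩ := exists_proj S hS
    have hPd' : ∀ i, P i i = 1 / 2 := fun i => by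
      rw [hPd i, hd]
      norm_num
    have hpat' : ∀ c : ℝ, ∃ m : ℤ,
        (Nat.card {y : orbit G x // ν (h0 • (y : Ω)) = c} : ℝ) * (c - 1 / 2) = m := by
      intro c
      obtain ⟨m, hm⟩ := hpat c
      refine ⟨m, ?_⟩
      rw [← hm]
      congr 2
      refine Nat.card_congr (Equiv.subtypeEquiv (MulAction.toPerm h0 : Equiv.Perm (orbit G x))
        fun y => ?_)
      rw [MulAction.toPerm_apply, MulAction.orbit.coe_smul]
    have hP := patterns (ν := fun y => ν (h0 • y)) hιι hιne
      (fun y => by rw [hι, hν]) (fun y => hbd _) hpat' hz hne hall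
    obtain ⟨i, j, hij, hPij⟩ := idempotent_four P hPT hPP hPd' (V h0) (hPS _ (hVS h0)) hh0 hP
    rcases hPij with e | e
    · refine hcontra i j hij 1 (Or.inl rfl) fun h => ?_
      exact idempotent_four_entry P hPT hPP hPd' hij (Or.inl rfl) (by rw [e]) (V h)
        (hPS _ (hVS h))
    · refine hcontra i j hij (-1) (Or.inr rfl) fun h => ?_
      exact idempotent_four_entry P hPT hPP hPd' hij (Or.inr rfl) (by rw [e]) (V h)
        (hPS _ (hVS h))

end Pool.Agent.Lib.MP_950c68_ag.Five
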