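import Mathlib
import Pool.Agent.Lib.MP_950c68_ag.Five.RelDef

namespace Pool.Agent.Lib.MP_950c68_ag.Five

open MulAction Pool.Agent.Lib.MP_950c68_ag.Orb

variable {G Ω : Type*} [Group G] [MulAction G Ω] {ι : G} {Λ : AddSubgroup (Ω → ℤ)}

/-- G1: the other sign. -/
theorem Rel.two' (h : Rel ι Λ) {x y : Ω} (hyx : y ≠ x) (hyx' : y ≠ ι • x) {d : Ω → ℤ}
    (hd : d ∈ Λ) (hs : ∀ z, z ≠ x → z ≠ ι • x → z ≠ y → z ≠ ι • y → d z = 0)
    (he : d y = d x ∨ d y = - d x) : d x = 0 := by
  rcases he with he | he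
  · refine h.two x (ι • y) ?_ ?_ d hd ?_ ?_
    · intro h1
      exact hyx' (by rw [← h1, h.invol])
    · intro h1
      have h2 := congrArg (fun z => ι • z) h1
      simp only [h.invol] at h2
      exact hyx h2
    · intro z h1 h2 h3 h4
      rw [h.invol] at h4
      exact hs z h1 h2 h4 h3
    · rw [h.anti d hd, he]
  · exact h.two x y hyx hyx' d hd hs he

private theorem g1_orbit (h : Rel ι Λ) {x : Ω} (hcard : Nat.card (orbit G x) = 4) :
    ∃ y ∈ orbit G x, y ≠ x ∧ y ≠ ι • x ∧
      ∀ z ∈ orbit G x, z = x ∨ z = ι • x ∨ z = y ∨ z = ι • y := by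
  have hn : (orbit G x).ncard = 4 := by
    rw [← hcard]
    exact (Nat.card_coe_set_eq _).symm
  have hfin : (orbit G x).Finite := Set.finite_of_ncard_ne_zero (by rw [hn]; norm_num)
  have hx : x ∈ orbit G x := mem_orbit_self x
  have hix : ι • x ∈ orbit G x := mem_orbit x ι
  obtain ⟨y, hy, hy2⟩ : ∃ y ∈ orbit G x, y ∉ ({x, ι • x} : Set Ω) := by
    refine Set.exists_mem_notMem_of_ncard_lt_ncard ?_ (Set.toFinite _)
    rw [hn, Set.ncard_pair (h.ne x).symm]
    norm_num
  have hyx : y ≠ x := fun h1 => hy2 (by rw [h1]; exact Set.mem_insert _ _)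
  have hyx' : y ≠ ι • x := fun h1 => hy2 (by rw [h1]; exact Set.mem_insert_of_mem _ rfl)
  refine ⟨y, hy, hyx, hyx', ?_⟩
  have hiyx : ι • y ≠ x := fun h1 => hyx' (by rw [← h1, h.invol])
  have hiyx' : ι • y ≠ ι • x := by
    intro h1
    have h2 := congrArg (fun z => ι • z) h1
    simp only [h.invol] at h2
    exact hyx h2
  have hsub : ({x, ι • x, y, ι • y} : Set Ω) ⊆ orbit G x := by
    intro z hz
    rcases hz with rfl | rfl | rfl | rfl
    · exact hx
    · exact hix
    · exact hy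
    · exact mem_orbit_smul ι hy
  have hcard4 : ({x, ι • x, y, ι • y} : Set Ω).ncard = 4 := by
    rw [Set.ncard_insert_of_notMem _ (Set.toFinite _), Set.ncard_insert_of_notMem _ (Set.toFinite _),
      Set.ncard_pair (h.ne y).symm]
    · rintro (h1 | h1)
      · exact hyx' h1.symm
      · exact hiyx' h1.symm
    · rintro (h1 | h1 | h1)
      · exact (h.ne x) h1.symm
      · exact hyx h1.symm
      · exact hiyx h1.symm
  have heq := Set.eq_of_subset_of_ncard_le hsub (by rw [hn, hcard4]) hfin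
  intro z hz
  rw [← heq] at hz
  exact hz

private theorem g1_comb {r : Ω → ℤ} (h : Rel ι Λ) (hr : r ∈ Λ) (g : G) (a b : ℤ) :
    (fun z => a * r z - b * r (g • z)) ∈ Λ := by
  have h1 : (fun z => a * r z - b * r (g • z)) = a • r - b • (fun z => r (g • z)) := by
    funext z
    simp
  rw [h1]
  exact Λ.sub_mem (Λ.zsmul_mem hr a) (Λ.zsmul_mem (h.smul r hr g) b)

/-- G2: no relations on orbits with four elements. -/
theorem Rel.four (h : Rel ι Λ) [Finite G] {x : Ω} (hcard : Nat.card (orbit G x) = 4)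
    {d : Ω → ℤ} (hd : d ∈ Λ) (hs : ∀ y ∉ orbit G x, d y = 0) : ∀ y, d y = 0 := by
  obtain ⟨y, hy, hyx, hyx', hall⟩ := g1_orbit h hcard
  have hy' := hy
  obtain ⟨g, hg⟩ : ∃ g : G, g • x = y := hy'
  have hgy : ∃ δ : ℤ, (δ = 1 ∨ δ = -1) ∧ d (g • y) = δ * d x := by
    rcases hall (g • y) (mem_orbit_smul g hy) with h1 | h1 | h1 | h1
    · exact ⟨1, Or.inl rfl, by rw [h1, one_mul]⟩
    · exact ⟨-1, Or.inr rfl, by rw [h1, h.anti d hd, neg_one_mul]⟩
    · exfalso
      rw [← hg] at h1
      exact hyx (by rw [← hg]; exact smul_left_cancel g h1)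
    · exfalso
      have h2 : g • y = g • ι • x := by rw [h1, h.comm, hg]
      exact hyx' (smul_left_cancel g h2)
  obtain ⟨δ, hδ, hgy⟩ := hgy
  have hδ2 : δ * δ = 1 := by rcases hδ with rfl | rfl <;> norm_num
  have he := g1_comb h hd g (d x) (δ * d y)
  have h0 := h.pair x _ he (by
    intro z hzx hzx'
    by_cases hz : z ∈ orbit G x
    · rcases hall z hz with rfl | rfl | rfl | rfl
      · exact absurd rfl hzx
      · exact absurd rfl hzx'
      · change d x * d z - δ * d z * d (g • z) = 0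
        rw [hgy]
        linear_combination (- (d x * d z)) * hδ2
      · change d x * d (ι • y) - δ * d y * d (g • ι • y) = 0
        rw [h.comm, h.anti d hd, h.anti d hd, hgy]
        linear_combination (d x * d y) * hδ2
    · change d x * d z - δ * d y * d (g • z) = 0
      rw [hs z hz, hs _ (notMem_orbit_smul g hz)]
      ring)
  have h1 : d x * d x - δ * d y * d y = 0 := by
    have h2 : d x * d x - δ * d y * d (g • x) = 0 := h0
    rwa [hg] at h2
  have hx0 : d x = 0 := by
    rcases hδ with rfl | rfl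
    · have h3 : (d y - d x) * (d y + d x) = 0 := by linear_combination (-1 : ℤ) * h1
      have h4 : d y = d x ∨ d y = - d x := by
        rcases mul_eq_zero.1 h3 with h5 | h5
        · left; linarith
        · right; linarith
      refine h.two' hyx hyx' hd ?_ h4
      intro z h5 h6 h7 h8
      by_contra h9
      have hz : z ∈ orbit G x := by
        by_contra hz
        exact h9 (hs z hz)
      rcases hall z hz with h10 | h10 | h10 | h10
      · exact h5 h10
      · exact h6 h10
      · exact h7 h10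
      · exact h8 h10
    · nlinarith [sq_nonneg (d x), sq_nonneg (d y)]
  have hy0 : d y = 0 := by
    rw [hx0] at h1
    have h2 : δ * (d y * d y) = 0 := by linarith
    rcases mul_eq_zero.1 h2 with h3 | h3
    · rcases hδ with rfl | rfl <;> norm_num at h3
    · exact mul_self_eq_zero.1 h3
  intro z
  by_cases hz : z ∈ orbit G x
  · rcases hall z hz with rfl | rfl | rfl | rfl
    · exact hx0
    · rw [h.anti d hd, hx0, neg_zero]
    · exact hy0
    · rw [h.anti d hd, hy0, neg_zero]
  · exact hs z hz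

private theorem g1_off (h : Rel ι Λ) {x w : Ω} (hw : w ∉ orbit G x)
    (hother : ∀ z z', z ∉ orbit G x → z' ∉ orbit G x → z' = z ∨ z' = ι • z)
    {r : Ω → ℤ} (hr : r ∈ Λ) (g : G) :
    ∃ ε : ℤ, (ε = 1 ∨ ε = -1) ∧ ∀ z ∉ orbit G x, 1 * r z - ε * r (g • z) = 0 := by
  have h1 : ∃ ε : ℤ, (ε = 1 ∨ ε = -1) ∧ r (g • w) = ε * r w := by
    rcases hother w (g • w) hw (notMem_orbit_smul g hw) with h2 | h2
    · exact ⟨1, Or.inl rfl, by rw [h2, one_mul]⟩
    · exact ⟨-1, Or.inr rfl, by rw [h2, h.anti r hr, neg_one_mul]⟩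
  obtain ⟨ε, hε, h2⟩ := h1
  have hε2 : ε * ε = 1 := by rcases hε with rfl | rfl <;> norm_num
  refine ⟨ε, hε, fun z hz => ?_⟩
  rcases hother w z hw hz with rfl | rfl
  · rw [h2]
    linear_combination (- r z) * hε2
  · rw [h.comm, h.anti r hr, h.anti r hr, h2]
    linear_combination (r w) * hε2

open Classical in
private theorem g1_sum_off (h : Rel ι Λ) [Fintype Ω] {x w : Ω} (hw : w ∉ orbit G x)
    (hother : ∀ z z', z ∉ orbit G x → z' ∉ orbit G x → z' = z ∨ z' = ι • z)
    {r : Ω → ℤ} (hr : r ∈ Λ) (h1 : |r w| = 1) :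
    ∑ z ∈ Finset.univ.filter (fun z => z ∉ orbit G x), |r z| = 2 := by
  have h2 : Finset.univ.filter (fun z => z ∉ orbit G x) = {w, ι • w} := by
    ext z
    rw [Finset.mem_filter, Finset.mem_insert, Finset.mem_singleton]
    constructor
    · rintro ⟨-, hz⟩
      exact hother w z hw hz
    · rintro (rfl | rfl)
      · exact ⟨Finset.mem_univ _, hw⟩
      · exact ⟨Finset.mem_univ _, notMem_orbit_smul ι hw⟩
  rw [h2, Finset.sum_pair (h.ne w).symm, h.anti r hr, abs_neg, h1]
  norm_num

open Classical in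
private theorem g1_card_orbit [Fintype Ω] (x : Ω) :
    (Finset.univ.filter (fun z => z ∈ orbit G x)).card = Nat.card (orbit G x) := by
  rw [Nat.card_eq_fintype_card, Fintype.card_subtype]

/-- G3: one orbit with four elements and at most one other pair. -/
theorem Rel.four_one (h : Rel ι Λ) [Finite G] [Fintype Ω] {x : Ω}
    (hcard : Nat.card (orbit G x) = 4)
    (hother : ∀ z z', z ∉ orbit G x → z' ∉ orbit G x → z' = z ∨ z' = ι • z)
    {r : Ω → ℤ} (hr : r ∈ Λ) (hb : ∀ z ∉ orbit G x, |r z| ≤ 1)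
    (hpar : (4 : ℤ) ∣ ∑ z, |r z|) : ∀ z, r z = 0 := by
  classical
  by_cases hoff : ∀ z ∉ orbit G x, r z = 0
  · exact h.four hcard hr hoff
  exfalso
  push Not at hoff
  obtain ⟨w, hw, hw0⟩ := hoff
  have hw1 : |r w| = 1 := le_antisymm (hb w hw) (Int.one_le_abs hw0)
  have hconst : ∀ z ∈ orbit G x, |r z| = |r x| := by
    rintro _ ⟨g, rfl⟩
    obtain ⟨ε, hε, h1⟩ := g1_off h hw hother hr g
    have h2 := h.four hcard (g1_comb h hr g 1 ε) h1 x
    change 1 * r x - ε * r (g • x) = 0 at h2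
    have h3 : r x = ε * r (g • x) := by linarith
    rw [h3, abs_mul]
    rcases hε with rfl | rfl <;> simp
  have hsum : ∑ z, |r z| = ∑ z ∈ Finset.univ.filter (fun z => z ∈ orbit G x), |r z| +
      ∑ z ∈ Finset.univ.filter (fun z => z ∉ orbit G x), |r z| :=
    (Finset.sum_filter_add_sum_filter_not _ _ _).symm
  rw [hsum, g1_sum_off h hw hother hr hw1] at hpar
  have h1 : ∑ z ∈ Finset.univ.filter (fun z => z ∈ orbit G x), |r z| = 4 * |r x| := by
    rw [Finset.sum_congr rfl (fun z hz => hconst z (Finset.mem_filter.1 hz).2), Finset.sum_const,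
      g1_card_orbit, hcard, nsmul_eq_mul]
    norm_num
  rw [h1] at hpar
  omega

end Pool.Agent.Lib.MP_950c68_ag.Five
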