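import Mathlib
import Pool.Agent.Lib.MP_950c68_ag.Five.G1

namespace Pool.Agent.Lib.MP_950c68_ag.Five

open MulAction Pool.Agent.Lib.MP_950c68_ag.Orb

variable {G Ω : Type*} [Group G] [MulAction G Ω] {ι : G} {Λ : AddSubgroup (Ω → ℤ)}

private theorem g4_comb {r : Ω → ℤ} (h : Rel ι Λ) (hr : r ∈ Λ) (g : G) (ε : ℤ) :
    (fun z => r z - ε * r (g • z)) ∈ Λ := by
  have h1 : (fun z => r z - ε * r (g • z)) = r - ε • (fun z => r (g • z)) := by
    funext z
    simp
  rw [h1]
  exact Λ.sub_mem hr (Λ.zsmul_mem (h.smul r hr g) ε)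

private theorem g4_off (h : Rel ι Λ) {x w : Ω} (hw : w ∉ orbit G x)
    (hother : ∀ z z', z ∉ orbit G x → z' ∉ orbit G x → z' = z ∨ z' = ι • z)
    {r : Ω → ℤ} (hr : r ∈ Λ) (g : G) :
    ∃ ε : ℤ, (ε = 1 ∨ ε = -1) ∧ ∀ z ∉ orbit G x, r z - ε * r (g • z) = 0 := by
  have h1 : ∃ ε : ℤ, (ε = 1 ∨ ε = -1) ∧ r (g • w) = ε * r w := by
    rcases hother w (g • w) hw (notMem_orbit_smul g hw) with h2 | h2
    · exact ⟨1, Or.inl rfl, by rw [h2, one_mul]⟩
    · exact ⟨-1, Or.inr rfl, by rw [h2, h.anti r hr, neg_one_mul]⟩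
  obtain ⟨ε, hε, h2⟩ := h1
  have hε2 : ε * ε = 1 := by rcases hε with rfl | rfl <;> norm_num
  refine ⟨ε, hε, fun z hz => ?_⟩
  rcases hother w z hw hz with rfl | rfl
  · rw [h2]
    linear_combination (- r z) * hε2
  · rw [h.comm, h.anti r hr, h.anti r hr, h2]
    linear_combination (r w) * hε2

open Classical in
private theorem g4_sum_off (h : Rel ι Λ) [Fintype Ω] {x w : Ω} (hw : w ∉ orbit G x)
    (hother : ∀ z z', z ∉ orbit G x → z' ∉ orbit G x → z' = z ∨ z' = ι • z)
    {r : Ω → ℤ} (hr : r ∈ Λ) (h1 : |r w| = 1) :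
    ∑ z ∈ Finset.univ.filter (fun z => z ∉ orbit G x), |r z| = 2 := by
  have h2 : Finset.univ.filter (fun z => z ∉ orbit G x) = {w, ι • w} := by
    ext z
    rw [Finset.mem_filter, Finset.mem_insert, Finset.mem_singleton]
    constructor
    · rintro ⟨-, hz⟩
      exact hother w z hw hz
    · rintro (rfl | rfl)
      · exact ⟨Finset.mem_univ _, hw⟩
      · exact ⟨Finset.mem_univ _, notMem_orbit_smul ι hw⟩
  rw [h2, Finset.sum_pair (h.ne w).symm, h.anti r hr, abs_neg, h1]
  norm_num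

/-- moving by `g` either preserves the zero set of `r` on the orbit or complements it -/
private theorem g4_dich (h : Rel ι Λ) {x w : Ω} (hw : w ∉ orbit G x)
    (hsemi : ∀ d ∈ Λ, (∀ y ∉ orbit G x, d y = 0) → SemiInv G d x)
    (hother : ∀ z z', z ∉ orbit G x → z' ∉ orbit G x → z' = z ∨ z' = ι • z)
    {r : Ω → ℤ} (hr : r ∈ Λ) (hb : ∀ z, |r z| ≤ 1) (g : G) :
    (∀ z ∈ orbit G x, (r (g • z) = 0 ↔ r z = 0)) ∨
      (∀ z ∈ orbit G x, (r (g • z) = 0 ↔ ¬ r z = 0)) := by
  obtain ⟨ε, hε, h1⟩ := g4_off h hw hother hr g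
  have hS := hsemi _ (g4_comb h hr g ε) h1
  have hval : ∀ z, r z = 0 ∨ r z = 1 ∨ r z = -1 := by
    intro z
    have h2 := abs_le.1 (hb z)
    omega
  have hcst : ∀ z ∈ orbit G x, r z - ε * r (g • z) = r x - ε * r (g • x) ∨
      r z - ε * r (g • z) = - (r x - ε * r (g • x)) := by
    rintro _ ⟨k, rfl⟩
    rcases hS k with h2 | h2
    · exact Or.inl (h2 x (mem_orbit_self x))
    · exact Or.inr (h2 x (mem_orbit_self x))
  by_cases hx : (r (g • x) = 0 ↔ r x = 0)
  · left
    intro z hz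
    have h2 := hcst z hz
    have h3 := hval z
    have h4 := hval (g • z)
    have h5 := hval x
    have h6 := hval (g • x)
    rcases hε with rfl | rfl <;> omega
  · right
    intro z hz
    have h2 := hcst z hz
    have h3 := hval z
    have h4 := hval (g • z)
    have h5 := hval x
    have h6 := hval (g • x)
    rcases hε with rfl | rfl <;> omega

/-- G4: one orbit with eight elements and at most one other pair. -/
theorem Rel.eight_one (h : Rel ι Λ) [Finite G] [Fintype Ω] {x : Ω}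
    (hcard : Nat.card (orbit G x) = 8)
    (hsemi : ∀ d ∈ Λ, (∀ y ∉ orbit G x, d y = 0) → SemiInv G d x)
    (hother : ∀ z z', z ∉ orbit G x → z' ∉ orbit G x → z' = z ∨ z' = ι • z)
    {r : Ω → ℤ} (hr : r ∈ Λ) (hb : ∀ z, |r z| ≤ 1)
    (hpar : (4 : ℤ) ∣ ∑ z, |r z|) : (∀ z ∉ orbit G x, r z = 0) ∧ SemiInv G r x := by
  classical
  by_cases hoff : ∀ z ∉ orbit G x, r z = 0
  · exact ⟨hoff, hsemi r hr hoff⟩
  exfalso
  push Not at hoff
  obtain ⟨w, hw, hw0⟩ := hoff
  have hw1 : |r w| = 1 := le_antisymm (hb w) (Int.one_le_abs hw0)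
  have hsum : ∑ z, |r z| = ∑ z ∈ Finset.univ.filter (fun z => z ∈ orbit G x), |r z| +
      ∑ z ∈ Finset.univ.filter (fun z => z ∉ orbit G x), |r z| :=
    (Finset.sum_filter_add_sum_filter_not _ _ _).symm
  rw [hsum, g4_sum_off h hw hother hr hw1] at hpar
  set O : Finset Ω := Finset.univ.filter (fun z => z ∈ orbit G x) with hO
  have hOcard : O.card = 8 := by
    rw [← hcard, Nat.card_eq_fintype_card, Fintype.card_subtype]
  have hmemO : ∀ z, z ∈ O ↔ z ∈ orbit G x := by
    intro z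
    rw [hO, Finset.mem_filter]
    exact ⟨fun h => h.2, fun h => ⟨Finset.mem_univ _, h⟩⟩
  have hcount : ∑ z ∈ O, |r z| = ((O.filter (fun z => ¬ r z = 0)).card : ℤ) := by
    rw [Finset.card_filter]
    push_cast
    refine Finset.sum_congr rfl fun z _ => ?_
    by_cases h1 : r z = 0
    · simp [h1]
    · rw [if_pos h1]
      exact le_antisymm (hb z) (Int.one_le_abs h1)
  rw [hcount] at hpar
  have hsplit : (O.filter (fun z => r z = 0)).card + (O.filter (fun z => ¬ r z = 0)).card = 8 := by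
    rw [Finset.card_filter_add_card_filter_not, hOcard]
  -- moving by an element preserves the number of zeros
  have hmove : ∀ g : G, (O.filter (fun z => r (g • z) = 0)).card =
      (O.filter (fun z => r z = 0)).card := by
    intro g
    refine Finset.card_bij (fun z _ => g • z) ?_ ?_ ?_
    · intro z hz
      rw [Finset.mem_filter, hmemO] at hz ⊢
      exact ⟨mem_orbit_smul g hz.1, hz.2⟩
    · intro z _ z' _ h1
      exact smul_left_cancel g h1
    · intro z hz
      rw [Finset.mem_filter, hmemO] at hz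
      refine ⟨g⁻¹ • z, ?_, smul_inv_smul g z⟩
      rw [Finset.mem_filter, hmemO, smul_inv_smul]
      exact ⟨mem_orbit_smul g⁻¹ hz.1, hz.2⟩
  have hall : ∀ g : G, ∀ z ∈ orbit G x, (r (g • z) = 0 ↔ r z = 0) := by
    intro g
    rcases g4_dich h hw hsemi hother hr hb g with h1 | h1
    · exact h1
    · exfalso
      have h2 : O.filter (fun z => r (g • z) = 0) = O.filter (fun z => ¬ r z = 0) :=
        Finset.filter_congr fun z hz => h1 z ((hmemO z).1 hz)
      have h3 := hmove g
      rw [h2] at h3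
      omega
  by_cases hx : r x = 0
  · have h1 : O.filter (fun z => ¬ r z = 0) = ∅ := by
      rw [Finset.filter_eq_empty_iff]
      intro z hz h2
      rw [hmemO] at hz
      obtain ⟨g, rfl⟩ := hz
      exact h2 ((hall g x (mem_orbit_self x)).2 hx)
    rw [h1, Finset.card_empty] at hpar
    norm_num at hpar
  · have h1 : O.filter (fun z => r z = 0) = ∅ := by
      rw [Finset.filter_eq_empty_iff]
      intro z hz h2
      rw [hmemO] at hz
      obtain ⟨g, rfl⟩ := hz
      exact hx ((hall g x (mem_orbit_self x)).1 h2)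
    rw [h1, Finset.card_empty, zero_add] at hsplit
    rw [hsplit] at hpar
    norm_num at hpar

end Pool.Agent.Lib.MP_950c68_ag.Five
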