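import Mathlib
import Pool.Agent.Lib.MP_950c68_ag.Five.PL0

namespace Pool.Agent.Lib.MP_950c68_ag.Five

open Polynomial MulAction Pool.Agent.Lib.MP_950c68_ag.Orb

variable {R : ℚ[X]} {q f p : ℕ} [Fact p.Prime]

private theorem norm_q (hqp : q = p ^ f) : ‖(q : PadicAlgCl p)‖ = (q : ℝ)⁻¹ := by
  have h1 : ((q : ℚ_[p]) : PadicAlgCl p) = (q : PadicAlgCl p) := by simp
  rw [← h1, PadicAlgCl.norm_extends, hqp, Nat.cast_pow, norm_pow, Padic.norm_p, Nat.cast_pow,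
    inv_pow]

/-- PL1 -/
theorem nu_iota (hqp : q = p ^ f) (hf : f ≠ 0) (hW : ∀ z : ℂ, aeval z R = 0 → ‖z‖ ^ 2 = q)
    (φ : LF R →ₐ[ℚ] PadicAlgCl p) (y : R.rootSet (LF R)) :
    nu q φ (iota R • y) = - nu q φ y := by
  have hp := (Fact.out : p.Prime)
  have hq1 : 1 < q := by
    rw [hqp]
    exact Nat.one_lt_pow hf hp.one_lt
  have hq : q ≠ 0 := by omega
  have hy : ‖φ (y : LF R)‖ ≠ 0 := by
    rw [norm_ne_zero_iff, map_ne_zero_iff φ φ.injective]
    exact root_ne_zero hW hq y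
  have hqR : (1 : ℝ) < (q : ℝ) := by exact_mod_cast hq1
  unfold nu
  rw [coe_iota_smul hW hq, map_div₀, map_natCast, norm_div, norm_q hqp,
    Real.logb_div (by positivity) hy, Real.logb_inv, Real.logb_self_eq_one hqR]
  ring

/-- PL1 -/
theorem abs_nu_le (hqp : q = p ^ f) (hf : f ≠ 0) (hW : ∀ z : ℂ, aeval z R = 0 → ‖z‖ ^ 2 = q)
    (hint : ∀ z : ℂ, aeval z R = 0 → IsIntegral ℤ z)
    (φ : LF R →ₐ[ℚ] PadicAlgCl p) (y : R.rootSet (LF R)) : |nu q φ y| ≤ 1 / 2 := by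
  have hp := (Fact.out : p.Prime)
  have hq1 : 1 < q := by
    rw [hqp]
    exact Nat.one_lt_pow hf hp.one_lt
  have hqR : (1 : ℝ) < (q : ℝ) := by exact_mod_cast hq1
  have key : ∀ w : R.rootSet (LF R), nu q φ w ≤ 1 / 2 := by
    intro w
    have h1 : IsIntegral ℤ (w : LF R) := isIntegral_root hint w
    have h2 : IsIntegral ℤ (φ (w : LF R)) := h1.map (φ.restrictScalars ℤ)
    have h3 := norm_le_one_of_isIntegral h2
    have h4 : Real.logb q ‖φ (w : LF R)‖ ≤ 0 :=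
      Real.logb_nonpos hqR (norm_nonneg _) h3
    unfold nu
    linarith
  rw [abs_le]
  refine ⟨?_, key y⟩
  have h1 := key (iota R • y)
  rw [nu_iota hqp hf hW] at h1
  linarith

end Pool.Agent.Lib.MP_950c68_ag.Five
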