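import Mathlib
import Pool.Agent.Lib.MP_950c68_ag.Five.PL0

namespace Pool.Agent.Lib.MP_950c68_ag.Five

open Polynomial MulAction Pool.Agent.Lib.MP_950c68_ag.Orb

variable {R : ℚ[X]} {q f p : ℕ} [Fact p.Prime]

private theorem norm_algEquiv (σ : PadicAlgCl p ≃ₐ[ℚ_[p]] PadicAlgCl p) (z : PadicAlgCl p) :
    ‖σ z‖ = ‖z‖ := by
  rw [← PadicAlgCl.spectralNorm_eq, ← PadicAlgCl.spectralNorm_eq]
  exact (spectralNorm_eq_of_equiv σ z).symm

private theorem exists_gal (φ : LF R →ₐ[ℚ] PadicAlgCl p)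
    (σ : PadicAlgCl p ≃ₐ[ℚ_[p]] PadicAlgCl p) :
    ∃ g : LF R ≃ₐ[ℚ] LF R, ∀ z : LF R, φ (g z) = σ (φ z) := by
  let _ : Algebra (LF R) (PadicAlgCl p) := (φ : LF R →+* PadicAlgCl p).toAlgebra
  have hT : IsScalarTower ℚ (LF R) (PadicAlgCl p) :=
    IsScalarTower.of_algebraMap_eq fun r => (φ.commutes r).symm
  exact ⟨(σ.restrictScalars ℚ).restrictNormal (LF R),
    fun z => AlgEquiv.restrictNormal_commutes (σ.restrictScalars ℚ) (LF R) z⟩

/-- PL3 (the condition of Honda and Tate with multiplicity `e`) -/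
theorem nu_hondaTate (hR0 : R ≠ 0) (hqp : q = p ^ f) (hf : f ≠ 0)
    (hW : ∀ z : ℂ, aeval z R = 0 → ‖z‖ ^ 2 = q)
    (φ : LF R →ₐ[ℚ] PadicAlgCl p) (x : R.rootSet (LF R)) (e : ℕ)
    (hHT : ∀ H : ℚ_[p][X], H.Monic →
      H ∣ (minpoly ℚ ((x : LF R) : ℂ)).map (algebraMap ℚ ℚ_[p]) →
      ∃ m : ℤ, ‖H.eval 0‖ ^ e = (q : ℝ) ^ m) (c : ℝ) :
    ∃ m : ℤ, (e : ℝ) * Nat.card {z : orbit (LF R ≃ₐ[ℚ] LF R) x // nu q φ z = c} * (c - 1 / 2) =
      m := by
  classical
  have hp : 1 < p := (Fact.out : p.Prime).one_lt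
  have hq1 : 1 < q := by rw [hqp]; exact Nat.one_lt_pow hf hp
  have hq0 : q ≠ 0 := by omega
  have hφinj : Function.Injective φ := φ.toRingHom.injective
  -- the set of roots with the given value
  let S : Finset (R.rootSet (LF R)) :=
    Finset.univ.filter fun z => z ∈ orbit (LF R ≃ₐ[ℚ] LF R) x ∧ nu q φ z = c
  have hS : ∀ z, z ∈ S ↔ z ∈ orbit (LF R ≃ₐ[ℚ] LF R) x ∧ nu q φ z = c := fun z => by simp [S]
  have hcard : Nat.card {z : orbit (LF R ≃ₐ[ℚ] LF R) x // nu q φ z = c} = S.card := by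
    rw [← Nat.card_eq_finsetCard S]
    refine Nat.card_congr ?_
    refine Equiv.ofBijective
      (fun z => (⟨(z.1 : R.rootSet (LF R)), (hS _).mpr ⟨z.1.2, z.2⟩⟩ : S)) ⟨?_, ?_⟩
    · intro y z h
      have h1 : (y.1 : R.rootSet (LF R)) = z.1 := congrArg (fun w : S => (w : R.rootSet (LF R))) h
      exact Subtype.ext (Subtype.ext h1)
    · rintro ⟨z, hz⟩
      exact ⟨⟨⟨z, ((hS z).mp hz).1⟩, ((hS z).mp hz).2⟩, rfl⟩
  -- the factor
  let H : (PadicAlgCl p)[X] := ∏ y ∈ S, (X - C (φ (y : LF R)))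
  have hH : H.Monic := monic_prod_of_monic _ _ fun y _ => monic_X_sub_C _
  have hlift : H ∈ lifts (algebraMap ℚ_[p] (PadicAlgCl p)) := by
    rw [lifts_iff_coeff_lifts]
    intro i
    rw [InfiniteGalois.mem_range_algebraMap_iff_fixed]
    intro σ
    obtain ⟨g, hg⟩ := exists_gal φ σ
    have hst : ∀ z ∈ S, g • z ∈ S := by
      intro z hz
      rw [hS] at hz ⊢
      refine ⟨mem_orbit_smul g hz.1, ?_⟩
      rw [← hz.2, nu, nu, coe_smul_root, hg, norm_algEquiv]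
    have h3 : H.map (σ : PadicAlgCl p →+* PadicAlgCl p) = H := by
      simp only [H, Polynomial.map_prod, Polynomial.map_sub, map_X, map_C]
      have h5 := prod_smul_of_stable hst (fun y => X - C (φ (y : LF R)))
      rw [← h5]
      refine Finset.prod_congr rfl fun y _ => ?_
      rw [coe_smul_root, hg]
      rfl
    have h4 := congrArg (fun r : (PadicAlgCl p)[X] => r.coeff i) h3
    simp only [coeff_map] at h4
    exact h4
  obtain ⟨H₁, hH₁, _, hH₁m⟩ := lifts_and_natDegree_eq_and_monic hlift hH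
  have hdvd : H ∣ (minpoly ℚ ((x : LF R) : ℂ)).map (algebraMap ℚ (PadicAlgCl p)) := by
    apply Finset.prod_dvd_of_coprime
    · intro y _ z _ hyz
      exact pairwise_coprime_X_sub_C (s := fun y : R.rootSet (LF R) => φ (y : LF R))
        (hφinj.comp Subtype.val_injective) hyz
    · intro y hy
      rw [dvd_iff_isRoot, IsRoot.def, eval_map_algebraMap]
      have hint : IsIntegral ℚ ((x : LF R) : ℂ) := IsAlgebraic.isIntegral ⟨R, hR0, aeval_root x⟩
      have h1 := (isConjRoot_iff_aeval_eq_zero hint).mp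
        ((mem_orbit_iff_isConjRoot x y).mp ((hS y).mp hy).1)
      have h2 : aeval (y : LF R) (minpoly ℚ ((x : LF R) : ℂ)) = 0 := by
        apply (algebraMap (LF R) ℂ).injective
        rw [← aeval_algebraMap_apply, map_zero]
        exact h1
      rw [aeval_algHom_apply, h2, map_zero]
  have hdvd1 : H₁ ∣ (minpoly ℚ ((x : LF R) : ℂ)).map (algebraMap ℚ ℚ_[p]) := by
    rw [← map_dvd_map' (algebraMap ℚ_[p] (PadicAlgCl p)), hH₁, Polynomial.map_map,
      ← IsScalarTower.algebraMap_eq]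
    exact hdvd
  obtain ⟨m, hm⟩ := hHT H₁ hH₁m hdvd1
  refine ⟨m, ?_⟩
  have hnorm : ‖H₁.eval 0‖ = ∏ y ∈ S, ‖φ (y : LF R)‖ := by
    rw [← PadicAlgCl.norm_extends]
    have h1 : ((H₁.eval 0 : ℚ_[p]) : PadicAlgCl p) = H.eval 0 := by
      rw [← hH₁, ← coeff_zero_eq_eval_zero, ← coeff_zero_eq_eval_zero, coeff_map]
    rw [h1]
    simp only [H, eval_prod, eval_sub, eval_X, eval_C, zero_sub]
    rw [norm_prod]
    refine Finset.prod_congr rfl fun y _ => norm_neg _
  have hlog : Real.logb q ‖H₁.eval 0‖ = S.card * (c - 1 / 2) := by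
    rw [hnorm, Real.logb_prod]
    · rw [← nsmul_eq_mul, ← Finset.sum_const]
      refine Finset.sum_congr rfl fun y hy => ?_
      have := ((hS y).mp hy).2
      rw [nu] at this
      linarith
    · intro y _
      rw [norm_ne_zero_iff]
      exact (map_ne_zero_iff φ hφinj).mpr (root_ne_zero hW hq0 y)
  have h5 := congrArg (Real.logb q) hm
  have hqR : (1 : ℝ) < q := by exact_mod_cast hq1
  rw [Real.logb_pow, hlog, ← Real.rpow_intCast, Real.logb_rpow (by linarith) hqR.ne'] at h5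
  rw [hcard, mul_assoc]
  exact h5

end Pool.Agent.Lib.MP_950c68_ag.Five
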