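import Mathlib
import Pool.Agent.Lib.MP_950c68_ag.Five.PL0

namespace Pool.Agent.Lib.MP_950c68_ag.Five

open Polynomial MulAction Pool.Agent.Lib.MP_950c68_ag.Orb

private theorem norm_coeff_prod_le_one {l : ℕ} [Fact l.Prime] {ι : Type*} (s : Finset ι)
    (b : ι → PadicAlgCl l) (hb : ∀ i ∈ s, ‖b i‖ ≤ 1) (n : ℕ) :
    ‖(∏ i ∈ s, (X - C (b i))).coeff n‖ ≤ 1 := by
  classical
  induction s using Finset.induction_on generalizing n with
  | empty =>
    rw [Finset.prod_empty, coeff_one]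
    split_ifs
    · rw [norm_one]
    · rw [norm_zero]; exact zero_le_one
  | insert i s hi ih =>
    have ih' := ih (fun j hj => hb j (Finset.mem_insert_of_mem hj))
    rw [Finset.prod_insert hi, sub_mul, coeff_sub, coeff_C_mul]
    have h1 : ‖b i * (∏ j ∈ s, (X - C (b j))).coeff n‖ ≤ 1 := by
      rw [norm_mul]
      exact mul_le_one₀ (hb i (Finset.mem_insert_self i s)) (norm_nonneg _) (ih' n)
    have h2 : ‖(X * ∏ j ∈ s, (X - C (b j))).coeff n‖ ≤ 1 := by
      cases n with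
      | zero => rw [coeff_X_mul_zero, norm_zero]; exact zero_le_one
      | succ n => rw [coeff_X_mul]; exact ih' n
    have h3 := IsUltrametricDist.norm_add_le_max ((X * ∏ j ∈ s, (X - C (b j))).coeff n)
      (-(b i * (∏ j ∈ s, (X - C (b j))).coeff n))
    rw [← sub_eq_add_neg, norm_neg] at h3
    exact h3.trans (max_le h2 h1)

private theorem exists_int_of_norm {a : ℚ} (h : ∀ (l : ℕ) [Fact l.Prime], ‖(a : ℚ_[l])‖ ≤ 1) :
    ∃ b : ℤ, (b : ℚ) = a := by
  by_cases hd : a.den = 1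
  · exact ⟨a.num, Rat.coe_int_num_of_den_eq_one hd⟩
  exfalso
  obtain ⟨l, hl, hdvd⟩ := Nat.exists_prime_and_dvd hd
  have : Fact l.Prime := ⟨hl⟩
  have h1 := h l
  have h2 : ((a.den : ℤ) : ℚ_[l]) * (a : ℚ_[l]) = (a.num : ℚ_[l]) := by
    have := Rat.den_mul_eq_num a
    exact_mod_cast congrArg (fun r : ℚ => (r : ℚ_[l])) this
  have h3 : ‖((a.den : ℤ) : ℚ_[l])‖ < 1 := by
    rw [Padic.norm_intCast_lt_one_iff]
    exact_mod_cast hdvd
  have h4 : ‖(a.num : ℚ_[l])‖ < 1 := by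
    rw [← h2, norm_mul]
    calc _ ≤ ‖((a.den : ℤ) : ℚ_[l])‖ * 1 := by gcongr
      _ < 1 := by rw [mul_one]; exact h3
  rw [Padic.norm_intCast_lt_one_iff] at h4
  have h5 : l ∣ a.num.natAbs := Int.natCast_dvd.mp h4
  have h6 := Nat.dvd_gcd h5 hdvd
  rw [a.reduced] at h6
  exact hl.one_lt.ne' (Nat.dvd_one.mp h6)

private theorem isIntegral_of_norm {R : ℚ[X]} {u : LF R}
    (h : ∀ (l : ℕ) [Fact l.Prime], ∃ ψ : LF R →ₐ[ℚ] PadicAlgCl l,
      ∀ g : LF R ≃ₐ[ℚ] LF R, ‖ψ (g u)‖ ≤ 1) : IsIntegral ℤ u := by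
  classical
  let F : (LF R)[X] := ∏ g : LF R ≃ₐ[ℚ] LF R, (X - C (g u))
  have hF : F.Monic := monic_prod_of_monic _ _ fun y _ => monic_X_sub_C _
  have hlift : F ∈ lifts (algebraMap ℚ (LF R)) := by
    rw [lifts_iff_coeff_lifts]
    intro i
    rw [InfiniteGalois.mem_range_algebraMap_iff_fixed]
    intro σ
    have h3 : F.map (σ : LF R →+* LF R) = F := by
      simp only [F, Polynomial.map_prod, Polynomial.map_sub, map_X, map_C]
      exact Fintype.prod_equiv (Equiv.mulLeft σ) _ _ fun g => rfl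
    have h4 := congrArg (fun r : (LF R)[X] => r.coeff i) h3
    simp only [coeff_map] at h4
    exact h4
  obtain ⟨F₀, hF₀, _, hF₀m⟩ := lifts_and_natDegree_eq_and_monic hlift hF
  have hcoeff : ∀ i, ∃ b : ℤ, (b : ℚ) = F₀.coeff i := by
    intro i
    apply exists_int_of_norm
    intro l hl
    obtain ⟨ψ, hψ⟩ := h l
    have h1 : ((F₀.coeff i : ℚ) : PadicAlgCl l) = (∏ g : LF R ≃ₐ[ℚ] LF R, (X - C (ψ (g u)))).coeff i := by
      have h2 : F.map (ψ : LF R →+* PadicAlgCl l) = ∏ g : LF R ≃ₐ[ℚ] LF R, (X - C (ψ (g u))) := by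
        simp only [F, Polynomial.map_prod, Polynomial.map_sub, map_X, map_C]
        rfl
      rw [← h2, coeff_map, ← hF₀, coeff_map]
      have h5 : (ψ : LF R →+* PadicAlgCl l) (algebraMap ℚ (LF R) (F₀.coeff i)) =
          algebraMap ℚ (PadicAlgCl l) (F₀.coeff i) := ψ.commutes _
      rw [h5]
      simp
    have h6 : ‖((F₀.coeff i : ℚ) : PadicAlgCl l)‖ ≤ 1 := by
      rw [h1]
      exact norm_coeff_prod_le_one _ _ (fun g _ => hψ g) i
    have h7 : (((F₀.coeff i : ℚ) : ℚ_[l]) : PadicAlgCl l) = ((F₀.coeff i : ℚ) : PadicAlgCl l) := by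
      simp
    rw [← h7, PadicAlgCl.norm_extends] at h6
    exact h6
  have hlift' : F₀ ∈ lifts (algebraMap ℤ ℚ) := by
    rw [lifts_iff_coeff_lifts]
    intro i
    obtain ⟨b, hb⟩ := hcoeff i
    exact ⟨b, hb⟩
  obtain ⟨F₁, hF₁, _, hF₁m⟩ := lifts_and_natDegree_eq_and_monic hlift' hF₀m
  refine ⟨F₁, hF₁m, ?_⟩
  have h8 : F₁.map (algebraMap ℤ (LF R)) = F := by
    rw [← hF₀, ← hF₁, Polynomial.map_map]
    congr 1
  rw [← eval_map, h8]
  simp only [F, eval_prod, eval_sub, eval_X, eval_C]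
  exact Finset.prod_eq_zero (Finset.mem_univ (1 : LF R ≃ₐ[ℚ] LF R)) (by simp)

variable {R : ℚ[X]} {q f p : ℕ} [Fact p.Prime]

/-- PL4 (separation) -/
theorem pow_eq_of_nu (hqp : q = p ^ f) (hf : f ≠ 0) (hW : ∀ z : ℂ, aeval z R = 0 → ‖z‖ ^ 2 = q)
    (hint : ∀ z : ℂ, aeval z R = 0 → IsIntegral ℤ z)
    (φ : LF R →ₐ[ℚ] PadicAlgCl p) (y z : R.rootSet (LF R))
    (h : ∀ g : LF R ≃ₐ[ℚ] LF R, nu q φ (g • y) = nu q φ (g • z)) :
    ∃ n : ℕ, n ≠ 0 ∧ ((y : LF R) : ℂ) ^ n = ((z : LF R) : ℂ) ^ n := by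
  classical
  have hp : 1 < p := (Fact.out : p.Prime).one_lt
  have hq1 : 1 < q := by rw [hqp]; exact Nat.one_lt_pow hf hp
  have hq : q ≠ 0 := by omega
  have hqR : (1 : ℝ) < q := by exact_mod_cast hq1
  have hy0 := root_ne_zero hW hq y
  have hz0 := root_ne_zero hW hq z
  have hpos : ∀ (l : ℕ) [Fact l.Prime] (ψ : LF R →ₐ[ℚ] PadicAlgCl l) (w : LF R), w ≠ 0 →
      0 < ‖ψ w‖ := by
    intro l hl ψ w hw
    rw [norm_pos_iff]
    exact (map_ne_zero_iff ψ ψ.toRingHom.injective).mpr hw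
  have hintψ : ∀ (l : ℕ) [Fact l.Prime] (ψ : LF R →ₐ[ℚ] PadicAlgCl l) (w : R.rootSet (LF R)),
      ‖ψ (w : LF R)‖ ≤ 1 := by
    intro l hl ψ w
    apply norm_le_one_of_isIntegral
    exact (isIntegral_root hint w).map (ψ.restrictScalars ℤ)
  -- the quotient is integral
  have hquot : IsIntegral ℤ ((y : LF R) / z) := by
    apply isIntegral_of_norm
    intro l hl
    by_cases hlp : l = p
    · subst hlp
      refine ⟨φ, fun g => ?_⟩
      rw [map_div₀, map_div₀, norm_div]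
      have h1 := h g
      rw [nu, nu, add_left_inj, coe_smul_root, coe_smul_root] at h1
      have hgy : g (y : LF R) ≠ 0 := (map_ne_zero_iff g g.injective).mpr hy0
      have hgz : g (z : LF R) ≠ 0 := (map_ne_zero_iff g g.injective).mpr hz0
      have h2 : ‖φ (g (y : LF R))‖ = ‖φ (g (z : LF R))‖ :=
        Real.logb_injOn_pos hqR (hpos l φ _ hgy) (hpos l φ _ hgz) h1
      rw [h2, div_self (hpos l φ _ hgz).ne']
    · obtain ⟨ψ⟩ := exists_place R l
      refine ⟨ψ, fun g => ?_⟩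
      have hqK : (q : LF R) ≠ 0 := by exact_mod_cast hq
      have h1 : (y : LF R) / z = (y : LF R) * (iota R • z : R.rootSet (LF R)) / (q : LF R) := by
        rw [coe_iota_smul hW hq]
        field_simp
      have h2 : ‖((q : ℕ) : PadicAlgCl l)‖ = 1 := by
        have h3 : (((q : ℕ) : ℚ_[l]) : PadicAlgCl l) = ((q : ℕ) : PadicAlgCl l) := by simp
        rw [← h3, PadicAlgCl.norm_extends, Padic.norm_natCast_eq_one_iff, hqp]
        apply Nat.Coprime.pow_right
        rw [Nat.coprime_primes hl.out Fact.out]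
        exact hlp
      rw [h1, map_div₀, map_mul, map_natCast, map_div₀, map_mul, map_natCast, norm_div, h2,
        div_one, norm_mul]
      have h4 := hintψ l ψ (g • y)
      have h5 := hintψ l ψ (g • iota R • z)
      rw [coe_smul_root] at h4 h5
      exact mul_le_one₀ h4 (norm_nonneg _) h5
  -- Kronecker
  have hnf : NumberField (LF R) :=
    { to_charZero := inferInstance, to_finiteDimensional := inferInstance }
  have hemb : ∀ (w : R.rootSet (LF R)) (φ : LF R →+* ℂ), ‖φ (w : LF R)‖ ^ 2 = q := by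
    intro w φ
    apply hW
    have h1 : aeval (w : LF R) R = 0 := (mem_rootSet.mp w.2).2
    have h2 := congrArg φ h1
    rw [map_zero] at h2
    have h3 : φ (aeval (w : LF R) R) = aeval (φ w) R := by
      have := Polynomial.hom_eval₂ R (algebraMap ℚ (LF R)) φ (w : LF R)
      rw [aeval_def, this, aeval_def]
      congr 1
      exact Subsingleton.elim _ _
    rw [← h3, h2]
  obtain ⟨n, hn, hpow⟩ := NumberField.Embeddings.pow_eq_one_of_norm_eq_one (LF R) ℂ hquot (by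
    intro φ
    have h1 := hemb y φ
    have h2 := hemb z φ
    rw [map_div₀, norm_div, div_eq_one_iff_eq]
    · have h3 : ‖φ (y : LF R)‖ ^ 2 = ‖φ (z : LF R)‖ ^ 2 := by rw [h1, h2]
      exact (pow_left_inj₀ (norm_nonneg _) (norm_nonneg _) two_ne_zero).mp h3
    · intro h0
      rw [h0] at h2
      have : (q : ℝ) = 0 := by rw [← h2]; norm_num
      exact hq (by exact_mod_cast this))
  refine ⟨n, hn.ne', ?_⟩
  rw [div_pow, div_eq_one_iff_eq (pow_ne_zero _ hz0)] at hpow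
  have := congrArg (fun w : LF R => (w : ℂ)) hpow
  simpa using this

end Pool.Agent.Lib.MP_950c68_ag.Five
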