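import Mathlib
import Pool.Agent.Lib.MP_950c68_ag.Five.Ctx
import Pool.Agent.Lib.MP_950c68_ag.Five.A8
import Pool.Agent.Lib.MP_950c68_ag.Five.E4
import Pool.Agent.Lib.MP_950c68_ag.Five.G1
import Pool.Agent.Lib.MP_950c68_ag.Five.G4
import Pool.Agent.Lib.MP_950c68_ag.Five.PL1
import Pool.Agent.Lib.MP_950c68_ag.Five.PL3
import Pool.Agent.Lib.MP_950c68_ag.Five.PL4

/-!
# Weil numbers of degree eight and ten
-/

namespace Pool.Agent.Lib.MP_950c68_ag.Five

open Polynomial MulAction Pool.Agent.Lib.MP_950c68_ag.Orb Pool.Agent.Lib.MP_950c68_ag.Dim3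

variable {p : ℕ} [Fact p.Prime] {q f : ℕ}

namespace Ctx

variable {T s : Multiset ℂ} {R : ℚ[X]} (h : Ctx p q T s R)

include h

/-- If one orbit contributes at least eight members, there is at most one other pair. -/
theorem other (hcard : Multiset.card T ≤ 10) {x : R.rootSet (LF R)}
    (hx : 8 ≤ (minpoly ℚ ((x : LF R) : ℂ)).natDegree * T.count ((x : LF R) : ℂ)) :
    (∀ z z', z ∉ orbit (LF R ≃ₐ[ℚ] LF R) x → z' ∉ orbit (LF R ≃ₐ[ℚ] LF R) x →
      z' = z ∨ z' = iota R • z) ∧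
    ∀ z ∉ orbit (LF R ≃ₐ[ℚ] LF R) x, (minpoly ℚ ((z : LF R) : ℂ)).natDegree = 2 ∧
      T.count ((z : LF R) : ℂ) = 1 ∧ ∀ w ∈ s, ¬ Supersingular q w := by
  have hdeg : ∀ z ∉ orbit (LF R ≃ₐ[ℚ] LF R) x, (minpoly ℚ ((z : LF R) : ℂ)).natDegree = 2 ∧
      T.count ((z : LF R) : ℂ) = 1 := by
    intro z hz
    rw [mem_orbit_iff_isConjRoot] at hz
    have h1 := natDegree_mul_count_add_le h.av (h.mem_T x) (h.mem_T z) hz
    obtain ⟨d, hd, hd'⟩ := h.exists_degree z
    have h2 := h.count_pos z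
    rw [hd'] at h1 ⊢
    have h3 : 2 * d * T.count ((z : LF R) : ℂ) ≤ 2 := by omega
    have h4 : d * T.count ((z : LF R) : ℂ) ≤ 1 := by nlinarith
    have h5 : d * T.count ((z : LF R) : ℂ) = 1 := le_antisymm h4 (Nat.mul_pos hd h2)
    have h6 := Nat.eq_one_of_mul_eq_one_right h5
    have h7 := Nat.eq_one_of_mul_eq_one_left h5
    constructor <;> omega
  refine ⟨?_, ?_⟩
  · intro z z' hz hz'
    by_cases hzz : z' ∈ orbit (LF R ≃ₐ[ℚ] LF R) z
    · exact orbit_two h.hR0 h.W h.hq h.ns z (hdeg z hz).1 z' hzz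
    · exfalso
      obtain ⟨h1, h2⟩ := hdeg z hz
      obtain ⟨h3, h4⟩ := hdeg z' hz'
      rw [mem_orbit_iff_isConjRoot] at hz hz' hzz
      have h5 := natDegree_mul_count_add_add_le h.av (h.mem_T x) (h.mem_T z) (h.mem_T z')
        hz hz' hzz
      rw [h1, h2, h3, h4] at h5
      omega
  · intro z hz
    obtain ⟨h1, h2⟩ := hdeg z hz
    refine ⟨h1, h2, ?_⟩
    intro w hw hss
    have hwT := Multiset.mem_of_le h.le hw
    rw [mem_orbit_iff_isConjRoot] at hz
    have hxw : ¬ IsConjRoot ℚ ((x : LF R) : ℂ) w := fun hc =>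
      h.not_ss x (hss.of_isConjRoot hc.symm)
    have hzw : ¬ IsConjRoot ℚ ((z : LF R) : ℂ) w := fun hc =>
      h.not_ss z (hss.of_isConjRoot hc.symm)
    have h3 := natDegree_mul_count_add_add_le h.av (h.mem_T x) (h.mem_T z) hwT hz hxw hzw
    have h4 : 0 < (minpoly ℚ w).natDegree :=
      minpoly.natDegree_pos (h.av.weil w hwT).1.tower_top
    have h5 : 0 < T.count w := Multiset.count_pos.mpr hwT
    have h6 := Nat.mul_pos h4 h5
    rw [h1, h2] at h3
    omega

/-- The condition of Honda and Tate for the valuations. -/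
theorem pattern (hqp : q = p ^ f) (φ : LF R →ₐ[ℚ] PadicAlgCl p) (x : R.rootSet (LF R)) (c : ℝ) :
    ∃ m : ℤ, (T.count ((x : LF R) : ℂ) : ℝ) *
      Nat.card {z : orbit (LF R ≃ₐ[ℚ] LF R) x // nu q φ z = c} * (c - 1 / 2) = m :=
  nu_hondaTate h.hR0 hqp (h.exponent_ne_zero hqp x) h.W φ x _ (h.av.hondaTate _ (h.mem_T x)) c

theorem eq_of_nu (hqp : q = p ^ f) (φ : LF R →ₐ[ℚ] PadicAlgCl p) (y z : R.rootSet (LF R))
    (he : ∀ g : LF R ≃ₐ[ℚ] LF R, nu q φ (g • y) = nu q φ (g • z)) : y = z := by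
  obtain ⟨n, hn, h1⟩ := pow_eq_of_nu hqp (h.exponent_ne_zero hqp y) h.W h.int φ y z he
  exact coe_injective (h.av.neat _ (h.mem_T y) _ (h.mem_T z) n hn h1)

/-- Relations on an orbit with eight elements are constant up to sign. -/
theorem semi_eight (hqp : q = p ^ f) {x : R.rootSet (LF R)}
    (hdeg : (minpoly ℚ ((x : LF R) : ℂ)).natDegree = 8) (hc : T.count ((x : LF R) : ℂ) = 1)
    {hq' : (q : ℂ) ≠ 0} {h0 : ∀ x : R.rootSet (LF R), ((x : LF R) : ℂ) ≠ 0}
    {d : R.rootSet (LF R) → ℤ} (hd : d ∈ Sat R q hq' h0)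
    (hs : ∀ y ∉ orbit (LF R ≃ₐ[ℚ] LF R) x, d y = 0) : SemiInv (LF R ≃ₐ[ℚ] LF R) d x := by
  obtain ⟨φ⟩ := exists_place R p
  have hf := h.exponent_ne_zero hqp x
  refine eight_const (smul_iota h.W h.hq) (iota_iota h.W h.hq) (iota_ne h.W h.hq h.ns)
    (x := x) (by rw [card_orbit h.hR0, hdeg]) (ν := nu q φ) (nu_iota hqp hf h.W φ)
    (abs_nu_le hqp hf h.W h.int φ) ?_ ?_ (h.rel.anti d hd) hs
    (sum_nu_sat hqp hf h.W φ hd)
  · intro c
    obtain ⟨m, hm⟩ := h.pattern hqp φ x c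
    rw [hc, Nat.cast_one, one_mul] at hm
    exact ⟨m, hm⟩
  · intro y _ z _ he
    exact h.eq_of_nu hqp φ y z he

omit [Fact p.Prime] h in
theorem semiInv_zero {G Ω : Type*} [Group G] [MulAction G Ω] {r : Ω → ℤ} {x : Ω}
    (hs : SemiInv G r x) (hx : r x = 0) : ∀ z ∈ orbit G x, r z = 0 := by
  rintro _ ⟨g, rfl⟩
  rcases hs g with h1 | h1
  · exact (h1 x (mem_orbit_self x)).trans hx
  · exact (h1 x (mem_orbit_self x)).trans (by rw [hx, neg_zero])

omit [Fact p.Prime] h in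
theorem semiInv_ne_zero {G Ω : Type*} [Group G] [MulAction G Ω] {r : Ω → ℤ} {x : Ω}
    (hs : SemiInv G r x) (hx : r x ≠ 0) : ∀ z ∈ orbit G x, r z ≠ 0 := by
  rintro _ ⟨g, rfl⟩
  rcases hs g with h1 | h1
  · have := h1 x (mem_orbit_self x)
    simp only
    omega
  · have := h1 x (mem_orbit_self x)
    simp only
    omega

/-- A half system in `s`. -/
theorem half_step {x : R.rootSet (LF R)} (hdeg : (minpoly ℚ ((x : LF R) : ℂ)).natDegree = 8)
    (hc : T.count ((x : LF R) : ℂ) = 1)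
    (hzero : ∀ z ∉ orbit (LF R ≃ₐ[ℚ] LF R) x, rr s R z = 0)
    (hsemi : SemiInv (LF R ≃ₐ[ℚ] LF R) (rr s R) x) : G0 p q s := by
  classical
  by_cases hx0 : rr s R x = 0
  · apply h.zero
    intro y
    by_cases hy : y ∈ orbit (LF R ≃ₐ[ℚ] LF R) x
    · exact semiInv_zero hsemi hx0 y hy
    · exact hzero y hy
  · obtain ⟨Φ, hΦ, hmem⟩ := half_of_semiInv h.anti hsemi hx0
    have hne := semiInv_ne_zero hsemi hx0
    have hcT : ∀ z ∈ orbit (LF R ≃ₐ[ℚ] LF R) x, s.count ((z : LF R) : ℂ) ≤ 1 := by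
      intro z hz
      rw [← hc, ← h.count_conj x ((mem_orbit_iff_isConjRoot x z).mp hz)]
      exact Multiset.count_le_of_le _ h.le
    set Ψ : Finset ℂ := Φ.image (fun y : R.rootSet (LF R) => ((y : LF R) : ℂ)) with hΨ
    have hHS : HalfSystem q ((x : LF R) : ℂ) Ψ := halfSystem_of_half h.hR0 h.W h.hq rfl hΦ
    have hcardΦ : Φ.card = 4 := hΦ.card h.hR0 h.W h.hq (g := 4) (by rw [hdeg])
    have hcardΨ : Ψ.card = 4 := by
      rw [hΨ, Finset.card_image_of_injective _ coe_injective, hcardΦ]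
    have hmemΨ : ∀ y : R.rootSet (LF R), ((y : LF R) : ℂ) ∈ Ψ ↔ y ∈ Φ := by
      intro y
      rw [hΨ, Finset.mem_image]
      constructor
      · rintro ⟨z, hz, hzy⟩
        rwa [← coe_injective hzy]
      · intro hy
        exact ⟨y, hy, rfl⟩
    have hle : Ψ.val ≤ s := by
      rw [Multiset.le_iff_subset Ψ.nodup]
      intro z hz
      rw [Finset.mem_val, hΨ, Finset.mem_image] at hz
      obtain ⟨y, hy, rfl⟩ := hz
      obtain ⟨hy1, hy2⟩ := (hmem y).mp hy
      rw [← Multiset.count_pos]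
      rw [rr] at hy2
      omega
    obtain ⟨t, ht⟩ := Multiset.le_iff_exists_add.mp hle
    have ht' : s = 1 • Ψ.val + t := by rw [one_smul]; exact ht
    have hcount : ∀ z : ℂ, s.count z = Ψ.val.count z + t.count z := by
      intro z
      rw [ht, Multiset.count_add]
    have hΨ1 : ∀ y : R.rootSet (LF R), y ∉ Φ → Ψ.val.count ((y : LF R) : ℂ) = 0 := by
      intro y hy
      rw [Multiset.count_eq_zero]
      intro h1
      exact hy ((hmemΨ y).mp h1)
    have hHT : HondaTate p q 1 ((x : LF R) : ℂ) := by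
      rw [← hc]
      exact h.av.hondaTate _ (h.mem_T x)
    have htate : IsTate q (1 • Ψ.val + t) := by rw [← ht']; exact h.tate
    rw [ht']
    refine G0.of_half h.hq (h.weil x) (h.distinct x) hHT hHS (by rw [hcardΨ]) htate ?_ ?_
    · intro z hz hns
      have hzs : z ∈ s := by rw [ht]; exact Multiset.mem_add.mpr (Or.inr hz)
      obtain ⟨y, rfl⟩ := h.exists_root_of_mem hzs hns
      rw [h.count_div]
      have h1 := hcount ((y : LF R) : ℂ)
      have h2 := hcount (((iota R • y : R.rootSet (LF R)) : LF R) : ℂ)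
      have h3 : 0 < t.count ((y : LF R) : ℂ) := Multiset.count_pos.mpr hz
      by_cases hy : y ∈ orbit (LF R ≃ₐ[ℚ] LF R) x
      · exfalso
        have h4 := hcT y hy
        have h5 := hcT _ (mem_orbit_smul (iota R) hy)
        have h6 : y ∉ Φ := by
          intro h7
          have h8 : 0 < Ψ.val.count ((y : LF R) : ℂ) := Multiset.count_pos.mpr ((hmemΨ y).mpr h7)
          omega
        have h7 : ¬ 0 < rr s R y := fun h8 => h6 ((hmem y).mpr ⟨hy, h8⟩)
        have h8 := hne y hy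
        rw [rr] at h7 h8
        omega
      · have h4 := hzero y hy
        rw [rr] at h4
        have h5 : y ∉ Φ := fun h6 => hy ((hmem y).mp h6).1
        have h6 : iota R • y ∉ Φ := by
          intro h7
          have h8 := mem_orbit_smul (iota R) ((hmem _).mp h7).1
          rw [iota_iota h.W h.hq] at h8
          exact hy h8
        rw [hΨ1 y h5] at h1
        rw [hΨ1 _ h6] at h2
        omega
    · obtain ⟨_, j, n, hj, _, _⟩ := h.tate
      rw [ht, Multiset.card_add] at hj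
      have h1 : Multiset.card Ψ.val = 4 := hcardΨ
      rw [h1] at hj
      exact ⟨j - 2, by omega⟩

/-- A member of degree eight. -/
theorem eight (hrr : ∀ (hq' : (q : ℂ) ≠ 0) (h0 : ∀ x : R.rootSet (LF R), ((x : LF R) : ℂ) ≠ 0),
      rr s R ∈ Sat R q hq' h0) (hqp : q = p ^ f) (hcard : Multiset.card T ≤ 10)
    {x : R.rootSet (LF R)} (hdeg : (minpoly ℚ ((x : LF R) : ℂ)).natDegree = 8) : G0 p q s := by
  have hc : T.count ((x : LF R) : ℂ) = 1 := by
    have h1 := natDegree_mul_count_le h.av (h.mem_T x)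
    have h2 := h.count_pos x
    rw [hdeg] at h1
    omega
  have hx8 : 8 ≤ (minpoly ℚ ((x : LF R) : ℂ)).natDegree * T.count ((x : LF R) : ℂ) := by
    rw [hdeg, hc]
  obtain ⟨ho1, ho2⟩ := h.other hcard hx8
  have hr := hrr h.q_ne h.ne_zero
  have hco : Nat.card (orbit (LF R ≃ₐ[ℚ] LF R) x) = 8 := by rw [card_orbit h.hR0, hdeg]
  by_cases hex : ∃ z, z ∉ orbit (LF R ≃ₐ[ℚ] LF R) x
  · obtain ⟨z, hz⟩ := hex
    obtain ⟨h1, h2⟩ := h.rel.eight_one hco
      (fun d hd hs => h.semi_eight hqp hdeg hc hd hs) ho1 hr (by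
        intro z
        have h3 := h.abs_le z
        by_cases hz : z ∈ orbit (LF R ≃ₐ[ℚ] LF R) x
        · rw [h.count_conj x ((mem_orbit_iff_isConjRoot x z).mp hz), hc] at h3
          exact_mod_cast h3
        · rw [(ho2 z hz).2.1] at h3
          exact_mod_cast h3) (h.parity (ho2 z hz).2.2)
    exact h.half_step hdeg hc h1 h2
  · push Not at hex
    have h1 : ∀ z ∉ orbit (LF R ≃ₐ[ℚ] LF R) x, rr s R z = 0 := fun z hz => absurd (hex z) hz
    exact h.half_step hdeg hc h1 (h.semi_eight hqp hdeg hc hr h1)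

/-- A member of degree ten. -/
theorem ten (hrr : ∀ (hq' : (q : ℂ) ≠ 0) (h0 : ∀ x : R.rootSet (LF R), ((x : LF R) : ℂ) ≠ 0),
      rr s R ∈ Sat R q hq' h0) (hcard : Multiset.card T ≤ 10)
    {x : R.rootSet (LF R)} (hdeg : (minpoly ℚ ((x : LF R) : ℂ)).natDegree = 10) : G0 p q s := by
  classical
  have hc : T.count ((x : LF R) : ℂ) = 1 := by
    have h1 := natDegree_mul_count_le h.av (h.mem_T x)
    have h2 := h.count_pos x
    rw [hdeg] at h1
    omega
  have hr := hrr h.q_ne h.ne_zero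
  have hco : Nat.card (orbit (LF R ≃ₐ[ℚ] LF R) x) = 10 := by rw [card_orbit h.hR0, hdeg]
  have hall : ∀ z, z ∈ orbit (LF R ≃ₐ[ℚ] LF R) x := by
    intro z
    by_contra hz
    rw [mem_orbit_iff_isConjRoot] at hz
    have h1 := natDegree_mul_count_add_le h.av (h.mem_T x) (h.mem_T z) hz
    obtain ⟨d, hd, hd'⟩ := h.exists_degree z
    have h2 := h.count_pos z
    rw [hd', hdeg, hc] at h1
    have := Nat.mul_pos hd h2
    nlinarith
  have hss : ∀ w ∈ s, ¬ Supersingular q w := by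
    intro w hw hss
    have hwT := Multiset.mem_of_le h.le hw
    have hxw : ¬ IsConjRoot ℚ ((x : LF R) : ℂ) w := fun hc =>
      h.not_ss x (hss.of_isConjRoot hc.symm)
    have h3 := natDegree_mul_count_add_le h.av (h.mem_T x) hwT hxw
    have h4 : 0 < (minpoly ℚ w).natDegree :=
      minpoly.natDegree_pos (h.av.weil w hwT).1.tower_top
    have h5 : 0 < T.count w := Multiset.count_pos.mpr hwT
    have h6 := Nat.mul_pos h4 h5
    rw [hdeg, hc] at h3
    omega
  have hR := h.rel (hq' := h.q_ne) (h0 := h.ne_zero)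
  have hsemi : SemiInv (LF R ≃ₐ[ℚ] LF R) (rr s R) x :=
    semiInv_single_odd hR.smul hR.anti hR.comm hR.invol hR.ne Nat.prime_five (by norm_num) hco
      (fun d hd y _ hyx hyx' hs he => hR.two' hyx hyx' hd hs (Or.inr he)) hr
      (fun y hy => absurd (hall y) hy)
  apply h.zero
  by_contra hcon
  have hx0 : rr s R x ≠ 0 := by
    intro hx0
    exact hcon fun y => semiInv_zero hsemi hx0 y (hall y)
  have habs : ∀ y, |rr s R y| = 1 := by
    intro y
    have h1 := h.abs_le y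
    rw [h.count_conj x ((mem_orbit_iff_isConjRoot x y).mp (hall y)), hc] at h1
    have h2 := abs_pos.mpr (semiInv_ne_zero hsemi hx0 y (hall y))
    have h3 : |rr s R y| ≤ 1 := by exact_mod_cast h1
    omega
  have hp := h.parity hss
  rw [Finset.sum_congr rfl fun y _ => habs y] at hp
  have hcu : Fintype.card (R.rootSet (LF R)) = 10 := by
    rw [← hco, Nat.card_eq_fintype_card]
    apply Fintype.card_congr
    exact (Equiv.subtypeUnivEquiv hall).symm
  rw [Finset.sum_const, Finset.card_univ, hcu] at hp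
  norm_num at hp

end Ctx

end Pool.Agent.Lib.MP_950c68_ag.Five
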