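import Mathlib
import Pool.Agent.Lib.MP_950c68_ag.Five.G1

namespace Pool.Agent.Lib.MP_950c68_ag.Five

open MulAction Pool.Agent.Lib.MP_950c68_ag.Orb

variable {G Ω : Type*} [Group G] [MulAction G Ω] {ι : G} {Λ : AddSubgroup (Ω → ℤ)}

/-- An element with `g • g • y = ι • y` cuts the orbit of four elements into two pairs. -/
private theorem four_orbit (h : Rel ι Λ) [Finite G] {y : Ω} {g : G}
    (hcy : Nat.card (orbit G y) = 4) (hg : g • g • y = ι • y) :
    ∀ z ∈ orbit G y, z = y ∨ z = ι • y ∨ z = g • y ∨ z = ι • g • y := by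
  classical
  have hfin' : Finite (orbit G y) := Nat.finite_of_card_ne_zero (by omega)
  have hfin : (orbit G y).Finite := Set.toFinite _
  have h1 : g • y ≠ y := by
    intro h2
    rw [h2, h2] at hg
    exact h.ne y hg.symm
  have h2 : g • y ≠ ι • y := by
    intro h3
    rw [h3, h.comm, h3, h.invol] at hg
    exact h.ne y hg.symm
  have h3 : ι • g • y ≠ y := by
    intro h4
    apply h2
    rw [← h4, h.invol]
    rw [h4]
  have h4 : ι • g • y ≠ ι • y := by
    intro h5
    apply h1
    have := congrArg (fun w => ι • w) h5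
    simpa [h.invol] using this
  set S : Finset Ω := {y, ι • y, g • y, ι • g • y} with hS
  have hcardS : S.card = 4 := by
    rw [hS, Finset.card_insert_of_notMem, Finset.card_insert_of_notMem,
      Finset.card_insert_of_notMem, Finset.card_singleton]
    · simp only [Finset.mem_singleton]
      exact fun h5 => h.ne _ h5.symm
    · simp only [Finset.mem_insert, Finset.mem_singleton, not_or]
      exact ⟨fun h5 => h2 h5.symm, fun h5 => h4 h5.symm⟩
    · simp only [Finset.mem_insert, Finset.mem_singleton, not_or]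
      exact ⟨fun h5 => h.ne _ h5.symm, fun h5 => h1 h5.symm, fun h5 => h3 h5.symm⟩
  have hsub : S ⊆ hfin.toFinset := by
    intro z hz
    rw [hS] at hz
    simp only [Finset.mem_insert, Finset.mem_singleton] at hz
    rw [Set.Finite.mem_toFinset]
    rcases hz with rfl | rfl | rfl | rfl
    · exact mem_orbit_self _
    · exact mem_orbit _ _
    · exact mem_orbit _ _
    · exact mem_orbit_smul ι (mem_orbit _ _)
  have hEq : S = hfin.toFinset := by
    apply Finset.eq_of_subset_of_card_le hsub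
    rw [hcardS, ← Set.ncard_eq_toFinset_card _ hfin]
    change Nat.card (orbit G y) ≤ 4
    omega
  intro z hz
  have hz' : z ∈ S := by
    rw [hEq, Set.Finite.mem_toFinset]
    exact hz
  rw [hS] at hz'
  simpa only [Finset.mem_insert, Finset.mem_singleton] using hz'

private theorem abs_cases {n : ℤ} (hn : |n| ≤ 1) : n = 0 ∨ n = 1 ∨ n = -1 := by
  have := abs_le.mp hn
  omega

/-- One nonzero pair. -/
private theorem pick_one (h : Rel ι Λ) {x : Ω} {g : G}
    (hO : ∀ z ∈ orbit G x, z = x ∨ z = ι • x ∨ z = g • x ∨ z = ι • g • x)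
    {r : Ω → ℤ} (hr : r ∈ Λ) (hb : ∀ z, |r z| ≤ 1)
    (hN : r x ^ 2 + r (g • x) ^ 2 = 1) :
    ∃ a ∈ orbit G x, r a = 1 ∧ ∀ z ∈ orbit G x, z ≠ a → z ≠ ι • a → r z = 0 := by
  have hanti := h.anti r hr
  have hx : x ∈ orbit G x := mem_orbit_self _
  have hgx : g • x ∈ orbit G x := mem_orbit _ _
  rcases abs_cases (hb x) with h1 | h1 | h1 <;> rcases abs_cases (hb (g • x)) with h2 | h2 | h2 <;>
    rw [h1, h2] at hN <;> norm_num at hN
  · refine ⟨g • x, hgx, h2, fun z hz hz1 hz2 => ?_⟩
    rcases hO z hz with rfl | rfl | rfl | rfl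
    · exact h1
    · rw [hanti, h1, neg_zero]
    · exact absurd rfl hz1
    · exact absurd rfl hz2
  · refine ⟨ι • g • x, mem_orbit_smul ι hgx, by rw [hanti, h2, neg_neg], fun z hz hz1 hz2 => ?_⟩
    rcases hO z hz with rfl | rfl | rfl | rfl
    · exact h1
    · rw [hanti, h1, neg_zero]
    · exact absurd (h.invol _).symm hz2
    · exact absurd rfl hz1
  · refine ⟨x, hx, h1, fun z hz hz1 hz2 => ?_⟩
    rcases hO z hz with rfl | rfl | rfl | rfl
    · exact absurd rfl hz1
    · exact absurd rfl hz2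
    · exact h2
    · rw [hanti, h2, neg_zero]
  · refine ⟨ι • x, mem_orbit_smul ι hx, by rw [hanti, h1, neg_neg], fun z hz hz1 hz2 => ?_⟩
    rcases hO z hz with rfl | rfl | rfl | rfl
    · exact absurd (h.invol _).symm hz2
    · exact absurd rfl hz1
    · exact h2
    · rw [hanti, h2, neg_zero]

/-- One of `z`, `ι • z` has value one. -/
private theorem pick_sign (h : Rel ι Λ) {z : Ω} {r : Ω → ℤ} (hr : r ∈ Λ)
    (hz : r z = 1 ∨ r z = -1) : ∃ a, (a = z ∨ a = ι • z) ∧ r a = 1 := by
  rcases hz with hz | hz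
  · exact ⟨z, Or.inl rfl, hz⟩
  · exact ⟨ι • z, Or.inr rfl, by rw [h.anti r hr, hz, neg_neg]⟩

/-- Two nonzero pairs. -/
private theorem pick_two (h : Rel ι Λ) {x : Ω} {g : G} (hg : g • g • x = ι • x)
    (hO : ∀ z ∈ orbit G x, z = x ∨ z = ι • x ∨ z = g • x ∨ z = ι • g • x)
    {r : Ω → ℤ} (hr : r ∈ Λ) (hb : ∀ z, |r z| ≤ 1)
    (hN : r x ^ 2 + r (g • x) ^ 2 = 2) :
    ∃ b ∈ orbit G x, ∃ c ∈ orbit G x, b ≠ c ∧ b ≠ ι • c ∧ r b = 1 ∧ r c = 1 ∧
      ∀ z ∈ orbit G x, z = b ∨ z = ι • b ∨ z = c ∨ z = ι • c := by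
  have hx : x ∈ orbit G x := mem_orbit_self _
  have hgx : g • x ∈ orbit G x := mem_orbit _ _
  have h1 : g • x ≠ x := by
    intro h2
    rw [h2, h2] at hg
    exact h.ne x hg.symm
  have h2 : g • x ≠ ι • x := by
    intro h3
    rw [h3, h.comm, h3, h.invol] at hg
    exact h.ne x hg.symm
  have hinj : ∀ u v : Ω, ι • u = v → u = ι • v := by
    intro u v huv
    rw [← huv, h.invol]
  have ha : r x = 1 ∨ r x = -1 := by
    rcases abs_cases (hb x) with h3 | h3 | h3
    · rcases abs_cases (hb (g • x)) with h4 | h4 | h4 <;> rw [h3, h4] at hN <;> norm_num at hN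
    · exact Or.inl h3
    · exact Or.inr h3
  have hb' : r (g • x) = 1 ∨ r (g • x) = -1 := by
    rcases abs_cases (hb (g • x)) with h3 | h3 | h3
    · rcases abs_cases (hb x) with h4 | h4 | h4 <;> rw [h3, h4] at hN <;> norm_num at hN
    · exact Or.inl h3
    · exact Or.inr h3
  obtain ⟨b, hb1, hb2⟩ := pick_sign h hr ha
  obtain ⟨c, hc1, hc2⟩ := pick_sign h hr hb'
  have hbo : b ∈ orbit G x := by
    rcases hb1 with rfl | rfl
    · exact hx
    · exact mem_orbit_smul ι hx
  have hco : c ∈ orbit G x := by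
    rcases hc1 with rfl | rfl
    · exact hgx
    · exact mem_orbit_smul ι hgx
  refine ⟨b, hbo, c, hco, ?_, ?_, hb2, hc2, ?_⟩
  · intro hbc
    rcases hb1 with rfl | rfl <;> rcases hc1 with rfl | rfl
    · exact h1 hbc.symm
    · exact h2 (hinj _ _ hbc.symm)
    · exact h2 hbc.symm
    · exact h1 (by have := hinj _ _ hbc.symm; rwa [h.invol] at this)
  · intro hbc
    rcases hb1 with rfl | rfl <;> rcases hc1 with rfl | rfl
    · exact h2 (hinj _ _ hbc.symm)
    · rw [h.invol] at hbc
      exact h1 hbc.symm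
    · exact h1 (by have := hinj _ _ hbc.symm; rwa [h.invol] at this)
    · rw [h.invol] at hbc
      exact h2 hbc.symm
  · intro z hz
    rcases hO z hz with hz | hz | hz | hz
    · rcases hb1 with hb1 | hb1
      · exact Or.inl (hz.trans hb1.symm)
      · exact Or.inr (Or.inl (by rw [hb1, h.invol, hz]))
    · rcases hb1 with hb1 | hb1
      · exact Or.inr (Or.inl (by rw [hb1, hz]))
      · exact Or.inl (hz.trans hb1.symm)
    · rcases hc1 with hc1 | hc1
      · exact Or.inr (Or.inr (Or.inl (hz.trans hc1.symm)))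
      · exact Or.inr (Or.inr (Or.inr (by rw [hc1, h.invol, hz])))
    · rcases hc1 with hc1 | hc1
      · exact Or.inr (Or.inr (Or.inr (by rw [hc1, hz])))
      · exact Or.inr (Or.inr (Or.inl (hz.trans hc1.symm)))

private theorem two_squares {A B N : ℤ} (hN : N = 1 ∨ N = 2) (hs : A ^ 2 + B ^ 2 = N ^ 2) :
    (B = 0 ∧ (A = N ∨ A = -N)) ∨ (A = 0 ∧ (B = N ∨ B = -N)) := by
  have hA : |A| ≤ 2 := by
    apply abs_le_of_sq_le_sq _ (by norm_num)
    rcases hN with rfl | rfl <;> nlinarith [sq_nonneg B]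
  have hB : |B| ≤ 2 := by
    apply abs_le_of_sq_le_sq _ (by norm_num)
    rcases hN with rfl | rfl <;> nlinarith [sq_nonneg A]
  obtain ⟨hA1, hA2⟩ := abs_le.mp hA
  obtain ⟨hB1, hB2⟩ := abs_le.mp hB
  rcases hN with rfl | rfl <;> interval_cases A <;> interval_cases B <;>
    first | (exfalso; revert hs; norm_num; done) | norm_num

/-- Relations with the same number of nonzero pairs on both orbits vanish. -/
private theorem eq_norms (h : Rel ι Λ) {x y : Ω} {g : G} (hxy : y ∉ orbit G x)
    (hgx : g • g • x = ι • x) (hgy : g • g • y = ι • y)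
    (hOx : ∀ z ∈ orbit G x, z = x ∨ z = ι • x ∨ z = g • x ∨ z = ι • g • x)
    (hOy : ∀ z ∈ orbit G y, z = y ∨ z = ι • y ∨ z = g • y ∨ z = ι • g • y)
    {r : Ω → ℤ} (hr : r ∈ Λ)
    (hoff : ∀ z, z ∉ orbit G x → z ∉ orbit G y → r z = 0) {N : ℤ} (hN : N = 1 ∨ N = 2)
    (h1 : r x ^ 2 + r (g • x) ^ 2 = N) (h2 : r y ^ 2 + r (g • y) ^ 2 = N) : False := by
  have hanti := h.anti r hr
  have hxo : x ∈ orbit G x := mem_orbit_self _
  have hyo : y ∈ orbit G y := mem_orbit_self _
  have hdis : ∀ z, z ∈ orbit G y → z ∉ orbit G x := by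
    intro z hz hz'
    apply hxy
    have h3 : orbit G z = orbit G x := orbit_eq_iff.mpr hz'
    have h4 : orbit G z = orbit G y := orbit_eq_iff.mpr hz
    rw [← h3, h4]
    exact hyo
  set e : Ω → ℤ := fun z => r x * r z + r (g • x) * r (g • z) with he
  have heΛ : e ∈ Λ := by
    have h3 : e = r x • r + r (g • x) • (fun z => r (g • z)) := by
      funext z
      simp [he]
    rw [h3]
    exact Λ.add_mem (Λ.zsmul_mem hr _) (Λ.zsmul_mem (h.smul r hr g) _)
  have hea := h.anti e heΛ
  have ex : e x = N := by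
    simp only [he]
    rw [← h1]
    ring
  have egx : e (g • x) = 0 := by
    simp only [he]
    rw [hgx, hanti]
    ring
  have eoff : ∀ z, z ∉ orbit G x → z ∉ orbit G y → e z = 0 := by
    intro z hz1 hz2
    have h3 : g • z ∉ orbit G x := by
      intro h4
      apply hz1
      have := mem_orbit_smul g⁻¹ h4
      rwa [inv_smul_smul] at this
    have h4 : g • z ∉ orbit G y := by
      intro h4
      apply hz2
      have := mem_orbit_smul g⁻¹ h4
      rwa [inv_smul_smul] at this
    simp only [he]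
    rw [hoff z hz1 hz2, hoff _ h3 h4]
    ring
  have ey : e y = r x * r y + r (g • x) * r (g • y) := rfl
  have egy : e (g • y) = r x * r (g • y) - r (g • x) * r y := by
    simp only [he]
    rw [hgy, hanti]
    ring
  have hsum : e y ^ 2 + e (g • y) ^ 2 = N ^ 2 := by
    rw [ey, egy]
    have : (r x ^ 2 + r (g • x) ^ 2) * (r y ^ 2 + r (g • y) ^ 2) = N * N := by rw [h1, h2]
    linear_combination this
  have hcase : (e (g • y) = 0 ∧ (e y = N ∨ e y = -N)) ∨
      (e y = 0 ∧ (e (g • y) = N ∨ e (g • y) = -N)) := two_squares hN hsum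
  have hy1 : y ≠ x := fun h3 => hdis y hyo (h3 ▸ hxo)
  have hy2 : y ≠ ι • x := fun h3 => hdis y hyo (h3 ▸ mem_orbit _ _)
  have hgyo : g • y ∈ orbit G y := mem_orbit _ _
  have hgy1 : g • y ≠ x := fun h3 => hdis _ hgyo (h3 ▸ hxo)
  have hgy2 : g • y ≠ ι • x := fun h3 => hdis _ hgyo (h3 ▸ mem_orbit _ _)
  have hfin : e x = 0 := by
    rcases hcase with ⟨h3, h4⟩ | ⟨h3, h4⟩
    · refine h.two' hy1 hy2 heΛ ?_ (by rw [ex]; exact h4)
      intro z hz1 hz2 hz3 hz4
      by_cases hzx : z ∈ orbit G x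
      · rcases hOx z hzx with hz | hz | hz | hz
        · exact absurd hz hz1
        · exact absurd hz hz2
        · rw [hz, egx]
        · rw [hz, hea, egx, neg_zero]
      · by_cases hzy : z ∈ orbit G y
        · rcases hOy z hzy with hz | hz | hz | hz
          · exact absurd hz hz3
          · exact absurd hz hz4
          · rw [hz, h3]
          · rw [hz, hea, h3, neg_zero]
        · exact eoff z hzx hzy
    · refine h.two' hgy1 hgy2 heΛ ?_ (by rw [ex]; exact h4)
      intro z hz1 hz2 hz3 hz4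
      by_cases hzx : z ∈ orbit G x
      · rcases hOx z hzx with hz | hz | hz | hz
        · exact absurd hz hz1
        · exact absurd hz hz2
        · rw [hz, egx]
        · rw [hz, hea, egx, neg_zero]
      · by_cases hzy : z ∈ orbit G y
        · rcases hOy z hzy with hz | hz | hz | hz
          · rw [hz, h3]
          · rw [hz, hea, h3, neg_zero]
          · exact absurd hz hz3
          · exact absurd hz hz4
        · exact eoff z hzx hzy
  rw [ex] at hfin
  rcases hN with h3 | h3 <;> omega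

/-- G5: two orbits with four elements and the same kernel, and at most one other pair. -/
theorem Rel.four_four (h : Rel ι Λ) [Finite G] {x y : Ω} (hx : FourType ι x)
    (hcx : Nat.card (orbit G x) = 4) (hcy : Nat.card (orbit G y) = 4) (hxy : y ∉ orbit G x)
    (hker : ∀ σ : G, (∀ z ∈ orbit G x, σ • z = z) → ∀ z ∈ orbit G y, σ • z = z)
    (hother : ∀ z z', z ∉ orbit G x → z ∉ orbit G y → z' ∉ orbit G x → z' ∉ orbit G y →
      z' = z ∨ z' = ι • z)
    {r : Ω → ℤ} (hr : r ∈ Λ) (hb : ∀ z, |r z| ≤ 1) :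
    (∀ z, r z = 0) ∨
      ∃ a b c : Ω, ((a ∈ orbit G x ∧ b ∈ orbit G y ∧ c ∈ orbit G y) ∨
          (a ∈ orbit G y ∧ b ∈ orbit G x ∧ c ∈ orbit G x)) ∧
        b ≠ c ∧ b ≠ ι • c ∧ r a = 1 ∧ r b = 1 ∧ r c = 1 ∧
        ∀ z, z ≠ a → z ≠ ι • a → z ≠ b → z ≠ ι • b → z ≠ c → z ≠ ι • c → r z = 0 := by
  classical
  obtain ⟨g, hg, hO⟩ := hx
  have hanti := h.anti r hr
  have hxo : x ∈ orbit G x := mem_orbit_self _
  have hyo : y ∈ orbit G y := mem_orbit_self _
  have hsmul : ∀ (σ : G) (u z : Ω), σ • z ∈ orbit G u ↔ z ∈ orbit G u := by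
    intro σ u z
    constructor
    · intro h4
      have := mem_orbit_smul σ⁻¹ h4
      rwa [inv_smul_smul] at this
    · exact fun h4 => mem_orbit_smul σ h4
  have hsqx : ∀ z ∈ orbit G x, g • g • z = ι • z := by
    intro z hz
    rcases hO z hz with rfl | rfl | rfl | rfl
    · exact hg
    · rw [h.comm, h.comm, hg]
    · rw [hg, h.comm]
    · rw [h.comm, h.comm, hg, h.comm]
  have hsqy : ∀ z ∈ orbit G y, g • g • z = ι • z := by
    intro z hz
    have h3 := hker (g * g * ι) (by
      intro w hw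
      rw [mul_smul, mul_smul, hsqx _ ((hsmul ι x w).mpr hw), h.invol]) (ι • z) ((hsmul ι y z).mpr hz)
    rw [mul_smul, mul_smul, h.invol] at h3
    exact h3
  have hgy := hsqy y hyo
  have hOy := four_orbit h hcy hgy
  -- the relation vanishes off the two orbits
  set ρ : Ω → ℤ := fun z => if z ∈ orbit G x ∨ z ∈ orbit G y then r z else 0 with hρ
  have hρΛ : ρ ∈ Λ := by
    apply h.sat ρ 2 (by norm_num)
    have h3 : (fun z => 2 * ρ z) = r - fun z => r (g • g • z) := by
      funext z
      simp only [hρ, Pi.sub_apply]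
      by_cases hz : z ∈ orbit G x ∨ z ∈ orbit G y
      · rw [if_pos hz]
        have h4 : g • g • z = ι • z := by
          rcases hz with hz | hz
          · exact hsqx z hz
          · exact hsqy z hz
        rw [h4, hanti]
        ring
      · rw [if_neg hz]
        push Not at hz
        have h4 : g • g • z = z := by
          rcases hother z (g • z) hz.1 hz.2 (fun h5 => hz.1 ((hsmul g x z).mp h5))
            (fun h5 => hz.2 ((hsmul g y z).mp h5)) with h5 | h5
          · rw [h5, h5]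
          · rw [h5, h.comm, h5, h.invol]
        rw [h4]
        ring
    rw [h3]
    apply Λ.sub_mem hr
    have := h.smul _ (h.smul r hr g) g
    exact this
  have hoff : ∀ z, z ∉ orbit G x → z ∉ orbit G y → r z = 0 := by
    intro z hz1 hz2
    have h3 := h.pair z (r - ρ) (Λ.sub_mem hr hρΛ) (by
      intro w hw1 hw2
      simp only [Pi.sub_apply, hρ]
      by_cases hw : w ∈ orbit G x ∨ w ∈ orbit G y
      · rw [if_pos hw, sub_self]
      · push Not at hw
        rcases hother z w hz1 hz2 hw.1 hw.2 with h4 | h4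
        · exact absurd h4 hw1
        · exact absurd h4 hw2)
    simp only [Pi.sub_apply, hρ] at h3
    rw [if_neg (by push Not; exact ⟨hz1, hz2⟩), sub_zero] at h3
    exact h3
  by_cases hax : r x ^ 2 + r (g • x) ^ 2 = 0
  · left
    have h3 : r x = 0 := by nlinarith [sq_nonneg (r x), sq_nonneg (r (g • x))]
    have h4 : r (g • x) = 0 := by nlinarith [sq_nonneg (r x), sq_nonneg (r (g • x))]
    apply h.four hcy hr
    intro z hz
    by_cases hzx : z ∈ orbit G x
    · rcases hO z hzx with h5 | h5 | h5 | h5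
      · rw [h5, h3]
      · rw [h5, hanti, h3, neg_zero]
      · rw [h5, h4]
      · rw [h5, hanti, h4, neg_zero]
    · exact hoff z hzx hz
  by_cases hay : r y ^ 2 + r (g • y) ^ 2 = 0
  · left
    have h3 : r y = 0 := by nlinarith [sq_nonneg (r y), sq_nonneg (r (g • y))]
    have h4 : r (g • y) = 0 := by nlinarith [sq_nonneg (r y), sq_nonneg (r (g • y))]
    apply h.four hcx hr
    intro z hz
    by_cases hzy : z ∈ orbit G y
    · rcases hOy z hzy with h5 | h5 | h5 | h5
      · rw [h5, h3]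
      · rw [h5, hanti, h3, neg_zero]
      · rw [h5, h4]
      · rw [h5, hanti, h4, neg_zero]
    · exact hoff z hz hzy
  have hcx' : r x ^ 2 + r (g • x) ^ 2 = 1 ∨ r x ^ 2 + r (g • x) ^ 2 = 2 := by
    rcases abs_cases (hb x) with h1 | h1 | h1 <;> rcases abs_cases (hb (g • x)) with h2 | h2 | h2 <;>
      rw [h1, h2] at hax ⊢ <;> first | (exfalso; apply hax; norm_num; done) | norm_num
  have hcy' : r y ^ 2 + r (g • y) ^ 2 = 1 ∨ r y ^ 2 + r (g • y) ^ 2 = 2 := by
    rcases abs_cases (hb y) with h1 | h1 | h1 <;> rcases abs_cases (hb (g • y)) with h2 | h2 | h2 <;>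
      rw [h1, h2] at hay ⊢ <;> first | (exfalso; apply hay; norm_num; done) | norm_num
  rcases hcx' with h1 | h1 <;> rcases hcy' with h2 | h2
  · exact (eq_norms h hxy hg hgy hO hOy hr hoff (Or.inl rfl) h1 h2).elim
  · right
    obtain ⟨a, ha, ha1, ha2⟩ := pick_one h hO hr hb h1
    obtain ⟨b, hbo, c, hco, hbc, hbc', hb1, hc1, hall⟩ := pick_two h hgy hOy hr hb h2
    refine ⟨a, b, c, Or.inl ⟨ha, hbo, hco⟩, hbc, hbc', ha1, hb1, hc1, ?_⟩
    intro z hz1 hz2 hz3 hz4 hz5 hz6
    by_cases hzx : z ∈ orbit G x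
    · exact ha2 z hzx hz1 hz2
    · by_cases hzy : z ∈ orbit G y
      · rcases hall z hzy with h5 | h5 | h5 | h5
        · exact absurd h5 hz3
        · exact absurd h5 hz4
        · exact absurd h5 hz5
        · exact absurd h5 hz6
      · exact hoff z hzx hzy
  · right
    obtain ⟨a, ha, ha1, ha2⟩ := pick_one h hOy hr hb h2
    obtain ⟨b, hbo, c, hco, hbc, hbc', hb1, hc1, hall⟩ := pick_two h hg hO hr hb h1
    refine ⟨a, b, c, Or.inr ⟨ha, hbo, hco⟩, hbc, hbc', ha1, hb1, hc1, ?_⟩
    intro z hz1 hz2 hz3 hz4 hz5 hz6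
    by_cases hzy : z ∈ orbit G y
    · exact ha2 z hzy hz1 hz2
    · by_cases hzx : z ∈ orbit G x
      · rcases hall z hzx with h5 | h5 | h5 | h5
        · exact absurd h5 hz3
        · exact absurd h5 hz4
        · exact absurd h5 hz5
        · exact absurd h5 hz6
      · exact hoff z hzx hzy
  · exact (eq_norms h hxy hg hgy hO hOy hr hoff (Or.inr rfl) h1 h2).elim

end Pool.Agent.Lib.MP_950c68_ag.Five
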