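import Mathlib
import Pool.Agent.Lib.MP_950c68_ag.Five.G1

namespace Pool.Agent.Lib.MP_950c68_ag.Five

open MulAction Pool.Agent.Lib.MP_950c68_ag.Orb

variable {G Ω : Type*} [Group G] [MulAction G Ω] {ι : G} {Λ : AddSubgroup (Ω → ℤ)}

private theorem sum_four {M : Type*} [AddCommMonoid M] [Fintype Ω] (h : Rel ι Λ) {x w : Ω}
    (hall : ∀ z, z = x ∨ z = ι • x ∨ z = w ∨ z = ι • w) (hwx : w ≠ x) (hwx' : w ≠ ι • x)
    (f : Ω → M) : ∑ z, f z = f x + (f (ι • x) + (f w + f (ι • w))) := by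
  classical
  have hu : (Finset.univ : Finset Ω) = {x, ι • x, w, ι • w} := by
    ext z
    simp only [Finset.mem_univ, Finset.mem_insert, Finset.mem_singleton, true_iff]
    exact hall z
  have hinj : ∀ a b : Ω, ι • a = ι • b → a = b := fun a b h => smul_left_cancel ι h
  have a1 : x ∉ ({ι • x, w, ι • w} : Finset Ω) := by
    simp only [Finset.mem_insert, Finset.mem_singleton, not_or]
    refine ⟨fun e => h.ne x e.symm, fun e => hwx e.symm, fun e => hwx' ?_⟩
    rw [e, h.invol]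
  have a2 : ι • x ∉ ({w, ι • w} : Finset Ω) := by
    simp only [Finset.mem_insert, Finset.mem_singleton, not_or]
    exact ⟨fun e => hwx' e.symm, fun e => hwx (hinj _ _ e).symm⟩
  have a3 : w ∉ ({ι • w} : Finset Ω) := by
    simp only [Finset.mem_singleton]
    exact fun e => h.ne w e.symm
  rw [hu, Finset.sum_insert a1, Finset.sum_insert a2, Finset.sum_insert a3, Finset.sum_singleton]

/-- G6: two orbits with two elements; `x` has multiplicity four. -/
theorem Rel.two_two (h : Rel ι Λ) {x w : Ω} [Fintype Ω]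
    (hall : ∀ z, z = x ∨ z = ι • x ∨ z = w ∨ z = ι • w) (hwx : w ≠ x) (hwx' : w ≠ ι • x)
    {ν : Ω → ℝ} (hν : ∀ y, ν (ι • y) = - ν y)
    (hνx : ∃ m : ℤ, 4 * (ν x - 1 / 2) = m) (hνw : ∃ m : ℤ, ν w - 1 / 2 = m)
    (hνw' : |ν w| ≤ 1 / 2)
    {r : Ω → ℤ} (hr : r ∈ Λ) (hrel : ∑ z, (r z : ℝ) * ν z = 0)
    (hb : |r x| ≤ 4) (hbw : |r w| ≤ 1) (hpar : (4 : ℤ) ∣ ∑ z, |r z|) : ∀ z, r z = 0 := by
  have hanti := h.anti r hr
  rw [sum_four h hall hwx hwx'] at hrel hpar
  rw [hanti, hanti, hν, hν] at hrel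
  rw [hanti, hanti, abs_neg, abs_neg] at hpar
  push_cast at hrel
  have key : r x = 0 → r w = 0 → ∀ z, r z = 0 := by
    intro h1 h2 z
    rcases hall z with rfl | rfl | rfl | rfl
    · exact h1
    · rw [hanti, h1, neg_zero]
    · exact h2
    · rw [hanti, h2, neg_zero]
  by_cases hw0 : r w = 0
  · refine key (h.pair x r hr fun y hy1 hy2 => ?_) hw0
    rcases hall y with e | e | e | e
    · exact absurd e hy1
    · exact absurd e hy2
    · rw [e, hw0]
    · rw [e, hanti, hw0, neg_zero]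
  exfalso
  obtain ⟨m, hm⟩ := hνx
  obtain ⟨n, hn⟩ := hνw
  have hn' : n = 0 ∨ n = -1 := by
    rw [abs_le] at hνw'
    have h1 : (n : ℝ) ≤ 0 := by linarith [hνw'.2]
    have h2 : (-1 : ℝ) ≤ n := by linarith [hνw'.1]
    have h3 : n ≤ 0 := by exact_mod_cast h1
    have h4 : -1 ≤ n := by exact_mod_cast h2
    omega
  have hw1 : r w = 1 ∨ r w = -1 := by
    rw [abs_le] at hbw
    omega
  have heq : r x * (m + 2) + r w * (4 * n + 2) = 0 := by
    have h1 : ν x = (m : ℝ) / 4 + 1 / 2 := by linarith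
    have h2 : ν w = (n : ℝ) + 1 / 2 := by linarith
    rw [h1, h2] at hrel
    have h3 : ((r x * (m + 2) + r w * (4 * n + 2) : ℤ) : ℝ) = 0 := by
      push_cast
      linarith
    exact_mod_cast h3
  have hodd : r x = 1 ∨ r x = -1 ∨ r x = 3 ∨ r x = -3 := by
    have h1 : |r w| = 1 := by rcases hw1 with e | e <;> rw [e] <;> norm_num
    rw [h1] at hpar
    rcases abs_cases (r x) with ⟨e, _⟩ | ⟨e, _⟩ <;> rw [e] at hpar hb <;> omega
  have hone : r x = 1 ∨ r x = -1 := by
    rcases hodd with e | e | e | e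
    · exact Or.inl e
    · exact Or.inr e
    · exfalso
      rw [e] at heq
      rcases hn' with rfl | rfl <;> rcases hw1 with e1 | e1 <;> rw [e1] at heq <;> omega
    · exfalso
      rw [e] at heq
      rcases hn' with rfl | rfl <;> rcases hw1 with e1 | e1 <;> rw [e1] at heq <;> omega
  have h0 : r x = 0 := by
    refine h.two' hwx hwx' hr (fun z h1 h2 h3 h4 => ?_) ?_
    · rcases hall z with e | e | e | e
      · exact absurd e h1
      · exact absurd e h2
      · exact absurd e h3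
      · exact absurd e h4
    · omega
  omega

end Pool.Agent.Lib.MP_950c68_ag.Five
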