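import Mathlib
import Pool.Agent.Lib.MP_950c68_ag.Five.CaseEight
import Pool.Agent.Lib.MP_950c68_ag.Five.A7
import Pool.Agent.Lib.MP_950c68_ag.Five.G5
import Pool.Agent.Lib.MP_950c68_ag.Five.G6

/-!
# Weil numbers of degree two and four
-/

namespace Pool.Agent.Lib.MP_950c68_ag.Five

open Polynomial MulAction Pool.Agent.Lib.MP_950c68_ag.Orb Pool.Agent.Lib.MP_950c68_ag.Dim3

variable {p : ℕ} [Fact p.Prime] {q f : ℕ}

/-- There is no exceptional Tate class on `B × C × E` with abelian surfaces `B` and `C` and a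
supersingular elliptic curve `E`. -/
def NoExc (q : ℕ) (T : Multiset ℂ) : Prop :=
  ∀ x ∈ T, ∀ y ∈ T, ∀ z ∈ T, ∀ w ∈ T, w ^ 2 = (q : ℂ) → (minpoly ℚ x).natDegree = 4 →
    (minpoly ℚ y).natDegree = 4 → IsConjRoot ℚ y z → y ≠ z → ¬ IsConjRoot ℚ x y →
    ¬ IsTate q {x, y, z, w}

namespace Ctx

variable {T s : Multiset ℂ} {R : ℚ[X]} (h : Ctx p q T s R)

include h

/-- A member of degree four and multiplicity two. -/
theorem four (hrr : ∀ (hq' : (q : ℂ) ≠ 0) (h0 : ∀ x : R.rootSet (LF R), ((x : LF R) : ℂ) ≠ 0),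
      rr s R ∈ Sat R q hq' h0) (hcard : Multiset.card T ≤ 10)
    {x : R.rootSet (LF R)} (hdeg : (minpoly ℚ ((x : LF R) : ℂ)).natDegree = 4)
    (hc : 2 ≤ T.count ((x : LF R) : ℂ)) : G0 p q s := by
  have hx8 : 8 ≤ (minpoly ℚ ((x : LF R) : ℂ)).natDegree * T.count ((x : LF R) : ℂ) := by
    rw [hdeg]
    omega
  obtain ⟨ho1, ho2⟩ := h.other hcard hx8
  have hr := hrr h.q_ne h.ne_zero
  have hco : Nat.card (orbit (LF R ≃ₐ[ℚ] LF R) x) = 4 := by rw [card_orbit h.hR0, hdeg]
  apply h.zero
  by_cases hex : ∃ z, z ∉ orbit (LF R ≃ₐ[ℚ] LF R) x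
  · obtain ⟨z, hz⟩ := hex
    refine h.rel.four_one hco ho1 hr (fun z hz => ?_) (h.parity (ho2 z hz).2.2)
    have h3 := h.abs_le z
    rw [(ho2 z hz).2.1] at h3
    exact_mod_cast h3
  · push Not at hex
    exact h.rel.four hco hr fun z hz => absurd (hex z) hz

/-- A member of degree two and multiplicity at least four. -/
theorem two (hrr : ∀ (hq' : (q : ℂ) ≠ 0) (h0 : ∀ x : R.rootSet (LF R), ((x : LF R) : ℂ) ≠ 0),
      rr s R ∈ Sat R q hq' h0) (hqp : q = p ^ f) (hcard : Multiset.card T ≤ 10)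
    {x : R.rootSet (LF R)} (hdeg : (minpoly ℚ ((x : LF R) : ℂ)).natDegree = 2)
    (hc : 4 ≤ T.count ((x : LF R) : ℂ)) : G0 p q s := by
  classical
  have hx8 : 8 ≤ (minpoly ℚ ((x : LF R) : ℂ)).natDegree * T.count ((x : LF R) : ℂ) := by
    rw [hdeg]
    omega
  obtain ⟨ho1, ho2⟩ := h.other hcard hx8
  have hr := hrr h.q_ne h.ne_zero
  have hox := orbit_two h.hR0 h.W h.hq h.ns x hdeg
  apply h.zero
  by_cases hex : ∃ w, w ∉ orbit (LF R ≃ₐ[ℚ] LF R) x
  · obtain ⟨w, hw⟩ := hex
    obtain ⟨hw2, hw1, hss⟩ := ho2 w hw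
    have hcx : T.count ((x : LF R) : ℂ) = 4 := by
      have h1 := natDegree_mul_count_add_le h.av (h.mem_T x) (h.mem_T w)
        (by rwa [← mem_orbit_iff_isConjRoot])
      rw [hdeg, hw2, hw1] at h1
      omega
    obtain ⟨φ⟩ := exists_place R p
    have hf := h.exponent_ne_zero hqp x
    have hall : ∀ z, z = x ∨ z = iota R • x ∨ z = w ∨ z = iota R • w := by
      intro z
      by_cases hz : z ∈ orbit (LF R ≃ₐ[ℚ] LF R) x
      · rcases hox z hz with h1 | h1
        · exact Or.inl h1
        · exact Or.inr (Or.inl h1)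
      · exact Or.inr (Or.inr (ho1 w z hw hz))
    have hwx : w ≠ x := by
      rintro rfl
      exact hw (mem_orbit_self _)
    have hwx' : w ≠ iota R • x := by
      intro h1
      apply hw
      rw [h1]
      exact mem_orbit x _
    have hν := nu_iota hqp hf h.W φ
    -- the fibers of the valuation
    have hfib : ∀ y : R.rootSet (LF R), (∀ z ∈ orbit (LF R ≃ₐ[ℚ] LF R) y, z = y ∨ z = iota R • y) →
        nu q φ y ≠ 0 →
        Nat.card {z : orbit (LF R ≃ₐ[ℚ] LF R) y // nu q φ z = nu q φ y} = 1 := by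
      intro y hy hy0
      rw [Nat.card_eq_one_iff_unique]
      refine ⟨⟨?_⟩, ⟨⟨⟨y, mem_orbit_self y⟩, rfl⟩⟩⟩
      have key : ∀ z : {z : orbit (LF R ≃ₐ[ℚ] LF R) y // nu q φ z = nu q φ y},
          ((z : orbit (LF R ≃ₐ[ℚ] LF R) y) : R.rootSet (LF R)) = y := by
        rintro ⟨⟨z, hz⟩, hz'⟩
        rcases hy z hz with h1 | h1
        · exact h1
        · exfalso
          simp only at hz'
          rw [h1, hν] at hz'
          apply hy0
          linarith
      intro a b
      apply Subtype.ext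
      apply Subtype.ext
      rw [key a, key b]
    have hνx : ∃ m : ℤ, 4 * (nu q φ x - 1 / 2) = m := by
      by_cases hx0 : nu q φ x = 0
      · refine ⟨-2, ?_⟩
        rw [hx0]
        norm_num
      · obtain ⟨m, hm⟩ := h.pattern hqp φ x (nu q φ x)
        rw [hfib x hox hx0, hcx] at hm
        refine ⟨m, ?_⟩
        rw [← hm]
        push_cast
        ring
    have how := orbit_two h.hR0 h.W h.hq h.ns w hw2
    have hw0 : nu q φ w ≠ 0 := by
      intro hw0
      apply iota_ne h.W h.hq h.ns w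
      apply h.eq_of_nu hqp φ
      intro g
      rw [smul_iota h.W h.hq, hν]
      have h1 : nu q φ (g • w) = 0 := by
        rcases how _ (mem_orbit w g) with h1 | h1
        · rw [h1, hw0]
        · rw [h1, hν, hw0, neg_zero]
      rw [h1, neg_zero]
    have hνw : ∃ m : ℤ, nu q φ w - 1 / 2 = m := by
      obtain ⟨m, hm⟩ := h.pattern hqp φ w (nu q φ w)
      rw [hfib w how hw0, hw1] at hm
      refine ⟨m, ?_⟩
      rw [← hm]
      push_cast
      ring
    refine h.rel.two_two hall hwx hwx' hν hνx hνw (abs_nu_le hqp hf h.W h.int φ w) hr ?_ ?_ ?_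
      (h.parity hss)
    · have h1 := sum_nu_sat hqp hf h.W φ hr 1
      simpa only [one_smul] using h1
    · have h1 := h.abs_le x
      rw [hcx] at h1
      exact_mod_cast h1
    · have h1 := h.abs_le w
      rw [hw1] at h1
      exact_mod_cast h1
  · push Not at hex
    have h1 := h.rel.pair x _ hr fun y hy hy' => by
      rcases hox y (hex y) with h2 | h2
      · exact absurd h2 hy
      · exact absurd h2 hy'
    intro y
    rcases hox y (hex y) with rfl | rfl
    · exact h1
    · rw [h.anti, h1, neg_zero]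

/-- Two members of degree four with the same Galois closure. -/
theorem four_four (hrr : ∀ (hq' : (q : ℂ) ≠ 0)
      (h0 : ∀ x : R.rootSet (LF R), ((x : LF R) : ℂ) ≠ 0), rr s R ∈ Sat R q hq' h0)
    (hqp : q = p ^ f) (hcard : Multiset.card T ≤ 10) (hno : NoExc q T)
    {x y : R.rootSet (LF R)} (hdx : (minpoly ℚ ((x : LF R) : ℂ)).natDegree = 4)
    (hdy : (minpoly ℚ ((y : LF R) : ℂ)).natDegree = 4)
    (hxy : y ∉ orbit (LF R ≃ₐ[ℚ] LF R) x)
    (hcl : IntermediateField.adjoin ℚ {z : ℂ | IsConjRoot ℚ ((x : LF R) : ℂ) z} =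
      IntermediateField.adjoin ℚ {z : ℂ | IsConjRoot ℚ ((y : LF R) : ℂ) z}) : G0 p q s := by
  classical
  have hr := hrr h.q_ne h.ne_zero
  have hcx' : Nat.card (orbit (LF R ≃ₐ[ℚ] LF R) x) = 4 := by rw [card_orbit h.hR0, hdx]
  have hcy' : Nat.card (orbit (LF R ≃ₐ[ℚ] LF R) y) = 4 := by rw [card_orbit h.hR0, hdy]
  have hxy' : ¬ IsConjRoot ℚ ((x : LF R) : ℂ) ((y : LF R) : ℂ) := by
    rwa [← mem_orbit_iff_isConjRoot]
  have hT2 := natDegree_mul_count_add_le h.av (h.mem_T x) (h.mem_T y) hxy'
  have hpx := h.count_pos x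
  have hpy := h.count_pos y
  rw [hdx, hdy] at hT2
  have hcx : T.count ((x : LF R) : ℂ) = 1 := by omega
  have hcy : T.count ((y : LF R) : ℂ) = 1 := by omega
  -- the other roots
  have hdeg : ∀ z, z ∉ orbit (LF R ≃ₐ[ℚ] LF R) x → z ∉ orbit (LF R ≃ₐ[ℚ] LF R) y →
      (minpoly ℚ ((z : LF R) : ℂ)).natDegree = 2 ∧ T.count ((z : LF R) : ℂ) = 1 := by
    intro z hz hz'
    rw [mem_orbit_iff_isConjRoot] at hz hz'
    have h1 := natDegree_mul_count_add_add_le h.av (h.mem_T x) (h.mem_T y) (h.mem_T z) hxy' hz hz'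
    obtain ⟨d, hd, hd'⟩ := h.exists_degree z
    have h2 := h.count_pos z
    rw [hd', hdx, hdy, hcx, hcy] at h1
    rw [hd']
    have h4 : d * T.count ((z : LF R) : ℂ) ≤ 1 := by nlinarith
    have h5 : d * T.count ((z : LF R) : ℂ) = 1 := le_antisymm h4 (Nat.mul_pos hd h2)
    have h6 := Nat.eq_one_of_mul_eq_one_right h5
    have h7 := Nat.eq_one_of_mul_eq_one_left h5
    constructor <;> omega
  have hother : ∀ z z', z ∉ orbit (LF R ≃ₐ[ℚ] LF R) x → z ∉ orbit (LF R ≃ₐ[ℚ] LF R) y →
      z' ∉ orbit (LF R ≃ₐ[ℚ] LF R) x → z' ∉ orbit (LF R ≃ₐ[ℚ] LF R) y →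
      z' = z ∨ z' = iota R • z := by
    intro z z' hz1 hz2 hz1' hz2'
    by_cases hzz : z' ∈ orbit (LF R ≃ₐ[ℚ] LF R) z
    · exact orbit_two h.hR0 h.W h.hq h.ns z (hdeg z hz1 hz2).1 z' hzz
    · exfalso
      obtain ⟨h1, h2⟩ := hdeg z hz1 hz2
      obtain ⟨h3, h4⟩ := hdeg z' hz1' hz2'
      rw [mem_orbit_iff_isConjRoot] at hz1 hz2 hz1' hz2' hzz
      have h5 := natDegree_mul_count_four_le h.av (h.mem_T x) (h.mem_T y) (h.mem_T z)
        (h.mem_T z') hxy' hz1 hz2 hz1' hz2' hzz
      rw [hdx, hdy, hcx, hcy, h1, h2, h3, h4] at h5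
      omega
  have hb : ∀ z, |rr s R z| ≤ 1 := by
    intro z
    have h1 := h.abs_le z
    have h2 : T.count ((z : LF R) : ℂ) = 1 := by
      by_cases hz : z ∈ orbit (LF R ≃ₐ[ℚ] LF R) x
      · rw [h.count_conj x ((mem_orbit_iff_isConjRoot x z).mp hz), hcx]
      · by_cases hz' : z ∈ orbit (LF R ≃ₐ[ℚ] LF R) y
        · rw [h.count_conj y ((mem_orbit_iff_isConjRoot y z).mp hz'), hcy]
        · exact (hdeg z hz hz').2
    rw [h2] at h1
    exact_mod_cast h1
  have hfour : FourType (iota R) x := by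
    refine fourType_of_degree h.hR0 h.W h.int h.hq h.ns hqp x hdx (h.distinct x) ?_
    intro Φ _ H hH hdvd
    have h1 := h.av.hondaTate _ (h.mem_T x) H hH hdvd
    rw [hcx] at h1
    simpa only [pow_one] using h1
  rcases h.rel.four_four hfour hcx' hcy' hxy (kernel_of_adjoin_eq h.hR0 x y hcl) hother hr hb with
    h1 | ⟨a, b, c, hm, hbc, hbc', ha1, hb1, hc1, hz⟩
  · exact h.zero h1
  · exfalso
    -- the classes of the three members
    have hdab : (minpoly ℚ ((a : LF R) : ℂ)).natDegree = 4 ∧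
        (minpoly ℚ ((b : LF R) : ℂ)).natDegree = 4 ∧
        IsConjRoot ℚ ((b : LF R) : ℂ) ((c : LF R) : ℂ) ∧
        ¬ IsConjRoot ℚ ((a : LF R) : ℂ) ((b : LF R) : ℂ) := by
      rcases hm with ⟨h1, h2, h3⟩ | ⟨h1, h2, h3⟩
      · rw [mem_orbit_iff_isConjRoot] at h1 h2 h3
        have e1 : minpoly ℚ ((x : LF R) : ℂ) = minpoly ℚ ((a : LF R) : ℂ) := h1
        have e2 : minpoly ℚ ((y : LF R) : ℂ) = minpoly ℚ ((b : LF R) : ℂ) := h2
        refine ⟨by rw [← e1, hdx], by rw [← e2, hdy], h2.symm.trans h3, fun h4 => ?_⟩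
        exact hxy' ((h1.trans h4).trans h2.symm)
      · rw [mem_orbit_iff_isConjRoot] at h1 h2 h3
        have e1 : minpoly ℚ ((y : LF R) : ℂ) = minpoly ℚ ((a : LF R) : ℂ) := h1
        have e2 : minpoly ℚ ((x : LF R) : ℂ) = minpoly ℚ ((b : LF R) : ℂ) := h2
        refine ⟨by rw [← e1, hdy], by rw [← e2, hdx], h2.symm.trans h3, fun h4 => ?_⟩
        exact hxy' ((h1.trans h4).trans h2.symm).symm
    have hab : ¬ IsConjRoot ℚ ((a : LF R) : ℂ) ((b : LF R) : ℂ) := hdab.2.2.2
    have hab1 : ((a : LF R) : ℂ) ≠ ((b : LF R) : ℂ) := fun he => hab (by rw [he])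
    have hac1 : ((a : LF R) : ℂ) ≠ ((c : LF R) : ℂ) := fun he =>
      hab (by rw [he]; exact hdab.2.2.1.symm)
    have hbc1 : ((b : LF R) : ℂ) ≠ ((c : LF R) : ℂ) := fun he => hbc (coe_injective he)
    have hcount : ∀ z : R.rootSet (LF R), rr s R z = 1 → s.count ((z : LF R) : ℂ) = 1 ∧
        s.count (((iota R • z : R.rootSet (LF R)) : LF R) : ℂ) = 0 := by
      intro z hz
      have h1 : T.count ((z : LF R) : ℂ) = 1 := by
        by_cases hz : z ∈ orbit (LF R ≃ₐ[ℚ] LF R) x
        · rw [h.count_conj x ((mem_orbit_iff_isConjRoot x z).mp hz), hcx]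
        · by_cases hz' : z ∈ orbit (LF R ≃ₐ[ℚ] LF R) y
          · rw [h.count_conj y ((mem_orbit_iff_isConjRoot y z).mp hz'), hcy]
          · exact (hdeg z hz hz').2
      have h2 := Multiset.count_le_of_le ((z : LF R) : ℂ) h.le
      rw [h1] at h2
      rw [rr] at hz
      omega
    obtain ⟨ha2, ha3⟩ := hcount a ha1
    obtain ⟨hb2, hb3⟩ := hcount b hb1
    obtain ⟨hc2, hc3⟩ := hcount c hc1
    have hle : ({((a : LF R) : ℂ), ((b : LF R) : ℂ), ((c : LF R) : ℂ)} : Multiset ℂ) ≤ s := by
      rw [Multiset.le_iff_count]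
      intro z
      simp only [Multiset.insert_eq_cons, Multiset.count_cons, Multiset.count_singleton]
      by_cases h1 : z = ((a : LF R) : ℂ)
      · subst h1
        rw [if_neg hac1, if_neg hab1, if_pos rfl, ha2]
      · by_cases h2 : z = ((b : LF R) : ℂ)
        · subst h2
          rw [if_neg hbc1, if_pos rfl, if_neg h1, hb2]
        · by_cases h3 : z = ((c : LF R) : ℂ)
          · subst h3
            rw [if_pos rfl, if_neg h2, if_neg h1, hc2]
          · rw [if_neg h1, if_neg h2, if_neg h3]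
            exact Nat.zero_le _
    obtain ⟨t, ht⟩ := Multiset.le_iff_exists_add.mp hle
    have htcount : ∀ z, s.count z =
        ({((a : LF R) : ℂ), ((b : LF R) : ℂ), ((c : LF R) : ℂ)} : Multiset ℂ).count z +
          t.count z := by
      intro z
      rw [ht, Multiset.count_add]
    -- `t` is symmetric
    have hsymm : ∀ z ∈ t, ¬ Supersingular q z → t.count ((q : ℂ) / z) = t.count z := by
      intro z hzt hzn
      have hzs : z ∈ s := by rw [ht]; exact Multiset.mem_add.mpr (Or.inr hzt)
      obtain ⟨v, rfl⟩ := h.exists_root_of_mem hzs hzn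
      rw [h.count_div]
      have hpos : 0 < t.count ((v : LF R) : ℂ) := Multiset.count_pos.mpr hzt
      have e1 := htcount ((v : LF R) : ℂ)
      have e2 := htcount (((iota R • v : R.rootSet (LF R)) : LF R) : ℂ)
      simp only [Multiset.insert_eq_cons, Multiset.count_cons, Multiset.count_singleton] at e1 e2
      have hva : v ≠ a := by
        rintro rfl
        rw [ha2, if_pos rfl] at e1
        omega
      have hvb : v ≠ b := by
        rintro rfl
        rw [hb2, if_pos rfl] at e1
        omega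
      have hvc : v ≠ c := by
        rintro rfl
        rw [hc2, if_pos rfl] at e1
        omega
      have hva' : v ≠ iota R • a := by
        rintro rfl
        rw [ha3] at e1
        omega
      have hvb' : v ≠ iota R • b := by
        rintro rfl
        rw [hb3] at e1
        omega
      have hvc' : v ≠ iota R • c := by
        rintro rfl
        rw [hc3] at e1
        omega
      have hinj : ∀ u w : R.rootSet (LF R), u ≠ w → ((u : LF R) : ℂ) ≠ ((w : LF R) : ℂ) :=
        fun u w huw he => huw (coe_injective he)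
      have hιι := iota_iota h.W h.hq (R := R)
      have hιv : ∀ u : R.rootSet (LF R), v ≠ iota R • u → iota R • v ≠ u := by
        intro u hu he
        apply hu
        rw [← he, hιι]
      rw [if_neg (hinj _ _ hva), if_neg (hinj _ _ hvb), if_neg (hinj _ _ hvc)] at e1
      rw [if_neg (hinj _ _ (hιv _ hva')), if_neg (hinj _ _ (hιv _ hvb')),
        if_neg (hinj _ _ (hιv _ hvc'))] at e2
      have e3 := hz v hva hva' hvb hvb' hvc hvc'
      rw [rr] at e3
      omega
    have hWt : ∀ z ∈ t, IsWeil q z := fun z hz =>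
      h.tate.1 z (by rw [ht]; exact Multiset.mem_add.mpr (Or.inr hz))
    obtain ⟨_, j, n, hj, _, _⟩ := h.tate
    have hj' : 3 + Multiset.card t = 2 * j := by
      rw [← hj, ht, Multiset.card_add]
      rfl
    -- a supersingular member
    obtain ⟨w, hwt, hws⟩ : ∃ w ∈ t, Supersingular q w := by
      by_contra hcon
      push Not at hcon
      -- otherwise `t` has an even number of members
      have hcardt : Even (Multiset.card t) := by
        have h1 : Multiset.card t = ∑ v : R.rootSet (LF R), t.count ((v : LF R) : ℂ) := by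
          let K : ℂ → ℤ := fun z => if ∃ y : R.rootSet (LF R), ((y : LF R) : ℂ) = z then 1 else 0
          have h1 := sum_map_eq (R := R) t K (fun _ => 1) (fun y => if_pos ⟨y, rfl⟩)
            (fun z hz => if_neg (by push Not; exact hz))
          have h2 : (t.map K).sum = Multiset.card t := by
            have h3 : t.map K = t.map fun _ => (1 : ℤ) := by
              apply Multiset.map_congr rfl
              intro z hz
              exact if_pos (h.exists_root_of_mem
                (by rw [ht]; exact Multiset.mem_add.mpr (Or.inr hz)) (hcon z hz))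
            rw [h3, Multiset.map_const', Multiset.sum_replicate]
            simp
          rw [h2] at h1
          simp only [one_mul] at h1
          exact_mod_cast h1
        rw [h1, ← ZMod.natCast_eq_zero_iff_even]
        push_cast
        refine Finset.sum_involution (fun y _ => iota R • y) ?_ ?_ (fun y _ => Finset.mem_univ _) ?_
        · intro v _
          have h2 : t.count (((iota R • v : R.rootSet (LF R)) : LF R) : ℂ) =
              t.count ((v : LF R) : ℂ) := by
            by_cases hv : ((v : LF R) : ℂ) ∈ t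
            · rw [← h.count_div]
              exact hsymm _ hv (h.not_ss v)
            · by_cases hv' : (((iota R • v : R.rootSet (LF R)) : LF R) : ℂ) ∈ t
              · have h3 := hsymm _ hv' (h.not_ss _)
                rw [h.count_div, iota_iota h.W h.hq] at h3
                exact h3.symm
              · rw [Multiset.count_eq_zero_of_notMem hv, Multiset.count_eq_zero_of_notMem hv']
          rw [h2, ← two_mul]
          have : (2 : ZMod 2) = 0 := rfl
          rw [this, zero_mul]
        · intro v _ _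
          exact iota_ne h.W h.hq h.ns v
        · intro v _
          exact iota_iota h.W h.hq v
      obtain ⟨k, hk⟩ := hcardt
      omega
    have hwT : w ∈ T := Multiset.mem_of_le h.le (by rw [ht]; exact Multiset.mem_add.mpr (Or.inr hwt))
    obtain ⟨t', ht'⟩ := Multiset.exists_cons_of_mem hwt
    have hTt' : IsTate q t' := by
      have heven' : Even (Multiset.card t') := by
        rw [ht', Multiset.card_cons] at hj'
        exact ⟨j - 2, by omega⟩
      refine isTate_of_symm h.hq ?_ heven' ?_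
      · intro z hz
        exact hWt z (by rw [ht']; exact Multiset.mem_cons_of_mem hz)
      · intro z hz hzn
        have h1 : z ≠ w := by
          rintro rfl
          exact hzn hws
        have h2 : (q : ℂ) / z ≠ w := by
          intro h3
          apply hzn
          have hz0 := (hWt z (by rw [ht']; exact Multiset.mem_cons_of_mem hz)).ne_zero h.hq
          rw [div_eq_iff hz0] at h3
          obtain ⟨n, hn, hwn⟩ := hws
          refine ⟨n, hn, ?_⟩
          have h4 : (w * z) ^ (2 * n) = (q : ℂ) ^ (2 * n) := by rw [← h3]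
          rw [mul_pow, hwn] at h4
          have h5 : (q : ℂ) ^ (2 * n) = (q : ℂ) ^ n * (q : ℂ) ^ n := by ring
          rw [h5] at h4
          exact mul_left_cancel₀ (pow_ne_zero _ h.q_ne) h4
        have h3 := hsymm z (by rw [ht']; exact Multiset.mem_cons_of_mem hz) hzn
        rw [ht', Multiset.count_cons_of_ne h1, Multiset.count_cons_of_ne h2] at h3
        exact h3
    refine hno _ (h.mem_T a) _ (h.mem_T b) _ (h.mem_T c) w hwT (h.sq_eq hwT hws) hdab.1 hdab.2.1
      hdab.2.2.1 hbc1 hab ?_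
    apply IsTate.of_add h.hq (t := t')
    · have h1 : ({((a : LF R) : ℂ), ((b : LF R) : ℂ), ((c : LF R) : ℂ), w} : Multiset ℂ) + t' =
          s := by
        rw [ht, ht']
        simp only [Multiset.insert_eq_cons, Multiset.cons_add, Multiset.singleton_add]
      rw [h1]
      exact h.tate
    · exact hTt'

end Ctx

end Pool.Agent.Lib.MP_950c68_ag.Five
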