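import Mathlib
import Pool.Agent.Lib.MP_950c68_ag.Five.CaseFour

/-!
# Two abelian surfaces with the same Galois closure and an elliptic curve
-/

namespace Pool.Agent.Lib.MP_950c68_ag.Five

open Polynomial MulAction Pool.Agent.Lib.MP_950c68_ag.Orb Pool.Agent.Lib.MP_950c68_ag.Dim3

variable {p : ℕ} [Fact p.Prime] {q f : ℕ}

/-- The exceptional Tate multisets with four elements on `B × C × E`, abelian surfaces `B` and `C`
and a supersingular elliptic curve `E`. -/
def Exc (q : ℕ) (x y z w : ℂ) : Prop :=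
  w ^ 2 = (q : ℂ) ∧ (minpoly ℚ x).natDegree = 4 ∧ (minpoly ℚ y).natDegree = 4 ∧
    IsConjRoot ℚ y z ∧ y ≠ z ∧ ¬ IsConjRoot ℚ x y ∧ IsTate q {x, y, z, w}

namespace Ctx

variable {T s : Multiset ℂ} {R : ℚ[X]} (h : Ctx p q T s R)

include h

/-- Two members of degree four with the same Galois closure. -/
theorem four_four_exc (hrr : ∀ (hq' : (q : ℂ) ≠ 0)
      (h0 : ∀ x : R.rootSet (LF R), ((x : LF R) : ℂ) ≠ 0), rr s R ∈ Sat R q hq' h0)
    (hqp : q = p ^ f) (hcard : Multiset.card T ≤ 10)
    {x y : R.rootSet (LF R)} (hdx : (minpoly ℚ ((x : LF R) : ℂ)).natDegree = 4)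
    (hdy : (minpoly ℚ ((y : LF R) : ℂ)).natDegree = 4)
    (hxy : y ∉ orbit (LF R ≃ₐ[ℚ] LF R) x)
    (hcl : IntermediateField.adjoin ℚ {z : ℂ | IsConjRoot ℚ ((x : LF R) : ℂ) z} =
      IntermediateField.adjoin ℚ {z : ℂ | IsConjRoot ℚ ((y : LF R) : ℂ) z}) :
    G0 p q s ∨ ∃ a b c w : ℂ, ∃ t : Multiset ℂ, s = {a, b, c, w} + t ∧ G0 p q t ∧
      Exc q a b c w := by
  classical
  have hr := hrr h.q_ne h.ne_zero
  have hcx' : Nat.card (orbit (LF R ≃ₐ[ℚ] LF R) x) = 4 := by rw [card_orbit h.hR0, hdx]
  have hcy' : Nat.card (orbit (LF R ≃ₐ[ℚ] LF R) y) = 4 := by rw [card_orbit h.hR0, hdy]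
  have hxy' : ¬ IsConjRoot ℚ ((x : LF R) : ℂ) ((y : LF R) : ℂ) := by
    rwa [← mem_orbit_iff_isConjRoot]
  have hT2 := natDegree_mul_count_add_le h.av (h.mem_T x) (h.mem_T y) hxy'
  have hpx := h.count_pos x
  have hpy := h.count_pos y
  rw [hdx, hdy] at hT2
  have hcx : T.count ((x : LF R) : ℂ) = 1 := by omega
  have hcy : T.count ((y : LF R) : ℂ) = 1 := by omega
  -- the other roots
  have hdeg : ∀ z, z ∉ orbit (LF R ≃ₐ[ℚ] LF R) x → z ∉ orbit (LF R ≃ₐ[ℚ] LF R) y →
      (minpoly ℚ ((z : LF R) : ℂ)).natDegree = 2 ∧ T.count ((z : LF R) : ℂ) = 1 := by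
    intro z hz hz'
    rw [mem_orbit_iff_isConjRoot] at hz hz'
    have h1 := natDegree_mul_count_add_add_le h.av (h.mem_T x) (h.mem_T y) (h.mem_T z) hxy' hz hz'
    obtain ⟨d, hd, hd'⟩ := h.exists_degree z
    have h2 := h.count_pos z
    rw [hd', hdx, hdy, hcx, hcy] at h1
    rw [hd']
    have h4 : d * T.count ((z : LF R) : ℂ) ≤ 1 := by nlinarith
    have h5 : d * T.count ((z : LF R) : ℂ) = 1 := le_antisymm h4 (Nat.mul_pos hd h2)
    have h6 := Nat.eq_one_of_mul_eq_one_right h5
    have h7 := Nat.eq_one_of_mul_eq_one_left h5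
    constructor <;> omega
  have hother : ∀ z z', z ∉ orbit (LF R ≃ₐ[ℚ] LF R) x → z ∉ orbit (LF R ≃ₐ[ℚ] LF R) y →
      z' ∉ orbit (LF R ≃ₐ[ℚ] LF R) x → z' ∉ orbit (LF R ≃ₐ[ℚ] LF R) y →
      z' = z ∨ z' = iota R • z := by
    intro z z' hz1 hz2 hz1' hz2'
    by_cases hzz : z' ∈ orbit (LF R ≃ₐ[ℚ] LF R) z
    · exact orbit_two h.hR0 h.W h.hq h.ns z (hdeg z hz1 hz2).1 z' hzz
    · exfalso
      obtain ⟨h1, h2⟩ := hdeg z hz1 hz2
      obtain ⟨h3, h4⟩ := hdeg z' hz1' hz2'
      rw [mem_orbit_iff_isConjRoot] at hz1 hz2 hz1' hz2' hzz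
      have h5 := natDegree_mul_count_four_le h.av (h.mem_T x) (h.mem_T y) (h.mem_T z)
        (h.mem_T z') hxy' hz1 hz2 hz1' hz2' hzz
      rw [hdx, hdy, hcx, hcy, h1, h2, h3, h4] at h5
      omega
  have hb : ∀ z, |rr s R z| ≤ 1 := by
    intro z
    have h1 := h.abs_le z
    have h2 : T.count ((z : LF R) : ℂ) = 1 := by
      by_cases hz : z ∈ orbit (LF R ≃ₐ[ℚ] LF R) x
      · rw [h.count_conj x ((mem_orbit_iff_isConjRoot x z).mp hz), hcx]
      · by_cases hz' : z ∈ orbit (LF R ≃ₐ[ℚ] LF R) y
        · rw [h.count_conj y ((mem_orbit_iff_isConjRoot y z).mp hz'), hcy]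
        · exact (hdeg z hz hz').2
    rw [h2] at h1
    exact_mod_cast h1
  have hfour : FourType (iota R) x := by
    refine fourType_of_degree h.hR0 h.W h.int h.hq h.ns hqp x hdx (h.distinct x) ?_
    intro Φ _ H hH hdvd
    have h1 := h.av.hondaTate _ (h.mem_T x) H hH hdvd
    rw [hcx] at h1
    simpa only [pow_one] using h1
  rcases h.rel.four_four hfour hcx' hcy' hxy (kernel_of_adjoin_eq h.hR0 x y hcl) hother hr hb with
    h1 | ⟨a, b, c, hm, hbc, hbc', ha1, hb1, hc1, hz⟩
  · exact Or.inl (h.zero h1)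
  · right
    -- the classes of the three members
    have hdab : (minpoly ℚ ((a : LF R) : ℂ)).natDegree = 4 ∧
        (minpoly ℚ ((b : LF R) : ℂ)).natDegree = 4 ∧
        IsConjRoot ℚ ((b : LF R) : ℂ) ((c : LF R) : ℂ) ∧
        ¬ IsConjRoot ℚ ((a : LF R) : ℂ) ((b : LF R) : ℂ) := by
      rcases hm with ⟨h1, h2, h3⟩ | ⟨h1, h2, h3⟩
      · rw [mem_orbit_iff_isConjRoot] at h1 h2 h3
        have e1 : minpoly ℚ ((x : LF R) : ℂ) = minpoly ℚ ((a : LF R) : ℂ) := h1
        have e2 : minpoly ℚ ((y : LF R) : ℂ) = minpoly ℚ ((b : LF R) : ℂ) := h2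
        refine ⟨by rw [← e1, hdx], by rw [← e2, hdy], h2.symm.trans h3, fun h4 => ?_⟩
        exact hxy' ((h1.trans h4).trans h2.symm)
      · rw [mem_orbit_iff_isConjRoot] at h1 h2 h3
        have e1 : minpoly ℚ ((y : LF R) : ℂ) = minpoly ℚ ((a : LF R) : ℂ) := h1
        have e2 : minpoly ℚ ((x : LF R) : ℂ) = minpoly ℚ ((b : LF R) : ℂ) := h2
        refine ⟨by rw [← e1, hdy], by rw [← e2, hdx], h2.symm.trans h3, fun h4 => ?_⟩
        exact hxy' ((h1.trans h4).trans h2.symm).symm
    have hab : ¬ IsConjRoot ℚ ((a : LF R) : ℂ) ((b : LF R) : ℂ) := hdab.2.2.2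
    have hab1 : ((a : LF R) : ℂ) ≠ ((b : LF R) : ℂ) := fun he => hab (by rw [he])
    have hac1 : ((a : LF R) : ℂ) ≠ ((c : LF R) : ℂ) := fun he =>
      hab (by rw [he]; exact hdab.2.2.1.symm)
    have hbc1 : ((b : LF R) : ℂ) ≠ ((c : LF R) : ℂ) := fun he => hbc (coe_injective he)
    have hcount : ∀ z : R.rootSet (LF R), rr s R z = 1 → s.count ((z : LF R) : ℂ) = 1 ∧
        s.count (((iota R • z : R.rootSet (LF R)) : LF R) : ℂ) = 0 := by
      intro z hz
      have h1 : T.count ((z : LF R) : ℂ) = 1 := by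
        by_cases hz : z ∈ orbit (LF R ≃ₐ[ℚ] LF R) x
        · rw [h.count_conj x ((mem_orbit_iff_isConjRoot x z).mp hz), hcx]
        · by_cases hz' : z ∈ orbit (LF R ≃ₐ[ℚ] LF R) y
          · rw [h.count_conj y ((mem_orbit_iff_isConjRoot y z).mp hz'), hcy]
          · exact (hdeg z hz hz').2
      have h2 := Multiset.count_le_of_le ((z : LF R) : ℂ) h.le
      rw [h1] at h2
      rw [rr] at hz
      omega
    obtain ⟨ha2, ha3⟩ := hcount a ha1
    obtain ⟨hb2, hb3⟩ := hcount b hb1
    obtain ⟨hc2, hc3⟩ := hcount c hc1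
    have hle : ({((a : LF R) : ℂ), ((b : LF R) : ℂ), ((c : LF R) : ℂ)} : Multiset ℂ) ≤ s := by
      rw [Multiset.le_iff_count]
      intro z
      simp only [Multiset.insert_eq_cons, Multiset.count_cons, Multiset.count_singleton]
      by_cases h1 : z = ((a : LF R) : ℂ)
      · subst h1
        rw [if_neg hac1, if_neg hab1, if_pos rfl, ha2]
      · by_cases h2 : z = ((b : LF R) : ℂ)
        · subst h2
          rw [if_neg hbc1, if_pos rfl, if_neg h1, hb2]
        · by_cases h3 : z = ((c : LF R) : ℂ)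
          · subst h3
            rw [if_pos rfl, if_neg h2, if_neg h1, hc2]
          · rw [if_neg h1, if_neg h2, if_neg h3]
            exact Nat.zero_le _
    obtain ⟨t, ht⟩ := Multiset.le_iff_exists_add.mp hle
    have htcount : ∀ z, s.count z =
        ({((a : LF R) : ℂ), ((b : LF R) : ℂ), ((c : LF R) : ℂ)} : Multiset ℂ).count z +
          t.count z := by
      intro z
      rw [ht, Multiset.count_add]
    -- `t` is symmetric
    have hsymm : ∀ z ∈ t, ¬ Supersingular q z → t.count ((q : ℂ) / z) = t.count z := by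
      intro z hzt hzn
      have hzs : z ∈ s := by rw [ht]; exact Multiset.mem_add.mpr (Or.inr hzt)
      obtain ⟨v, rfl⟩ := h.exists_root_of_mem hzs hzn
      rw [h.count_div]
      have hpos : 0 < t.count ((v : LF R) : ℂ) := Multiset.count_pos.mpr hzt
      have e1 := htcount ((v : LF R) : ℂ)
      have e2 := htcount (((iota R • v : R.rootSet (LF R)) : LF R) : ℂ)
      simp only [Multiset.insert_eq_cons, Multiset.count_cons, Multiset.count_singleton] at e1 e2
      have hva : v ≠ a := by
        rintro rfl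
        rw [ha2, if_pos rfl] at e1
        omega
      have hvb : v ≠ b := by
        rintro rfl
        rw [hb2, if_pos rfl] at e1
        omega
      have hvc : v ≠ c := by
        rintro rfl
        rw [hc2, if_pos rfl] at e1
        omega
      have hva' : v ≠ iota R • a := by
        rintro rfl
        rw [ha3] at e1
        omega
      have hvb' : v ≠ iota R • b := by
        rintro rfl
        rw [hb3] at e1
        omega
      have hvc' : v ≠ iota R • c := by
        rintro rfl
        rw [hc3] at e1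
        omega
      have hinj : ∀ u w : R.rootSet (LF R), u ≠ w → ((u : LF R) : ℂ) ≠ ((w : LF R) : ℂ) :=
        fun u w huw he => huw (coe_injective he)
      have hιι := iota_iota h.W h.hq (R := R)
      have hιv : ∀ u : R.rootSet (LF R), v ≠ iota R • u → iota R • v ≠ u := by
        intro u hu he
        apply hu
        rw [← he, hιι]
      rw [if_neg (hinj _ _ hva), if_neg (hinj _ _ hvb), if_neg (hinj _ _ hvc)] at e1
      rw [if_neg (hinj _ _ (hιv _ hva')), if_neg (hinj _ _ (hιv _ hvb')),
        if_neg (hinj _ _ (hιv _ hvc'))] at e2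
      have e3 := hz v hva hva' hvb hvb' hvc hvc'
      rw [rr] at e3
      omega
    have hWt : ∀ z ∈ t, IsWeil q z := fun z hz =>
      h.tate.1 z (by rw [ht]; exact Multiset.mem_add.mpr (Or.inr hz))
    obtain ⟨_, j, n, hj, _, _⟩ := h.tate
    have hj' : 3 + Multiset.card t = 2 * j := by
      rw [← hj, ht, Multiset.card_add]
      rfl
    -- a supersingular member
    obtain ⟨w, hwt, hws⟩ : ∃ w ∈ t, Supersingular q w := by
      by_contra hcon
      push Not at hcon
      -- otherwise `t` has an even number of members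
      have hcardt : Even (Multiset.card t) := by
        have h1 : Multiset.card t = ∑ v : R.rootSet (LF R), t.count ((v : LF R) : ℂ) := by
          let K : ℂ → ℤ := fun z => if ∃ y : R.rootSet (LF R), ((y : LF R) : ℂ) = z then 1 else 0
          have h1 := sum_map_eq (R := R) t K (fun _ => 1) (fun y => if_pos ⟨y, rfl⟩)
            (fun z hz => if_neg (by push Not; exact hz))
          have h2 : (t.map K).sum = Multiset.card t := by
            have h3 : t.map K = t.map fun _ => (1 : ℤ) := by
              apply Multiset.map_congr rfl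
              intro z hz
              exact if_pos (h.exists_root_of_mem
                (by rw [ht]; exact Multiset.mem_add.mpr (Or.inr hz)) (hcon z hz))
            rw [h3, Multiset.map_const', Multiset.sum_replicate]
            simp
          rw [h2] at h1
          simp only [one_mul] at h1
          exact_mod_cast h1
        rw [h1, ← ZMod.natCast_eq_zero_iff_even]
        push_cast
        refine Finset.sum_involution (fun y _ => iota R • y) ?_ ?_ (fun y _ => Finset.mem_univ _) ?_
        · intro v _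
          have h2 : t.count (((iota R • v : R.rootSet (LF R)) : LF R) : ℂ) =
              t.count ((v : LF R) : ℂ) := by
            by_cases hv : ((v : LF R) : ℂ) ∈ t
            · rw [← h.count_div]
              exact hsymm _ hv (h.not_ss v)
            · by_cases hv' : (((iota R • v : R.rootSet (LF R)) : LF R) : ℂ) ∈ t
              · have h3 := hsymm _ hv' (h.not_ss _)
                rw [h.count_div, iota_iota h.W h.hq] at h3
                exact h3.symm
              · rw [Multiset.count_eq_zero_of_notMem hv, Multiset.count_eq_zero_of_notMem hv']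
          rw [h2, ← two_mul]
          have : (2 : ZMod 2) = 0 := rfl
          rw [this, zero_mul]
        · intro v _ _
          exact iota_ne h.W h.hq h.ns v
        · intro v _
          exact iota_iota h.W h.hq v
      obtain ⟨k, hk⟩ := hcardt
      omega
    have hwT : w ∈ T := Multiset.mem_of_le h.le (by rw [ht]; exact Multiset.mem_add.mpr (Or.inr hwt))
    obtain ⟨t', ht'⟩ := Multiset.exists_cons_of_mem hwt
    have hsymm' : ∀ z ∈ t', ¬ Supersingular q z → t'.count ((q : ℂ) / z) = t'.count z := by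
      intro z hz hzn
      have h1 : z ≠ w := by
        rintro rfl
        exact hzn hws
      have h2 : (q : ℂ) / z ≠ w := by
        intro h3
        apply hzn
        have hz0 := (hWt z (by rw [ht']; exact Multiset.mem_cons_of_mem hz)).ne_zero h.hq
        rw [div_eq_iff hz0] at h3
        obtain ⟨n, hn, hwn⟩ := hws
        refine ⟨n, hn, ?_⟩
        have h4 : (w * z) ^ (2 * n) = (q : ℂ) ^ (2 * n) := by rw [← h3]
        rw [mul_pow, hwn] at h4
        have h5 : (q : ℂ) ^ (2 * n) = (q : ℂ) ^ n * (q : ℂ) ^ n := by ring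
        rw [h5] at h4
        exact mul_left_cancel₀ (pow_ne_zero _ h.q_ne) h4
      have h3 := hsymm z (by rw [ht']; exact Multiset.mem_cons_of_mem hz) hzn
      rw [ht', Multiset.count_cons_of_ne h1, Multiset.count_cons_of_ne h2] at h3
      exact h3
    have hTt' : IsTate q t' := by
      have heven' : Even (Multiset.card t') := by
        rw [ht', Multiset.card_cons] at hj'
        exact ⟨j - 2, by omega⟩
      exact isTate_of_symm h.hq
        (fun z hz => hWt z (by rw [ht']; exact Multiset.mem_cons_of_mem hz)) heven' hsymm'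
    have hst : ({((a : LF R) : ℂ), ((b : LF R) : ℂ), ((c : LF R) : ℂ), w} : Multiset ℂ) + t' =
        s := by
      rw [ht, ht']
      simp only [Multiset.insert_eq_cons, Multiset.cons_add, Multiset.singleton_add]
    refine ⟨_, _, _, w, t', hst.symm, G0.of_symm h.hq hTt' hsymm', h.sq_eq hwT hws, hdab.1,
      hdab.2.1, hdab.2.2.1, hbc1, hab, ?_⟩
    apply IsTate.of_add h.hq (t := t')
    · rw [hst]
      exact h.tate
    · exact hTt'

end Ctx

end Pool.Agent.Lib.MP_950c68_ag.Five
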