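import Mathlib
import Pool.Agent.Lib.MP_950c68_ag.Five.RelDef

namespace Pool.Agent.Lib.MP_950c68_ag.Five

open MulAction Pool.Agent.Lib.MP_950c68_ag.Orb

variable {G Ω : Type*} [Group G] [MulAction G Ω] {ι : G} {Λ : AddSubgroup (Ω → ℤ)}

private theorem sq_pair [Finite G] (hι : ∀ (g : G) (y : Ω), g • ι • y = ι • g • y)
    (hιι : ∀ y : Ω, ι • ι • y = y) (hιne : ∀ y : Ω, ι • y ≠ y) {x : Ω}
    (hx : Nat.card (orbit G x) = 4) (t : G) {z : Ω} (hz : z ∈ orbit G x) :
    t • t • z = z ∨ t • t • z = ι • z := by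
  classical
  by_cases h1 : t • z = z
  · left; rw [h1, h1]
  by_cases h2 : t • z = ι • z
  · left; rw [h2, hι, h2, hιι]
  have hfin : (orbit G x).Finite := Set.finite_range _
  have hinj : ∀ a b : Ω, ι • a = ι • b → a = b := fun a b h => smul_left_cancel ι h
  have h3 : ι • t • z ≠ z := fun h =>
    h2 ((hιι (t • z)).symm.trans (congrArg (fun w => ι • w) h))
  have hmem1 : ι • z ∈ orbit G x := mem_orbit_smul ι hz
  have hmem2 : t • z ∈ orbit G x := mem_orbit_smul t hz
  have hmem3 : ι • t • z ∈ orbit G x := mem_orbit_smul ι hmem2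
  have hmem4 : t • t • z ∈ orbit G x := mem_orbit_smul t hmem2
  let S : Finset Ω := {z, ι • z, t • z, ι • t • z}
  have hS : S.card = 4 := by
    have a1 : z ∉ ({ι • z, t • z, ι • t • z} : Finset Ω) := by
      simp only [Finset.mem_insert, Finset.mem_singleton, not_or]
      exact ⟨fun h => hιne z h.symm, fun h => h1 h.symm, fun h => h3 h.symm⟩
    have a2 : ι • z ∉ ({t • z, ι • t • z} : Finset Ω) := by
      simp only [Finset.mem_insert, Finset.mem_singleton, not_or]
      exact ⟨fun h => h2 h.symm, fun h => h1 (hinj _ _ h).symm⟩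
    have a3 : t • z ∉ ({ι • t • z} : Finset Ω) := by
      simp only [Finset.mem_singleton]
      exact fun h => hιne _ h.symm
    rw [Finset.card_insert_of_notMem a1, Finset.card_insert_of_notMem a2,
      Finset.card_insert_of_notMem a3, Finset.card_singleton]
  have hsub : S ⊆ hfin.toFinset := by
    intro y hy
    simp only [S, Finset.mem_insert, Finset.mem_singleton] at hy
    rw [Set.Finite.mem_toFinset]
    rcases hy with rfl | rfl | rfl | rfl
    · exact hz
    · exact hmem1
    · exact hmem2
    · exact hmem3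
  have heq : S = hfin.toFinset := by
    apply Finset.eq_of_subset_of_card_le hsub
    rw [hS, ← hx, Nat.card_eq_card_finite_toFinset hfin]
  have h4 : t • t • z ∈ S := by
    rw [heq, Set.Finite.mem_toFinset]
    exact hmem4
  simp only [S, Finset.mem_insert, Finset.mem_singleton] at h4
  rcases h4 with h | h | h | h
  · exact Or.inl h
  · exact Or.inr h
  · exact absurd (smul_left_cancel t h) h1
  · rw [← hι] at h
    exact absurd (smul_left_cancel t h) h2

/-- G7: orbits with four and with six elements have different kernels. -/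
theorem kernel_four_six [Finite G] (hι : ∀ (g : G) (y : Ω), g • ι • y = ι • g • y)
    (hιι : ∀ y : Ω, ι • ι • y = y) (hιne : ∀ y : Ω, ι • y ≠ y) {x y : Ω}
    (hx : Nat.card (orbit G x) = 4) (hy : Nat.card (orbit G y) = 6) :
    ¬ ∀ σ : G, (∀ z ∈ orbit G x, σ • z = z) → ∀ z ∈ orbit G y, σ • z = z := by
  intro hK
  obtain ⟨t, ht1, ht2⟩ := exists_cycle hι hιι hιne y 3 Nat.prime_three (by norm_num)
    (by rw [hy])
  have h1 : ∀ z ∈ orbit G x, t ^ 4 • z = z := by
    intro z hz
    have e : t ^ 4 • z = t • t • t • t • z := by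
      simp only [smul_smul, pow_succ, pow_zero, one_mul, mul_assoc]
    rw [e]
    rcases sq_pair hι hιι hιne hx t hz with h | h
    · rw [h, h]
    · rw [h, hι, hι, h, hιι]
  have h2 := hK (t ^ 4) h1 y (mem_orbit_self y)
  rw [show t ^ 4 = t * t ^ 3 by group, mul_smul, ht1 y (mem_orbit_self y)] at h2
  exact ht2 y (mem_orbit_self y) h2

end Pool.Agent.Lib.MP_950c68_ag.Five
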