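import Mathlib
import Pool.Agent.Lib.MP_950c68_ag.Five.CaseFour
import Pool.Agent.Lib.MP_950c68_ag.Five.A1
import Pool.Agent.Lib.MP_950c68_ag.Five.A3
import Pool.Agent.Lib.MP_950c68_ag.Five.G7

/-!
# Tate classes on abelian varieties of dimension at most five: the main theorem
-/

namespace Pool.Agent.Lib.MP_950c68_ag.Five

open Polynomial MulAction Pool.Agent.Lib.MP_950c68_ag.Orb Pool.Agent.Lib.MP_950c68_ag.Dim3

variable {p : ℕ} [Fact p.Prime] {q f : ℕ}

theorem noExc_of_card {T : Multiset ℂ} (hT : AV p q T) (hcard : Multiset.card T ≤ 8) :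
    NoExc q T := by
  intro x hx y hy z hz w hw hw2 hdx hdy _ _ hxy _
  have hq : q ≠ 0 := by
    rintro rfl
    have h1 := (hT.weil x hx).2 x rfl
    rw [Nat.cast_zero] at h1
    have h2 : ‖x‖ = 0 := by simpa using h1
    have h3 : x = 0 := norm_eq_zero.mp h2
    rw [h3, minpoly.zero, natDegree_X] at hdx
    omega
  have hcl : ∀ v : ℂ, (minpoly ℚ v).natDegree = 4 → ¬ IsConjRoot ℚ v w := by
    intro v hv hvw
    have h1 : minpoly ℚ v = minpoly ℚ w := hvw
    rw [h1] at hv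
    have h2 : minpoly ℚ w ∣ (X ^ 2 - C (q : ℚ) : ℚ[X]) := by
      apply minpoly.dvd
      rw [map_sub, map_pow, aeval_X, aeval_C, map_natCast, hw2, sub_self]
    have hdeg : (X ^ 2 - C (q : ℚ) : ℚ[X]).natDegree = 2 := by compute_degree!
    have hne : (X ^ 2 - C (q : ℚ) : ℚ[X]) ≠ 0 := by
      intro h
      rw [h, natDegree_zero] at hdeg
      omega
    have h3 := natDegree_le_of_dvd h2 hne
    omega
  have h1 := natDegree_mul_count_add_add_le hT hx hy hw hxy (hcl x hdx) (hcl y hdy)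
  have h2 : 0 < T.count x := Multiset.count_pos.mpr hx
  have h3 : 0 < T.count y := Multiset.count_pos.mpr hy
  have h4 : 0 < T.count w := Multiset.count_pos.mpr hw
  have h5 : 0 < (minpoly ℚ w).natDegree := minpoly.natDegree_pos (hT.weil w hw).1.tower_top
  have h6 := Nat.mul_pos h5 h4
  rw [hdx, hdy] at h1
  omega

/-- The theorem on dimension three applies. -/
theorem Ctx.three {T s : Multiset ℂ} {R : ℚ[X]} (h : Ctx p q T s R) (hqp : q = p ^ f)
    (hcard : Multiset.card T ≤ 10)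
    (hsm : ∀ x : R.rootSet (LF R), ((minpoly ℚ ((x : LF R) : ℂ)).natDegree = 2 ∧
        T.count ((x : LF R) : ℂ) ≤ 3) ∨ ((minpoly ℚ ((x : LF R) : ℂ)).natDegree = 4 ∧
        T.count ((x : LF R) : ℂ) = 1) ∨ (minpoly ℚ ((x : LF R) : ℂ)).natDegree = 6)
    (hcl : ∀ x y : R.rootSet (LF R), (minpoly ℚ ((x : LF R) : ℂ)).natDegree = 4 →
      (minpoly ℚ ((y : LF R) : ℂ)).natDegree = 4 → y ∉ orbit (LF R ≃ₐ[ℚ] LF R) x →
      IntermediateField.adjoin ℚ {z : ℂ | IsConjRoot ℚ ((x : LF R) : ℂ) z} ≠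
      IntermediateField.adjoin ℚ {z : ℂ | IsConjRoot ℚ ((y : LF R) : ℂ) z}) : G0 p q s := by
  classical
  by_cases hex : ∃ x ∈ s, ¬ Supersingular q x
  swap
  · push Not at hex
    exact G0.of_symm h.hq h.tate fun z hz hzn => absurd (hex z hz) hzn
  obtain ⟨x₀, hx₀, hx₀n⟩ := hex
  obtain ⟨y₀, _⟩ := h.exists_root_of_mem hx₀ hx₀n
  have hf := h.exponent_ne_zero hqp y₀
  have hHT1 : ∀ x : R.rootSet (LF R), T.count ((x : LF R) : ℂ) = 1 →
      Dim3.HondaTate p q ((x : LF R) : ℂ) := by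
    intro x hx H hH hdvd
    have h1 := h.av.hondaTate _ (h.mem_T x) H hH hdvd
    rw [hx] at h1
    simpa only [pow_one] using h1
  have hc6 : ∀ x : R.rootSet (LF R), (minpoly ℚ ((x : LF R) : ℂ)).natDegree = 6 →
      T.count ((x : LF R) : ℂ) = 1 := by
    intro x hx
    have h1 := natDegree_mul_count_le h.av (h.mem_T x)
    have h2 := h.count_pos x
    rw [hx] at h1
    omega
  -- the types
  have htype : ∀ x : R.rootSet (LF R), ((minpoly ℚ ((x : LF R) : ℂ)).natDegree = 2 ∧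
      (Ordinary p q ((x : LF R) : ℂ) ∨ Cubic p q ((x : LF R) : ℂ))) ∨
      ((minpoly ℚ ((x : LF R) : ℂ)).natDegree = 4 ∧ Simple p q 2 ((x : LF R) : ℂ)) ∨
      ((minpoly ℚ ((x : LF R) : ℂ)).natDegree = 6 ∧ Simple p q 3 ((x : LF R) : ℂ)) := by
    intro x
    rcases hsm x with ⟨h1, h2⟩ | ⟨h1, h2⟩ | h1
    · left
      exact ⟨h1, ordinary_or_cubic hqp hf (h.weil x) (h.not_ss x) h1 (h.count_pos x) h2
        (h.av.hondaTate _ (h.mem_T x))⟩
    · right; left
      exact ⟨h1, by rw [h1], h.distinct x, hHT1 x h2⟩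
    · right; right
      exact ⟨h1, by rw [h1], h.distinct x, hHT1 x (hc6 x h1)⟩
  have hgood : Good p q s := by
    refine ⟨h.tate, ?_, ?_⟩
    · intro z hz
      by_cases hzn : Supersingular q z
      · exact Or.inl hzn
      · right
        obtain ⟨x, rfl⟩ := h.exists_root_of_mem hz hzn
        rcases htype x with ⟨_, h1⟩ | ⟨_, h1⟩ | ⟨_, h1⟩
        · exact Or.inl h1
        · exact Or.inr (Or.inl h1)
        · exact Or.inr (Or.inr (Or.inl h1))
    · intro a ha b hb haL hbL hab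
      obtain ⟨x, rfl⟩ := h.exists_root_of_mem ha (haL.not_supersingular h.hq (h.tate.1 a ha))
      obtain ⟨y, rfl⟩ := h.exists_root_of_mem hb (hbL.not_supersingular h.hq (h.tate.1 _ hb))
      have h2x := haL.two_lt
      have h2y := hbL.two_lt
      have hxy : y ∉ orbit (LF R ≃ₐ[ℚ] LF R) x := by rwa [mem_orbit_iff_isConjRoot]
      have hsum := natDegree_mul_count_add_le h.av (h.mem_T x) (h.mem_T y) hab
      have hpx := h.count_pos x
      have hpy := h.count_pos y
      have hcard4 : ∀ v : R.rootSet (LF R), Nat.card (orbit (LF R ≃ₐ[ℚ] LF R) v) =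
          (minpoly ℚ ((v : LF R) : ℂ)).natDegree := fun v => card_orbit h.hR0 v
      rcases hsm x with ⟨h1, _⟩ | ⟨h1, _⟩ | h1
      · omega
      · rcases hsm y with ⟨h3, _⟩ | ⟨h3, _⟩ | h3
        · omega
        · exact hcl x y h1 h3 hxy
        · intro he
          exact kernel_four_six (smul_iota h.W h.hq) (iota_iota h.W h.hq)
            (iota_ne h.W h.hq h.ns) (by rw [hcard4, h1]) (by rw [hcard4, h3])
            (kernel_of_adjoin_eq h.hR0 x y he)
      · rcases hsm y with ⟨h3, _⟩ | ⟨h3, _⟩ | h3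
        · omega
        · intro he
          exact kernel_four_six (smul_iota h.W h.hq) (iota_iota h.W h.hq)
            (iota_ne h.W h.hq h.ns) (by rw [hcard4, h3]) (by rw [hcard4, h1])
            (kernel_of_adjoin_eq h.hR0 y x he.symm)
        · exfalso
          rw [h1, h3] at hsum
          omega
  rcases Good.g0 hqp h.hq _ s le_rfl hgood with h1 | h1
  · exact Or.inl h1
  · exact Or.inr (gen_of_dim3 hqp hf h1)

/-- The main theorem. -/
theorem main (hqp : q = p ^ f) {T : Multiset ℂ} (hT : AV p q T) (hcard : Multiset.card T ≤ 10)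
    (hno : NoExc q T) {s : Multiset ℂ} (hle : s ≤ T) (hs : IsTate q s) : G0 p q s := by
  classical
  have hq : q ≠ 0 := by
    rw [hqp]
    exact pow_ne_zero _ (Fact.out : p.Prime).ne_zero
  obtain ⟨R, h, hrr⟩ := exists_ctx hq hT hle hs
  by_cases h10 : ∃ x : R.rootSet (LF R), (minpoly ℚ ((x : LF R) : ℂ)).natDegree = 10
  · obtain ⟨x, hx⟩ := h10
    exact h.ten hrr hcard hx
  by_cases h8 : ∃ x : R.rootSet (LF R), (minpoly ℚ ((x : LF R) : ℂ)).natDegree = 8
  · obtain ⟨x, hx⟩ := h8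
    exact h.eight hrr hqp hcard hx
  by_cases h4 : ∃ x : R.rootSet (LF R), (minpoly ℚ ((x : LF R) : ℂ)).natDegree = 4 ∧
      2 ≤ T.count ((x : LF R) : ℂ)
  · obtain ⟨x, hx, hx2⟩ := h4
    exact h.four hrr hcard hx hx2
  by_cases h2 : ∃ x : R.rootSet (LF R), (minpoly ℚ ((x : LF R) : ℂ)).natDegree = 2 ∧
      4 ≤ T.count ((x : LF R) : ℂ)
  · obtain ⟨x, hx, hx2⟩ := h2
    exact h.two hrr hqp hcard hx hx2
  by_cases h44 : ∃ x y : R.rootSet (LF R), (minpoly ℚ ((x : LF R) : ℂ)).natDegree = 4 ∧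
      (minpoly ℚ ((y : LF R) : ℂ)).natDegree = 4 ∧ y ∉ orbit (LF R ≃ₐ[ℚ] LF R) x ∧
      IntermediateField.adjoin ℚ {z : ℂ | IsConjRoot ℚ ((x : LF R) : ℂ) z} =
      IntermediateField.adjoin ℚ {z : ℂ | IsConjRoot ℚ ((y : LF R) : ℂ) z}
  · obtain ⟨x, y, hx, hy, hxy, hcl⟩ := h44
    exact h.four_four hrr hqp hcard hno hx hy hxy hcl
  push Not at h10 h8 h4 h2 h44
  apply h.three hqp hcard
  · intro x
    obtain ⟨d, hd, hd'⟩ := h.exists_degree x
    have h5 := natDegree_mul_count_le h.av (h.mem_T x)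
    have h6 := h.count_pos x
    have h7 : 2 * d ≤ 10 := by
      rw [hd'] at h5
      nlinarith
    have h8' := h8 x
    have h10' := h10 x
    have h4' := h4 x
    have h2' := h2 x
    rw [hd'] at h8' h10' h4' h2' ⊢
    have hd5 : d = 1 ∨ d = 2 ∨ d = 3 ∨ d = 4 ∨ d = 5 := by omega
    rcases hd5 with rfl | rfl | rfl | rfl | rfl
    · left
      have := h2' rfl
      omega
    · right; left
      have := h4' rfl
      omega
    · right; right
      rfl
    · exact absurd rfl h8'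
    · exact absurd rfl h10'
  · intro x y hx hy hxy
    exact h44 x y hx hy hxy

end Pool.Agent.Lib.MP_950c68_ag.Five
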