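import Mathlib
import Pool.Agent.Lib.MP_950c68_ag.Five.Main
import Pool.Agent.Lib.MP_950c68_ag.Five.ExcFour

/-!
# Tate classes on abelian varieties of dimension at most five: all cases
-/

namespace Pool.Agent.Lib.MP_950c68_ag.Five

open Polynomial MulAction Pool.Agent.Lib.MP_950c68_ag.Orb Pool.Agent.Lib.MP_950c68_ag.Dim3

variable {p : ℕ} [Fact p.Prime] {q f : ℕ}

/-- The main theorem. -/
theorem main_exc (hqp : q = p ^ f) {T : Multiset ℂ} (hT : AV p q T) (hcard : Multiset.card T ≤ 10)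
    {s : Multiset ℂ} (hle : s ≤ T) (hs : IsTate q s) :
    G0 p q s ∨ ∃ a b c w : ℂ, ∃ t : Multiset ℂ, s = {a, b, c, w} + t ∧ G0 p q t ∧
      Exc q a b c w := by
  classical
  have hq : q ≠ 0 := by
    rw [hqp]
    exact pow_ne_zero _ (Fact.out : p.Prime).ne_zero
  obtain ⟨R, h, hrr⟩ := exists_ctx hq hT hle hs
  by_cases h10 : ∃ x : R.rootSet (LF R), (minpoly ℚ ((x : LF R) : ℂ)).natDegree = 10
  · obtain ⟨x, hx⟩ := h10
    exact Or.inl (h.ten hrr hcard hx)
  by_cases h8 : ∃ x : R.rootSet (LF R), (minpoly ℚ ((x : LF R) : ℂ)).natDegree = 8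
  · obtain ⟨x, hx⟩ := h8
    exact Or.inl (h.eight hrr hqp hcard hx)
  by_cases h4 : ∃ x : R.rootSet (LF R), (minpoly ℚ ((x : LF R) : ℂ)).natDegree = 4 ∧
      2 ≤ T.count ((x : LF R) : ℂ)
  · obtain ⟨x, hx, hx2⟩ := h4
    exact Or.inl (h.four hrr hcard hx hx2)
  by_cases h2 : ∃ x : R.rootSet (LF R), (minpoly ℚ ((x : LF R) : ℂ)).natDegree = 2 ∧
      4 ≤ T.count ((x : LF R) : ℂ)
  · obtain ⟨x, hx, hx2⟩ := h2
    exact Or.inl (h.two hrr hqp hcard hx hx2)
  by_cases h44 : ∃ x y : R.rootSet (LF R), (minpoly ℚ ((x : LF R) : ℂ)).natDegree = 4 ∧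
      (minpoly ℚ ((y : LF R) : ℂ)).natDegree = 4 ∧ y ∉ orbit (LF R ≃ₐ[ℚ] LF R) x ∧
      IntermediateField.adjoin ℚ {z : ℂ | IsConjRoot ℚ ((x : LF R) : ℂ) z} =
      IntermediateField.adjoin ℚ {z : ℂ | IsConjRoot ℚ ((y : LF R) : ℂ) z}
  · obtain ⟨x, y, hx, hy, hxy, hcl⟩ := h44
    exact h.four_four_exc hrr hqp hcard hx hy hxy hcl
  push Not at h10 h8 h4 h2 h44
  left
  apply h.three hqp hcard
  · intro x
    obtain ⟨d, hd, hd'⟩ := h.exists_degree x
    have h5 := natDegree_mul_count_le h.av (h.mem_T x)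
    have h6 := h.count_pos x
    have h7 : 2 * d ≤ 10 := by
      rw [hd'] at h5
      nlinarith
    have h8' := h8 x
    have h10' := h10 x
    have h4' := h4 x
    have h2' := h2 x
    rw [hd'] at h8' h10' h4' h2' ⊢
    have hd5 : d = 1 ∨ d = 2 ∨ d = 3 ∨ d = 4 ∨ d = 5 := by omega
    rcases hd5 with rfl | rfl | rfl | rfl | rfl
    · left
      have := h2' rfl
      omega
    · right; left
      have := h4' rfl
      omega
    · right; right
      rfl
    · exact absurd rfl h8'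
    · exact absurd rfl h10'
  · intro x y hx hy hxy
    exact h44 x y hx hy hxy

end Pool.Agent.Lib.MP_950c68_ag.Five
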