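import Mathlib
import Pool.Agent.Lib.MP_950c68_ag.Five.A4
import Pool.Agent.Lib.MP_950c68_ag.Five.E4
import Pool.Agent.Lib.MP_950c68_ag.Five.G1
import Pool.Agent.Lib.MP_950c68_ag.Five.Sat
import Pool.Agent.Lib.MP_950c68_ag.Five.PL1
import Pool.Agent.Lib.MP_950c68_ag.Five.PL3
import Pool.Agent.Lib.MP_950c68_ag.Five.PL4
import Pool.Agent.Lib.MP_950c68_ag.Five.PL5
import Pool.Agent.Lib.MP_950c68_ag.Five.CaseEight

/-!
# Tate multisets with one conjugacy class
-/

namespace Pool.Agent.Lib.MP_950c68_ag.Five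

open Polynomial MulAction Pool.Agent.Lib.MP_950c68_ag.Orb Pool.Agent.Lib.MP_950c68_ag.Dim3

variable {p : ℕ} [Fact p.Prime] {q f : ℕ}

/-- Removing all pairs. -/
theorem G0.cancel_all {s u : Multiset ℂ} (hu : ∀ z ∈ u, IsWeil q z)
    (h : G0 p q (s + (u + u.map fun z => (q : ℂ) / z))) : G0 p q s := by
  induction u using Multiset.induction_on with
  | empty => simpa using h
  | cons a u ih =>
    apply ih (fun z hz => hu z (Multiset.mem_cons_of_mem hz))
    apply G0.cancel (hu a (Multiset.mem_cons_self _ _))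
    convert h using 1
    simp only [Multiset.map_cons, Multiset.insert_eq_cons, Multiset.cons_add,
      Multiset.singleton_add, Multiset.add_cons]
    exact Multiset.cons_swap _ _ _

omit [Fact p.Prime] in
theorem count_map_div (hq : q ≠ 0) {u : Multiset ℂ} (hu : ∀ z ∈ u, IsWeil q z) {z : ℂ}
    (hz : z ≠ 0) : (u.map fun z => (q : ℂ) / z).count z = u.count ((q : ℂ) / z) := by
  have hq' : (q : ℂ) ≠ 0 := by exact_mod_cast hq
  induction u using Multiset.induction_on with
  | empty => simp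
  | cons a u ih =>
    have ha := (hu a (Multiset.mem_cons_self _ _)).ne_zero hq
    rw [Multiset.map_cons, Multiset.count_cons, Multiset.count_cons,
      ih (fun w hw => hu w (Multiset.mem_cons_of_mem hw))]
    congr 1
    have h1 : z = (q : ℂ) / a ↔ (q : ℂ) / z = a := by
      constructor
      · rintro rfl
        field_simp
      · rintro rfl
        field_simp
    simp only [h1]

/-- Tate multisets with the relation of a generated one are generated. -/
theorem G0.of_rel (hq : q ≠ 0) {s u : Multiset ℂ} (hs : IsTate q s) (huT : IsTate q u)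
    (hu : G0 p q u) (h : ∀ z : ℂ, z ∈ s ∨ z ∈ u ∨ (q : ℂ) / z ∈ s ∨ (q : ℂ) / z ∈ u →
      ¬ Supersingular q z → s.count z + u.count ((q : ℂ) / z) = u.count z + s.count ((q : ℂ) / z)) :
    G0 p q s := by
  classical
  have hq' : (q : ℂ) ≠ 0 := by exact_mod_cast hq
  set v := u.map fun z => (q : ℂ) / z with hv
  have hvW : ∀ z ∈ v, IsWeil q z := by
    intro z hz
    rw [hv, Multiset.mem_map] at hz
    obtain ⟨w, hw, rfl⟩ := hz
    exact (huT.1 w hw).div hq
  have hcv : ∀ z : ℂ, z ≠ 0 → v.count z = u.count ((q : ℂ) / z) :=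
    fun z hz => count_map_div hq huT.1 hz
  have hdd : ∀ z : ℂ, z ≠ 0 → (q : ℂ) / ((q : ℂ) / z) = z := by
    intro z hz
    field_simp
  -- `v` is a Tate multiset
  have huv : IsTate q (u + v) := by
    apply isTate_of_symm hq
    · intro z hz
      rcases Multiset.mem_add.mp hz with h1 | h1
      · exact huT.1 z h1
      · exact hvW z h1
    · rw [Multiset.card_add, hv, Multiset.card_map]
      exact ⟨_, rfl⟩
    · intro z hz _
      have hz0 : z ≠ 0 := by
        rcases Multiset.mem_add.mp hz with h1 | h1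
        · exact (huT.1 z h1).ne_zero hq
        · exact (hvW z h1).ne_zero hq
      rw [Multiset.count_add, Multiset.count_add, hcv z hz0, hcv _ (div_ne_zero hq' hz0), hdd z hz0]
      exact add_comm _ _
  have hvT : IsTate q v := by
    apply IsTate.of_add hq (t := u) _ huT
    rwa [add_comm]
  have hB : G0 p q (s + v) := by
    apply G0.of_symm hq (hs.add hvT)
    intro z hz hns
    have hz0 : z ≠ 0 := by
      rcases Multiset.mem_add.mp hz with h1 | h1
      · exact (hs.1 z h1).ne_zero hq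
      · exact (hvW z h1).ne_zero hq
    have h1 : z ∈ s ∨ z ∈ u ∨ (q : ℂ) / z ∈ s ∨ (q : ℂ) / z ∈ u := by
      rcases Multiset.mem_add.mp hz with h1 | h1
      · exact Or.inl h1
      · rw [← Multiset.count_pos, hcv z hz0, Multiset.count_pos] at h1
        exact Or.inr (Or.inr (Or.inr h1))
    have h2 := h z h1 hns
    rw [Multiset.count_add, Multiset.count_add, hcv z hz0, hcv _ (div_ne_zero hq' hz0), hdd z hz0]
    omega
  have h3 := G0.add hu hB
  apply G0.cancel_all huT.1
  convert h3 using 1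
  rw [← hv]
  abel

/-- The members of small dimension. -/
def Iso (p : ℕ) [Fact p.Prime] (q : ℕ) (x : ℂ) : Prop :=
  (Distinct x ∧ ((minpoly ℚ x).natDegree = 2 ∨ (minpoly ℚ x).natDegree = 4)) ∨
    Simple p q 4 x ∨ Simple p q 5 x

theorem Iso.distinct {x : ℂ} (h : Iso p q x) : Distinct x := by
  rcases h with h | h | h
  · exact h.1
  · exact h.2.1
  · exact h.2.1

omit [Fact p.Prime] in
theorem isTate_of_nsmul {u : Multiset ℂ} {c : ℕ} (hc : c ≠ 0) (hu : IsTate q (c • u))
    (heven : Even (Multiset.card u)) : IsTate q u := by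
  obtain ⟨hW, j, n, hj, hn, hp⟩ := hu
  obtain ⟨i, hi⟩ := heven
  refine ⟨fun z hz => hW z (Multiset.mem_of_le (Multiset.le_iff_count.mpr fun a => ?_) hz),
    i, c * n, by omega, Nat.mul_pos (Nat.pos_of_ne_zero hc) hn, ?_⟩
  · rw [Multiset.count_nsmul]
    exact Nat.le_mul_of_pos_left _ (Nat.pos_of_ne_zero hc)
  · rw [Multiset.prod_nsmul, ← pow_mul] at hp
    rw [hp]
    congr 1
    rw [Multiset.card_nsmul, hi] at hj
    have h1 : j = c * i := by
      have h2 : c * (i + i) = 2 * (c * i) := by ring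
      rw [h2] at hj
      omega
    rw [h1]
    ring

theorem G0.nsmul {u : Multiset ℂ} (hu : G0 p q u) (c : ℕ) : G0 p q (c • u) := by
  induction c with
  | zero => left; simp
  | succ n ih => rw [succ_nsmul]; exact ih.add hu

omit [Fact p.Prime] in
/-- A square root of `q`. -/
theorem exists_sqrt (hq : q ≠ 0) : ∃ w : ℂ, w ^ 2 = q ∧ Supersingular q w ∧ IsWeil q w ∧
    (q : ℂ) / w = w := by
  obtain ⟨w, hw⟩ := IsAlgClosed.exists_pow_nat_eq (q : ℂ) (n := 2) (by norm_num)
  have hq' : (q : ℂ) ≠ 0 := by exact_mod_cast hq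
  have hss : Supersingular q w := ⟨1, one_ne_zero, by rw [mul_one, pow_one]; exact hw⟩
  have hn : ‖w‖ ^ 2 = q := by rw [← norm_pow, hw, Complex.norm_natCast]
  have hw0 : w ≠ 0 := by
    rintro rfl
    apply hq'
    rw [← hw]
    ring
  refine ⟨w, hw, hss, isWeil_of_small (p := 2) hq hn (Or.inr hss), ?_⟩
  rw [div_eq_iff hw0, ← hw]
  ring

/-- Multisets with a constant relation. -/
theorem of_const (hq : q ≠ 0) {s : Multiset ℂ} (hT : IsTate q s) {R : ℚ[X]} (hR0 : R ≠ 0)
    (hroot : ∀ z : ℂ, aeval z R = 0 ↔ ∃ x ∈ s, ¬ Supersingular q x ∧ IsConjRoot ℚ x z)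
    (hW : ∀ z : ℂ, aeval z R = 0 → ‖z‖ ^ 2 = q) {x : ℂ} (hxW : IsWeil q x) (hD : Distinct x)
    {x' : R.rootSet (LF R)} (hxx : IsConjRoot ℚ x ((x' : LF R) : ℂ))
    (hall : ∀ z, z ∈ orbit (LF R ≃ₐ[ℚ] LF R) x') {g k : ℕ}
    (hg : g + k = 4 ∨ g + k = 6 ∧ k ≠ 0)
    (hdeg : (minpoly ℚ x).natDegree = 2 * g) (hHT : HondaTate p q 1 x)
    (hsemi : SemiInv (LF R ≃ₐ[ℚ] LF R) (rr s R) x') : G0 p q s := by
  classical
  have hanti : ∀ y, rr s R (iota R • y) = - rr s R y := by
    intro y
    rw [rr, rr, iota_iota hW hq]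
    ring
  have hmemroot : ∀ z ∈ s, ¬ Supersingular q z → ∃ y : R.rootSet (LF R), ((y : LF R) : ℂ) = z :=
    fun z hz hzn => exists_root hR0 ((hroot z).mpr ⟨z, hz, hzn, rfl⟩)
  have hdiv : ∀ (t : Multiset ℂ) (y : R.rootSet (LF R)), t.count ((q : ℂ) / ((y : LF R) : ℂ)) =
      t.count (((iota R • y : R.rootSet (LF R)) : LF R) : ℂ) := by
    intro t y
    rw [coe_iota' hW hq]
  by_cases hx0 : rr s R x' = 0
  · apply G0.of_symm hq hT
    intro z hz hns
    obtain ⟨y, rfl⟩ := hmemroot z hz hns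
    rw [hdiv]
    have := Ctx.semiInv_zero hsemi hx0 y (hall y)
    rw [rr] at this
    omega
  obtain ⟨Φ, hΦ, hmem⟩ := half_of_semiInv hanti hsemi hx0
  obtain ⟨c, hc, hcΦ⟩ : ∃ c : ℕ, c ≠ 0 ∧ ∀ z ∈ Φ, rr s R z = c := by
    refine ⟨(rr s R x').natAbs, by omega, ?_⟩
    intro z hz
    obtain ⟨hz1, hz2⟩ := (hmem z).mp hz
    obtain ⟨g, rfl⟩ := hz1
    simp only at hz2 ⊢
    rcases hsemi g with h1 | h1
    · have := h1 x' (mem_orbit_self x')
      omega
    · have := h1 x' (mem_orbit_self x')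
      omega
  set Ψ : Finset ℂ := Φ.image (fun y : R.rootSet (LF R) => ((y : LF R) : ℂ)) with hΨ
  have hHS : HalfSystem q x Ψ := halfSystem_of_half hR0 hW hq hxx hΦ
  have hmin : minpoly ℚ x = minpoly ℚ ((x' : LF R) : ℂ) := hxx
  have hcardΨ : Ψ.card = g := by
    rw [hΨ, Finset.card_image_of_injective _ coe_injective]
    exact hΦ.card hR0 hW hq (by rw [← hmin, hdeg])
  have hmemΨ : ∀ y : R.rootSet (LF R), ((y : LF R) : ℂ) ∈ Ψ ↔ y ∈ Φ := by
    intro y
    rw [hΨ, Finset.mem_image]
    constructor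
    · rintro ⟨z, hz, hzy⟩
      rwa [← coe_injective hzy]
    · intro hy
      exact ⟨y, hy, rfl⟩
  have hΨcount : ∀ z : ℂ, (c • Ψ.val).count z = if z ∈ Ψ then c else 0 := by
    intro z
    rw [Multiset.count_nsmul]
    by_cases hz : z ∈ Ψ
    · rw [Multiset.count_eq_one_of_mem Ψ.nodup hz, if_pos hz, mul_one]
    · rw [Multiset.count_eq_zero_of_notMem hz, if_neg hz, mul_zero]
  have hle : c • Ψ.val ≤ s := by
    rw [Multiset.le_iff_count]
    intro z
    rw [hΨcount]
    by_cases hz : z ∈ Ψ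
    · rw [if_pos hz]
      rw [hΨ, Finset.mem_image] at hz
      obtain ⟨y, hy, rfl⟩ := hz
      have := hcΦ y hy
      rw [rr] at this
      omega
    · rw [if_neg hz]
      exact Nat.zero_le _
  obtain ⟨t, ht⟩ := Multiset.le_iff_exists_add.mp hle
  have hcount : ∀ z : ℂ, s.count z = (if z ∈ Ψ then c else 0) + t.count z := by
    intro z
    rw [ht, Multiset.count_add, hΨcount]
  obtain ⟨w, hw2, hwss, hwW, hwd⟩ := exists_sqrt hq
  set W := Multiset.replicate (c * k) w with hWdef
  have hWmem : ∀ z ∈ W, z = w := fun z hz => Multiset.eq_of_mem_replicate hz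
  -- the symmetric part
  have hsymm : ∀ z ∈ t + W, ¬ Supersingular q z → (t + W).count (q / z) = (t + W).count z := by
    intro z hz hns
    have hzt : z ∈ t := by
      rcases Multiset.mem_add.mp hz with h1 | h1
      · exact h1
      · exact absurd (by rw [hWmem z h1]; exact hwss) hns
    have hzs : z ∈ s := by rw [ht]; exact Multiset.mem_add.mpr (Or.inr hzt)
    obtain ⟨y, rfl⟩ := hmemroot z hzs hns
    have hWc : ∀ v : ℂ, ¬ Supersingular q v → W.count v = 0 := by
      intro v hv
      rw [Multiset.count_eq_zero]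
      intro h1
      exact hv (by rw [hWmem v h1]; exact hwss)
    have hns' : ¬ Supersingular q (((iota R • y : R.rootSet (LF R)) : LF R) : ℂ) := by
      intro h1
      apply hns
      exact h1.of_isConjRoot ((mem_orbit_iff_isConjRoot y _).mp (mem_orbit y (iota R))).symm
    rw [hdiv, Multiset.count_add, Multiset.count_add, hWc _ hns, hWc _ hns']
    have e1 := hcount ((y : LF R) : ℂ)
    have e2 := hcount (((iota R • y : R.rootSet (LF R)) : LF R) : ℂ)
    by_cases hy : y ∈ Φ
    · have hy' : iota R • y ∉ Φ := (hΦ.sec y (hall y)).mp hy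
      rw [if_pos ((hmemΨ y).mpr hy)] at e1
      rw [if_neg (fun h1 => hy' ((hmemΨ _).mp h1))] at e2
      have := hcΦ y hy
      rw [rr] at this
      omega
    · have hy' : iota R • y ∈ Φ := by
        by_contra h1
        exact hy ((hΦ.sec y (hall y)).mpr h1)
      rw [if_neg (fun h1 => hy ((hmemΨ _).mp h1))] at e1
      rw [if_pos ((hmemΨ _).mpr hy')] at e2
      have := hcΦ _ hy'
      rw [hanti, rr] at this
      omega
  obtain ⟨_, j, n, hj, hn, hp⟩ := id hT
  have hcards : c * g + Multiset.card t = 2 * j := by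
    have h1 : Multiset.card Ψ.val = g := hcardΨ
    rw [← hj, ht, Multiset.card_add, Multiset.card_nsmul, h1]
  have hWt : ∀ z ∈ t + W, IsWeil q z := by
    intro z hz
    rcases Multiset.mem_add.mp hz with h1 | h1
    · exact hT.1 z (by rw [ht]; exact Multiset.mem_add.mpr (Or.inr h1))
    · rw [hWmem z h1]; exact hwW
  have hgk : Even (g + k) := by
    rcases hg with h1 | ⟨h1, _⟩
    · rw [h1]; decide
    · rw [h1]; decide
  have hevent : Even (Multiset.card (t + W)) := by
    rw [Multiset.card_add, hWdef, Multiset.card_replicate]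
    obtain ⟨i, hi⟩ := hgk
    have h1 : c * g + c * k = 2 * (c * i) := by rw [← mul_add, hi]; ring
    rw [Nat.even_iff]
    omega
  have hTt : IsTate q (t + W) := isTate_of_symm hq hWt hevent hsymm
  -- the pairs
  have hWW : IsTate q (W + W) := by
    apply isTate_of_symm hq
    · intro z hz
      rcases Multiset.mem_add.mp hz with h1 | h1 <;>
      · rw [hWmem z h1]; exact hwW
    · rw [Multiset.card_add]; exact ⟨_, rfl⟩
    · intro z hz hns
      exfalso
      rcases Multiset.mem_add.mp hz with h1 | h1 <;>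
      · exact hns (by rw [hWmem z h1]; exact hwss)
  have hsplit : s + (W + W) = (c • (1 • Ψ.val + Multiset.replicate k w)) + (t + W) := by
    have h1 : c • (1 • Ψ.val + Multiset.replicate k w) = c • Ψ.val + W := by
      rw [one_smul, smul_add, hWdef, Multiset.nsmul_replicate]
    rw [h1, ht]
    abel
  have hTu : IsTate q (c • (1 • Ψ.val + Multiset.replicate k w)) := by
    apply IsTate.of_add hq (t := t + W) _ hTt
    rw [← hsplit]
    exact hT.add hWW
  have hTu' : IsTate q (1 • Ψ.val + Multiset.replicate k w) := by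
    apply isTate_of_nsmul hc hTu
    rw [one_smul, Multiset.card_add, Multiset.card_replicate]
    have h1 : Multiset.card Ψ.val = g := hcardΨ
    rw [h1]
    exact hgk
  have hG : G0 p q (1 • Ψ.val + Multiset.replicate k w) := by
    right
    apply Gen.weil x w Ψ 1 k hxW hD hHT hHS (Or.inr hwss) _ hTu'
    rw [one_mul, hcardΨ]
    exact hg
  have hG2 : G0 p q (s + (W + W)) := by
    rw [hsplit]
    exact (hG.nsmul c).add (G0.of_symm hq hTt hsymm)
  apply G0.cancel_all (u := W) (fun z hz => by rw [hWmem z hz]; exact hwW)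
  have h1 : (W.map fun z => (q : ℂ) / z) = W := by
    rw [hWdef, Multiset.map_replicate, hwd]
  rw [h1]
  exact hG2

/-- Tate multisets with one conjugacy class. -/
theorem G0.one_orbit (hqp : q = p ^ f) (hq : q ≠ 0) {s : Multiset ℂ} (hT : IsTate q s) {x : ℂ}
    (hxW : IsWeil q x) (hI : Iso p q x)
    (hconj : ∀ z ∈ s, ¬ Supersingular q z → IsConjRoot ℚ x z) : G0 p q s := by
  classical
  by_cases hex : ∃ z ∈ s, ¬ Supersingular q z
  swap
  · push Not at hex
    exact G0.of_symm hq hT fun z hz hzn => absurd (hex z hz) hzn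
  obtain ⟨z₀, hz₀, hz₀n⟩ := hex
  have hq' : (q : ℂ) ≠ 0 := by exact_mod_cast hq
  obtain ⟨R, hR0, hroot, m, hm, hLam⟩ := exists_setup hq hT
  obtain ⟨hW, hint, hns⟩ := facts_of_root hT.1 hroot
  have h0 : ∀ x : R.rootSet (LF R), ((x : LF R) : ℂ) ≠ 0 := by
    intro y
    have := root_ne_zero hW hq y
    simpa using this
  have hxconj : ∀ y : R.rootSet (LF R), IsConjRoot ℚ x ((y : LF R) : ℂ) := by
    intro y
    obtain ⟨z, hz, hzn, hzy⟩ := (hroot _).mp (aeval_root y)
    exact (hconj z hz hzn).trans hzy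
  obtain ⟨x', hx'⟩ := exists_root hR0 ((hroot x).mpr ⟨z₀, hz₀, hz₀n, (hconj z₀ hz₀ hz₀n).symm⟩)
  have hall : ∀ z, z ∈ orbit (LF R ≃ₐ[ℚ] LF R) x' := by
    intro z
    rw [mem_orbit_iff_isConjRoot, hx']
    exact hxconj z
  have hr : rr s R ∈ Sat R q hq' h0 := by
    refine ⟨m, by exact_mod_cast hm, ?_⟩
    have h1 := hLam hq' h0
    have h2 : (fun y : R.rootSet (LF R) => (m : ℤ) * rr s R y) =
        fun y : R.rootSet (LF R) => ((m * s.count ((y : LF R) : ℂ) : ℕ) : ℤ) -
            ((m * s.count (((iota R • y : R.rootSet (LF R)) : LF R) : ℂ) : ℕ) : ℤ) := by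
      ext y
      rw [rr]
      push_cast
      ring
    rw [h2]
    exact h1
  have hD := hI.distinct
  have hneat : ∀ a b : R.rootSet (LF R), ∀ n : ℕ, n ≠ 0 →
      ((a : LF R) : ℂ) ^ n = ((b : LF R) : ℂ) ^ n → a = b := by
    intro a b n hn he
    by_contra hab
    have hDb := hD.of_isConjRoot hxW.1.tower_top (hxconj b)
    exact hDb _ ((hxconj b).symm.trans (hxconj a)) (fun h => hab (coe_injective h)) n hn he
  have hrel : Rel (iota R) (Sat R q hq' h0) := rel_sat hW hq hns hneat
  have hf := Five.exponent_ne_zero hqp hW hint hns x'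
  have hzero : (∀ y, rr s R y = 0) → G0 p q s := by
    intro h1
    apply G0.of_symm hq hT
    intro z hz hzn
    obtain ⟨y, rfl⟩ := exists_root hR0 ((hroot z).mpr ⟨z, hz, hzn, rfl⟩)
    have h2 := h1 y
    rw [rr] at h2
    rw [← coe_iota' hW hq]
    omega
  have hmin : minpoly ℚ x = minpoly ℚ ((x' : LF R) : ℂ) := by rw [hx']
  rcases hI with ⟨_, h2 | h4⟩ | h8 | h10
  · apply hzero
    have hox := orbit_two hR0 hW hq hns x' (by rw [← hmin, h2])
    have h1 := hrel.pair x' _ hr fun y hy hy' => by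
      rcases hox y (hall y) with h3 | h3
      · exact absurd h3 hy
      · exact absurd h3 hy'
    intro y
    rcases hox y (hall y) with rfl | rfl
    · exact h1
    · rw [hrel.anti _ hr, h1, neg_zero]
  · apply hzero
    exact hrel.four (by rw [card_orbit hR0, ← hmin, h4]) hr fun z hz => absurd (hall z) hz
  · have hHT : HondaTate p q 1 x := by
      intro H hH hdvd
      simpa only [pow_one] using h8.2.2 H hH hdvd
    obtain ⟨φ⟩ := exists_place R p
    have hsemi : SemiInv (LF R ≃ₐ[ℚ] LF R) (rr s R) x' := by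
      refine eight_const (smul_iota hW hq) (iota_iota hW hq) (iota_ne hW hq hns)
        (x := x') (by rw [card_orbit hR0, ← hmin, h8.1]) (ν := nu q φ) (nu_iota hqp hf hW φ)
        (abs_nu_le hqp hf hW hint φ) ?_ ?_ (hrel.anti _ hr) (fun z hz => absurd (hall z) hz)
        (sum_nu_sat hqp hf hW φ hr)
      · intro c
        have h1 := nu_hondaTate hR0 hqp hf hW φ x' 1 (by rw [← hmin]; exact hHT) c
        simpa only [Nat.cast_one, one_mul] using h1
      · intro y _ z _ he
        obtain ⟨n, hn, h1⟩ := pow_eq_of_nu hqp hf hW hint φ y z he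
        exact hneat y z n hn h1
    exact of_const hq hT hR0 hroot hW hxW hD (hxconj x') hall (g := 4) (k := 0) (Or.inl rfl)
      h8.1 hHT hsemi
  · have hHT : HondaTate p q 1 x := by
      intro H hH hdvd
      simpa only [pow_one] using h10.2.2 H hH hdvd
    have hsemi : SemiInv (LF R ≃ₐ[ℚ] LF R) (rr s R) x' :=
      semiInv_single_odd hrel.smul hrel.anti hrel.comm hrel.invol hrel.ne Nat.prime_five
        (by norm_num) (by rw [card_orbit hR0, ← hmin, h10.1])
        (fun d hd y _ hyx hyx' hs he => hrel.two' hyx hyx' hd hs (Or.inr he)) hr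
        (fun y hy => absurd (hall y) hy)
    exact of_const hq hT hR0 hroot hW hxW hD (hxconj x') hall (g := 5) (k := 1)
      (Or.inr ⟨rfl, one_ne_zero⟩) h10.1 hHT hsemi

end Pool.Agent.Lib.MP_950c68_ag.Five
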