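import Mathlib
import Pool.Agent.Lib.MP_950c68_ag.Five.OneOrbit
import Pool.Agent.Lib.MP_950c68_ag.Five.A3

/-!
# Products with isolated factors
-/

namespace Pool.Agent.Lib.MP_950c68_ag.Five

open Polynomial MulAction Pool.Agent.Lib.MP_950c68_ag.Orb Pool.Agent.Lib.MP_950c68_ag.Dim3

variable {p : ℕ} [Fact p.Prime] {q f : ℕ}

/-- `x` is isolated in `s`: some automorphism maps the conjugates `z` of `x` to `q / z` and fixes
the conjugates of the other members which are not supersingular.  Equivalently, the intersection of
the Galois closure of `ℚ(x)` with the composite of the Galois closures of the other members (which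
are not supersingular) is a real field. -/
def Isolated (q : ℕ) (s : Multiset ℂ) (x : ℂ) : Prop :=
  ∃ σ : ℂ ≃ₐ[ℚ] ℂ, (∀ z, IsConjRoot ℚ x z → σ z = q / z) ∧
    ∀ y ∈ s, ¬ Supersingular q y → ¬ IsConjRoot ℚ x y → ∀ z, IsConjRoot ℚ y z → σ z = z

/-- The hypotheses of the theorem. -/
structure GoodIso (p : ℕ) [Fact p.Prime] (q : ℕ) (s : Multiset ℂ) : Prop where
  tate : IsTate q s
  type : ∀ x ∈ s, Supersingular q x ∨ (Ordinary p q x ∨ Cubic p q x) ∨ Large p q x ∨
    (Iso p q x ∧ Isolated q s x)
  clos : ∀ x ∈ s, ∀ y ∈ s, Large p q x → Large p q y → ¬ IsConjRoot ℚ x y →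
    IntermediateField.adjoin ℚ {z : ℂ | IsConjRoot ℚ x z} ≠
      IntermediateField.adjoin ℚ {z : ℂ | IsConjRoot ℚ y z}

omit [Fact p.Prime] in
/-- Splitting off an isolated conjugacy class: the relation. -/
theorem isolated_pow (hq : q ≠ 0) {s : Multiset ℂ} (hT : IsTate q s) {x : ℂ}
    (hI : Isolated q s x) {a b : Multiset ℂ} (hab : s = a + b) (ha : ∀ z ∈ a, IsConjRoot ℚ x z)
    (hb : ∀ z ∈ b, ¬ IsConjRoot ℚ x z) :
    ∃ M : ℕ, M ≠ 0 ∧ a.prod ^ (2 * M) = (q : ℂ) ^ (M * Multiset.card a) := by
  classical
  obtain ⟨σ, hσ1, hσ2⟩ := hI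
  obtain ⟨hW, j, n, hj, hn, hp⟩ := hT
  have hq' : (q : ℂ) ≠ 0 := by exact_mod_cast hq
  have haW : ∀ z ∈ a, IsWeil q z := fun z hz => hW z (by rw [hab]; exact Multiset.mem_add.mpr (Or.inl hz))
  have hbW : ∀ z ∈ b, IsWeil q z := fun z hz => hW z (by rw [hab]; exact Multiset.mem_add.mpr (Or.inr hz))
  set c := b.filter fun z => Supersingular q z with hc
  set d := b.filter fun z => ¬ Supersingular q z with hd
  have hbcd : b = c + d := (Multiset.filter_add_not _ _).symm
  -- the automorphism on the three parts
  have h1 : ∀ u : Multiset ℂ, (∀ z ∈ u, IsConjRoot ℚ x z ∧ IsWeil q z) →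
      σ u.prod * u.prod = (q : ℂ) ^ Multiset.card u := by
    intro u
    induction u using Multiset.induction_on with
    | empty => intro _; simp
    | cons z u ih =>
      intro hu
      obtain ⟨hz1, hz2⟩ := hu z (Multiset.mem_cons_self _ _)
      have hz0 := hz2.ne_zero hq
      have := ih fun v hv => hu v (Multiset.mem_cons_of_mem hv)
      rw [Multiset.prod_cons, map_mul, hσ1 z hz1, Multiset.card_cons, pow_succ, ← this]
      field_simp
  have h2 : ∀ u : Multiset ℂ, (∀ z ∈ u, σ z = z) → σ u.prod = u.prod := by
    intro u
    induction u using Multiset.induction_on with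
    | empty => intro _; simp
    | cons z u ih =>
      intro hu
      rw [Multiset.prod_cons, map_mul, hu z (Multiset.mem_cons_self _ _),
        ih fun v hv => hu v (Multiset.mem_cons_of_mem hv)]
  have ha1 := h1 a fun z hz => ⟨ha z hz, haW z hz⟩
  have hd1 : σ d.prod = d.prod := by
    apply h2
    intro z hz
    obtain ⟨hz1, hz2⟩ := Multiset.mem_filter.mp hz
    exact hσ2 z (by rw [hab]; exact Multiset.mem_add.mpr (Or.inr hz1)) hz2 (hb z hz1) z rfl
  obtain ⟨N, hN, hNp⟩ := exists_pow_supersingular c fun z hz => (Multiset.mem_filter.mp hz).2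
  have hNσ : (σ c.prod) ^ (2 * N) = (q : ℂ) ^ (N * Multiset.card c) := by
    rw [← map_pow, hNp, map_pow, map_natCast]
  have hs : s.prod = a.prod * (c.prod * d.prod) := by
    rw [hab, Multiset.prod_add, hbcd, Multiset.prod_add]
  have hσs : (σ s.prod) ^ n = (q : ℂ) ^ (n * j) := by
    rw [← map_pow, hp, map_pow, map_natCast]
  have ha0 : a.prod ≠ 0 := by
    intro h0
    rw [h0, mul_zero] at ha1
    exact pow_ne_zero _ hq' ha1.symm
  have hc0 : c.prod ≠ 0 := by
    intro h0
    rw [h0, zero_pow (by omega)] at hNp
    exact pow_ne_zero _ hq' hNp.symm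
  have hd0 : d.prod ≠ 0 := by
    intro h0
    exact (hbW 0 (Multiset.mem_filter.mp (Multiset.prod_eq_zero_iff.mp h0)).1).ne_zero hq rfl
  refine ⟨2 * N * n, by
    have : n ≠ 0 := by omega
    positivity, ?_⟩
  -- compare
  have e1 : (a.prod * (c.prod * d.prod)) ^ (2 * N * n) =
      (σ a.prod * (σ c.prod * d.prod)) ^ (2 * N * n) := by
    have e2 : (s.prod ^ n) ^ (2 * N) = ((σ s.prod) ^ n) ^ (2 * N) := by rw [hp, hσs]
    rw [hs, map_mul, map_mul, hd1] at e2
    have e5 : ∀ v : ℂ, v ^ (2 * N * n) = (v ^ n) ^ (2 * N) := fun v => by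
      rw [← pow_mul, mul_comm]
    rw [e5, e5]
    exact e2
  have e3 : c.prod ^ (2 * N * n) = (σ c.prod) ^ (2 * N * n) := by
    rw [pow_mul, hNp, pow_mul (σ c.prod), hNσ]
  have e4 : a.prod ^ (2 * N * n) = (σ a.prod) ^ (2 * N * n) := by
    rw [mul_pow, mul_pow, mul_pow (σ a.prod), mul_pow (σ c.prod), ← e3] at e1
    exact mul_right_cancel₀ (mul_ne_zero (pow_ne_zero _ hc0) (pow_ne_zero _ hd0)) e1
  calc a.prod ^ (2 * (2 * N * n)) = a.prod ^ (2 * N * n) * a.prod ^ (2 * N * n) := by
        rw [two_mul, pow_add]
    _ = (σ a.prod * a.prod) ^ (2 * N * n) := by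
        rw [mul_pow]
        nth_rewrite 1 [e4]
        rfl
    _ = (q : ℂ) ^ (2 * N * n * Multiset.card a) := by
        rw [ha1, ← pow_mul, mul_comm (Multiset.card a)]

open scoped Classical in
/-- The main theorem on products. -/
theorem GoodIso.g0 (hqp : q = p ^ f) (hq : q ≠ 0) (n : ℕ) : ∀ s : Multiset ℂ,
    Multiset.card (s.filter fun z => ¬ Supersingular q z) ≤ n → GoodIso p q s → G0 p q s := by
  classical
  induction n with
  | zero =>
    intro s hs hG
    apply G0.of_symm hq hG.tate
    intro z hz hzn
    have h1 : z ∈ s.filter fun z => ¬ Supersingular q z := Multiset.mem_filter.mpr ⟨hz, hzn⟩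
    have h2 := Multiset.card_pos_iff_exists_mem.mpr ⟨z, h1⟩
    omega
  | succ n ih =>
    intro s hs hG
    by_cases hex : ∃ z ∈ s, ¬ Supersingular q z
    swap
    · push Not at hex
      exact G0.of_symm hq hG.tate fun z hz hzn => absurd (hex z hz) hzn
    by_cases hiso : ∃ x ∈ s, ¬ Supersingular q x ∧ Iso p q x ∧ Isolated q s x
    · obtain ⟨x, hx, hxn, hxI, hxs⟩ := hiso
      set a := s.filter fun z => IsConjRoot ℚ x z with ha
      set b := s.filter fun z => ¬ IsConjRoot ℚ x z with hb
      have hab : s = a + b := (Multiset.filter_add_not _ _).symm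
      obtain ⟨M, hM, hMp⟩ := isolated_pow hq hG.tate hxs hab
        (fun z hz => (Multiset.mem_filter.mp hz).2) (fun z hz => (Multiset.mem_filter.mp hz).2)
      obtain ⟨w, hw2, hwss, hwW, hwd⟩ := exists_sqrt hq
      have hWx := hG.tate.1 x hx
      have haW : ∀ z ∈ a, IsWeil q z := fun z hz => hG.tate.1 z (Multiset.mem_filter.mp hz).1
      have hbW : ∀ z ∈ b, IsWeil q z := fun z hz => hG.tate.1 z (Multiset.mem_filter.mp hz).1
      -- the general step
      have key : ∀ u : Multiset ℂ, (∀ z ∈ u, z = w) → IsTate q (a + u) → IsTate q (u + u) →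
          G0 p q s := by
        intro u hu hau huu
        have hbu : IsTate q (b + u) := by
          apply IsTate.of_add hq (t := a + u) _ hau
          have h1 : b + u + (a + u) = s + (u + u) := by
            rw [hab]
            abel
          rw [h1]
          exact hG.tate.add huu
        have h1 : G0 p q (a + u) := by
          apply G0.one_orbit hqp hq hau hWx hxI
          intro z hz hzn
          rcases Multiset.mem_add.mp hz with h2 | h2
          · exact (Multiset.mem_filter.mp h2).2
          · exact absurd (by rw [hu z h2]; exact hwss) hzn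
        have h2 : G0 p q (b + u) := by
          apply ih
          · have h3 : (s.filter fun z => ¬ Supersingular q z) =
                (a.filter fun z => ¬ Supersingular q z) +
                  (b.filter fun z => ¬ Supersingular q z) := by
              rw [← Multiset.filter_add, ← hab]
            have h4 : (u.filter fun z => ¬ Supersingular q z) = 0 := by
              rw [Multiset.filter_eq_nil]
              intro z hz
              rw [hu z hz, not_not]
              exact hwss
            have h5 : x ∈ a.filter fun z => ¬ Supersingular q z :=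
              Multiset.mem_filter.mpr ⟨Multiset.mem_filter.mpr ⟨hx, rfl⟩, hxn⟩
            have h6 := Multiset.card_pos_iff_exists_mem.mpr ⟨x, h5⟩
            rw [Multiset.filter_add, h4, add_zero]
            rw [h3, Multiset.card_add] at hs
            omega
          · have hmem : ∀ z ∈ b + u, ¬ Supersingular q z → z ∈ s := by
              intro z hz hzn
              rcases Multiset.mem_add.mp hz with h3 | h3
              · exact (Multiset.mem_filter.mp h3).1
              · exact absurd (by rw [hu z h3]; exact hwss) hzn
            refine ⟨hbu, ?_, ?_⟩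
            · intro z hz
              by_cases hzn : Supersingular q z
              · exact Or.inl hzn
              · rcases hG.type z (hmem z hz hzn) with h3 | h3 | h3 | ⟨h3, σ, h4, h5⟩
                · exact Or.inl h3
                · exact Or.inr (Or.inl h3)
                · exact Or.inr (Or.inr (Or.inl h3))
                · exact Or.inr (Or.inr (Or.inr ⟨h3, σ, h4, fun y hy hyn =>
                    h5 y (hmem y hy hyn) hyn⟩))
            · intro y hy z hz hyL hzL
              exact hG.clos y (hmem y hy (hyL.not_supersingular hq (hbu.1 y hy))) z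
                (hmem z hz (hzL.not_supersingular hq (hbu.1 z hz))) hyL hzL
        apply G0.cancel_all (u := u) (fun z hz => by rw [hu z hz]; exact hwW)
        have h3 : (u.map fun z => (q : ℂ) / z) = u := by
          conv_rhs => rw [← Multiset.map_id u]
          apply Multiset.map_congr rfl
          intro z hz
          rw [hu z hz]
          exact hwd
        rw [h3]
        have h4 : s + (u + u) = (a + u) + (b + u) := by
          rw [hab]
          abel
        rw [h4]
        exact h1.add h2
      rcases Nat.even_or_odd (Multiset.card a) with ⟨k, hk⟩ | ⟨k, hk⟩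
      · apply key 0 (by simp)
        · rw [add_zero]
          refine ⟨haW, k, 2 * M, by rw [hk]; ring, by omega, ?_⟩
          rw [hMp, hk]
          congr 1
          ring
        · rw [add_zero]
          exact ⟨by simp, 0, 1, by simp, one_pos, by simp⟩
      · apply key {w} (by simp)
        · refine ⟨?_, k + 1, 2 * M, ?_, by omega, ?_⟩
          · intro z hz
            rcases Multiset.mem_add.mp hz with h1 | h1
            · exact haW z h1
            · rw [Multiset.mem_singleton.mp h1]
              exact hwW
          · rw [Multiset.card_add, hk, Multiset.card_singleton]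
            ring
          · rw [Multiset.prod_add, Multiset.prod_singleton, mul_pow, hMp, pow_mul w, hw2,
              ← pow_add, hk]
            congr 1
            ring
        · have h1 : ({w} : Multiset ℂ) + {w} = {w, (q : ℂ) / w} := by
            rw [hwd]
            rfl
          rw [h1]
          exact isTate_pair hq hwW
    · push Not at hiso
      have hgood : Good p q s := by
        refine ⟨hG.tate, ?_, hG.clos⟩
        intro x hx
        by_cases hxn : Supersingular q x
        · exact Or.inl hxn
        · rcases hG.type x hx with h1 | h1 | h1 | ⟨h1, h2⟩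
          · exact Or.inl h1
          · exact Or.inr (Or.inl h1)
          · exact Or.inr (Or.inr h1)
          · exact absurd h2 (hiso x hx hxn h1)
      rcases Good.g0 hqp hq _ s le_rfl hgood with h1 | h1
      · exact Or.inl h1
      · obtain ⟨x, hx, hxn⟩ := hex
        obtain ⟨R, hR0, hroot, -⟩ := exists_setup hq hG.tate
        obtain ⟨hW, hint, hns⟩ := facts_of_root hG.tate.1 hroot
        obtain ⟨y, _⟩ := exists_root hR0 ((hroot x).mpr ⟨x, hx, hxn, rfl⟩)
        exact Or.inr (gen_of_dim3 hqp (Five.exponent_ne_zero hqp hW hint hns y) h1)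

end Pool.Agent.Lib.MP_950c68_ag.Five
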